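import Pool.Agent.Lib.MP_6b3014_an.Sm.Defs

open MeasureTheory Set
open scoped RealInnerProductSpace ContDiff Topology

noncomputable section

namespace Pool.Agent.Lib.MP_6b3014_an.Sm

theorem A0_compact : IsCompact (Metric.sphere (0 : E) 1) := isCompact_sphere 0 1

theorem A0_nonempty : (Metric.sphere (0 : E) 1).Nonempty :=
  (NormedSpace.sphere_nonempty (E := E) (x := 0) (r := 1)).2 zero_le_one

theorem exists_max (A : E →L[ℝ] E) : ∃ y : E, ‖y‖ = 1 ∧ ‖A y‖ = ‖A‖ := by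
  obtain ⟨y, hy, hmax⟩ := A0_compact.exists_isMaxOn A0_nonempty
    (f := fun w => ‖A w‖) (by fun_prop)
  have hy1 : ‖y‖ = 1 := by simpa using hy
  refine ⟨y, hy1, le_antisymm ?_ ?_⟩
  · have h := A.le_opNorm y
    rwa [hy1, mul_one] at h
  · refine A.opNorm_le_bound (norm_nonneg _) fun w => ?_
    by_cases hw : w = 0
    · simp [hw]
    · have hw0 : 0 < ‖w‖ := norm_pos_iff.2 hw
      have h1 : (‖w‖⁻¹ • w) ∈ Metric.sphere (0 : E) 1 := by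
        rw [mem_sphere_zero_iff_norm, norm_smul, norm_inv, norm_norm, inv_mul_cancel₀ hw0.ne']
      have h2 : ‖A (‖w‖⁻¹ • w)‖ ≤ ‖A y‖ := hmax h1
      rw [map_smul, norm_smul, norm_inv, norm_norm] at h2
      calc ‖A w‖ = ‖w‖⁻¹ * ‖A w‖ * ‖w‖ := by field_simp
        _ ≤ ‖A y‖ * ‖w‖ := mul_le_mul_of_nonneg_right h2 hw0.le

theorem A0_min (A : E →L[ℝ] E) : ∃ z : E, ‖z‖ = 1 ∧ ∀ w : E, ‖w‖ = 1 → ‖A z‖ ≤ ‖A w‖ := by
  obtain ⟨z, hz, hmin⟩ := A0_compact.exists_isMinOn A0_nonempty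
    (f := fun w => ‖A w‖) (by fun_prop)
  exact ⟨z, by simpa using hz, fun w hw => hmin (by simpa using hw)⟩

theorem exists_min (A : E →L[ℝ] E) : ∃ z : E, ‖z‖ = 1 ∧ ‖A z‖ = minStretch A := by
  obtain ⟨z, hz, hmin⟩ := A0_min A
  refine ⟨z, hz, le_antisymm ?_ ?_⟩
  · refine le_csInf ⟨‖A z‖, z, hz, rfl⟩ ?_
    rintro r ⟨w, hw, rfl⟩
    exact hmin w hw
  · refine csInf_le ⟨0, ?_⟩ ⟨z, hz, rfl⟩
    rintro r ⟨w, _, rfl⟩
    exact norm_nonneg _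

theorem minStretch_le (A : E →L[ℝ] E) (y : E) (hy : ‖y‖ = 1) : minStretch A ≤ ‖A y‖ := by
  refine csInf_le ⟨0, ?_⟩ ⟨y, hy, rfl⟩
  rintro r ⟨w, _, rfl⟩
  exact norm_nonneg _

theorem minStretch_pos (A : E →L[ℝ] E) (hA : 0 < A.det) : 0 < minStretch A := by
  obtain ⟨z, hz, h⟩ := exists_min A
  rw [← h, norm_pos_iff]
  intro h0
  have hu : IsUnit (A : E →ₗ[ℝ] E) :=
    (LinearMap.isUnit_iff_isUnit_det _).2 (isUnit_iff_ne_zero.2 hA.ne')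
  have hk := (LinearMap.isUnit_iff_ker_eq_bot _).1 hu
  have hz0 : z = 0 := LinearMap.ker_eq_bot'.1 hk z h0
  rw [hz0, norm_zero] at hz
  exact zero_ne_one hz

end Pool.Agent.Lib.MP_6b3014_an.Sm
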