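import Pool.Agent.Lib.MP_6b3014_an.Sm.A0

open MeasureTheory Set
open scoped RealInnerProductSpace ContDiff Topology

noncomputable section

namespace Pool.Agent.Lib.MP_6b3014_an.Sm

theorem A0b_norm_le (A : E →L[ℝ] E) (y : E) (hy : ‖y‖ = 1) : ‖A y‖ ^ 3 ≤ ‖A‖ ^ 3 := by
  have h : ‖A y‖ ≤ ‖A‖ := by
    have h1 := A.le_opNorm y
    rwa [hy, mul_one] at h1
  exact pow_le_pow_left₀ (norm_nonneg _) h 3

theorem A0b_K_nonneg (K : ℝ) (A : E →L[ℝ] E) (h : Dil K A) : 0 ≤ K := by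
  refine le_trans ?_ h.2.1
  unfold kO
  exact div_nonneg (pow_nonneg (norm_nonneg _) 3) h.1.le

theorem A0b_max_le (K : ℝ) (A : E →L[ℝ] E) (h : Dil K A) : ‖A‖ ^ 3 ≤ K * A.det := by
  have h1 := h.2.1
  unfold kO at h1
  rwa [div_le_iff₀ h.1] at h1

theorem A0b_le_min (K : ℝ) (A : E →L[ℝ] E) (h : Dil K A) : A.det ≤ K * minStretch A ^ 3 := by
  have h1 := h.2.2
  unfold kI at h1
  rwa [div_le_iff₀ (pow_pos (minStretch_pos A h.1) 3)] at h1

theorem A0b_min_le (A : E →L[ℝ] E) (hA : 0 < A.det) (y : E) (hy : ‖y‖ = 1) :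
    minStretch A ^ 3 ≤ ‖A y‖ ^ 3 :=
  pow_le_pow_left₀ (minStretch_pos A hA).le (minStretch_le A y hy) 3

theorem dil_iff (K : ℝ) (A : E →L[ℝ] E) : Dil K A ↔
    0 < A.det ∧ ∀ y : E, ‖y‖ = 1 → ‖A y‖ ^ 3 ≤ K * A.det ∧ A.det ≤ K * ‖A y‖ ^ 3 := by
  constructor
  · intro h
    refine ⟨h.1, fun y hy => ⟨(A0b_norm_le A y hy).trans (A0b_max_le K A h), ?_⟩⟩
    exact (A0b_le_min K A h).trans
      (mul_le_mul_of_nonneg_left (A0b_min_le A h.1 y hy) (A0b_K_nonneg K A h))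
  · rintro ⟨hdet, h⟩
    refine ⟨hdet, ?_, ?_⟩
    · obtain ⟨y, hy, hmax⟩ := exists_max A
      unfold kO
      rw [div_le_iff₀ hdet, ← hmax]
      exact (h y hy).1
    · obtain ⟨z, hz, hmin⟩ := exists_min A
      unfold kI
      rw [div_le_iff₀ (pow_pos (minStretch_pos A hdet) 3), ← hmin]
      exact (h z hz).2

theorem dil_mono (K K' : ℝ) (hK : K ≤ K') (A : E →L[ℝ] E) (h : Dil K A) : Dil K' A := by
  exact ⟨h.1, h.2.1.trans hK, h.2.2.trans hK⟩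

theorem top_norm (K : ℝ) (A : E →L[ℝ] E) (h : Dil K A) (y : E) (hy : Top K A y) :
    ‖A y‖ = ‖A‖ ∧ kO A = K := by
  have h1 := A0b_norm_le A y hy.1
  have h2 := A0b_max_le K A h
  have h3 : ‖A‖ ^ 3 = K * A.det := le_antisymm h2 (by rw [← hy.2]; exact h1)
  have h4 : ‖A y‖ ^ 3 = ‖A‖ ^ 3 := by rw [h3, hy.2]
  refine ⟨?_, ?_⟩
  · exact (pow_left_inj₀ (norm_nonneg _) (norm_nonneg _) (by norm_num)).1 h4
  · unfold kO
    rw [h3]
    field_simp [h.1.ne']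

theorem bot_norm (K : ℝ) (A : E →L[ℝ] E) (h : Dil K A) (z : E) (hz : Bot K A z) :
    ‖A z‖ = minStretch A ∧ kI A = K := by
  have hm := minStretch_pos A h.1
  have h1 := A0b_min_le A h.1 z hz.1
  have h2 := A0b_le_min K A h
  have hK : 0 < K := by
    rcases (A0b_K_nonneg K A h).lt_or_eq with hK | hK
    · exact hK
    · have h5 := h.1
      rw [hz.2, ← hK, zero_mul] at h5
      exact absurd h5 (lt_irrefl _)
  have h3 : ‖A z‖ ^ 3 ≤ minStretch A ^ 3 := by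
    rw [hz.2] at h2
    exact le_of_mul_le_mul_left h2 hK
  have h4 : ‖A z‖ ^ 3 = minStretch A ^ 3 := le_antisymm h3 h1
  refine ⟨?_, ?_⟩
  · exact (pow_left_inj₀ (norm_nonneg _) hm.le (by norm_num)).1 h4
  · unfold kI
    rw [hz.2, h4, mul_div_assoc, div_self (pow_pos hm 3).ne', mul_one]

end Pool.Agent.Lib.MP_6b3014_an.Sm
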