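import Pool.Agent.Lib.MP_6b3014_an.Sm.Defs

open MeasureTheory Set
open scoped RealInnerProductSpace ContDiff Topology

noncomputable section

namespace Pool.Agent.Lib.MP_6b3014_an.Sm

theorem A1_quad (a b : ℝ) (h : ∀ t : ℝ, 2 * t * a + t ^ 2 * b ≤ 0) : a = 0 := by
  by_contra hne
  have hc : 0 < |b| + 1 := by positivity
  have h1 := h (a / (|b| + 1))
  have h2 : 2 * (a / (|b| + 1)) * a + (a / (|b| + 1)) ^ 2 * b
      = a ^ 2 * (2 * (|b| + 1) + b) / (|b| + 1) ^ 2 := by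
    field_simp
  rw [h2] at h1
  have h3 : 0 < a ^ 2 := by positivity
  have h4 : 0 < 2 * (|b| + 1) + b := by
    have := neg_abs_le b
    have := abs_nonneg b
    linarith
  have h5 : 0 < a ^ 2 * (2 * (|b| + 1) + b) / (|b| + 1) ^ 2 := by positivity
  linarith

theorem A1_scale (A : E →L[ℝ] E) (v : E) (hv : v ≠ 0) :
    ‖(‖v‖⁻¹ • v)‖ = 1 ∧ ‖A v‖ = ‖A (‖v‖⁻¹ • v)‖ * ‖v‖ := by
  have hn : ‖v‖ ≠ 0 := norm_ne_zero_iff.mpr hv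
  constructor
  · rw [norm_smul, norm_inv, norm_norm, inv_mul_cancel₀ hn]
  · rw [map_smul, norm_smul, norm_inv, norm_norm]
    field_simp

theorem A1_exp_A (A : E →L[ℝ] E) (y w : E) (t : ℝ) :
    ‖A (y + t • w)‖ ^ 2 = ‖A y‖ ^ 2 + 2 * t * ⟪A y, A w⟫ + t ^ 2 * ‖A w‖ ^ 2 := by
  rw [map_add, map_smul, norm_add_sq_real, inner_smul_right, norm_smul, mul_pow,
    Real.norm_eq_abs, sq_abs]
  ring

theorem A1_exp_id (y w : E) (t : ℝ) (hy : ‖y‖ = 1) :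
    ‖y + t • w‖ ^ 2 = 1 + 2 * t * ⟪y, w⟫ + t ^ 2 * ‖w‖ ^ 2 := by
  rw [norm_add_sq_real, inner_smul_right, norm_smul, mul_pow, Real.norm_eq_abs, sq_abs, hy]
  ring

/-- A unit vector of maximal stretching is an eigenvector of the adjoint times `A`. -/
theorem eig_max (A : E →L[ℝ] E) (y : E) (hy : ‖y‖ = 1)
    (h : ∀ w : E, ‖w‖ = 1 → ‖A w‖ ≤ ‖A y‖) (w : E) :
    ⟪A y, A w⟫ = ‖A y‖ ^ 2 * ⟪y, w⟫ := by
  have hhom : ∀ v : E, ‖A v‖ ≤ ‖A y‖ * ‖v‖ := by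
    intro v
    by_cases hv : v = 0
    · simp [hv]
    · obtain ⟨h1, h2⟩ := A1_scale A v hv
      rw [h2]
      exact mul_le_mul_of_nonneg_right (h _ h1) (norm_nonneg _)
  have key := A1_quad (⟪A y, A w⟫ - ‖A y‖ ^ 2 * ⟪y, w⟫) (‖A w‖ ^ 2 - ‖A y‖ ^ 2 * ‖w‖ ^ 2) (by
    intro t
    have h1 := hhom (y + t • w)
    have h2 : ‖A (y + t • w)‖ ^ 2 ≤ (‖A y‖ * ‖y + t • w‖) ^ 2 :=
      pow_le_pow_left₀ (norm_nonneg _) h1 2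
    rw [mul_pow, A1_exp_A, A1_exp_id y w t hy] at h2
    nlinarith [h2])
  linarith

theorem eig_min (A : E →L[ℝ] E) (y : E) (hy : ‖y‖ = 1)
    (h : ∀ w : E, ‖w‖ = 1 → ‖A y‖ ≤ ‖A w‖) (w : E) :
    ⟪A y, A w⟫ = ‖A y‖ ^ 2 * ⟪y, w⟫ := by
  have hhom : ∀ v : E, ‖A y‖ * ‖v‖ ≤ ‖A v‖ := by
    intro v
    by_cases hv : v = 0
    · simp [hv]
    · obtain ⟨h1, h2⟩ := A1_scale A v hv
      rw [h2]
      exact mul_le_mul_of_nonneg_right (h _ h1) (norm_nonneg _)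
  have key := A1_quad (‖A y‖ ^ 2 * ⟪y, w⟫ - ⟪A y, A w⟫) (‖A y‖ ^ 2 * ‖w‖ ^ 2 - ‖A w‖ ^ 2) (by
    intro t
    have h1 := hhom (y + t • w)
    have h2 : (‖A y‖ * ‖y + t • w‖) ^ 2 ≤ ‖A (y + t • w)‖ ^ 2 :=
      pow_le_pow_left₀ (mul_nonneg (norm_nonneg _) (norm_nonneg _)) h1 2
    rw [mul_pow, A1_exp_A, A1_exp_id y w t hy] at h2
    nlinarith [h2])
  linarith

end Pool.Agent.Lib.MP_6b3014_an.Sm
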