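import Pool.Agent.Lib.MP_6b3014_an.Sm.Defs

open MeasureTheory Set
open scoped RealInnerProductSpace ContDiff Topology

noncomputable section

namespace Pool.Agent.Lib.MP_6b3014_an.Sm

/-- If `A` maps an orthonormal triple to an orthogonal triple, `det A ^ 2` is the product of the
squared lengths. -/
theorem gram (A : E →L[ℝ] E) (e : Fin 3 → E) (he : Orthonormal ℝ e)
    (h : ∀ i j, i ≠ j → ⟪A (e i), A (e j)⟫ = 0) :
    A.det ^ 2 = ‖A (e 0)‖ ^ 2 * ‖A (e 1)‖ ^ 2 * ‖A (e 2)‖ ^ 2 := by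
  have hcard : Module.finrank ℝ E = Fintype.card (Fin 3) := by
    rw [finrank_euclideanSpace]
  obtain ⟨b, hb⟩ := (he.comp (fun i : (Set.univ : Set (Fin 3)) => (i : Fin 3))
    Subtype.val_injective).exists_orthonormalBasis_extension_of_card_eq (v := e) (s := Set.univ) hcard
  have hbe : ∀ i, b i = e i := fun i => hb i (Set.mem_univ i)
  have hdet : (LinearMap.toMatrix b.toBasis b.toBasis (A : E →ₗ[ℝ] E)).det = A.det :=
    LinearMap.det_toMatrix b.toBasis (A : E →ₗ[ℝ] E)
  have hentry : ∀ i j, LinearMap.toMatrix b.toBasis b.toBasis (A : E →ₗ[ℝ] E) i j =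
      ⟪b i, A (b j)⟫ := by
    intro i j
    rw [LinearMap.toMatrix_apply, OrthonormalBasis.coe_toBasis_repr_apply,
      OrthonormalBasis.coe_toBasis, OrthonormalBasis.repr_apply_apply]
    rfl
  have hMM : (LinearMap.toMatrix b.toBasis b.toBasis (A : E →ₗ[ℝ] E)).transpose *
      LinearMap.toMatrix b.toBasis b.toBasis (A : E →ₗ[ℝ] E) =
      Matrix.diagonal fun i => ‖A (e i)‖ ^ 2 := by
    ext i j
    rw [Matrix.mul_apply, Matrix.diagonal_apply]
    have h1 : ∑ k, (LinearMap.toMatrix b.toBasis b.toBasis (A : E →ₗ[ℝ] E)).transpose i k *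
        LinearMap.toMatrix b.toBasis b.toBasis (A : E →ₗ[ℝ] E) k j = ⟪A (b i), A (b j)⟫ := by
      rw [← b.sum_inner_mul_inner]
      refine Finset.sum_congr rfl fun k _ => ?_
      rw [Matrix.transpose_apply, hentry, hentry, real_inner_comm]
    rw [h1, hbe, hbe]
    by_cases hij : i = j
    · rw [if_pos hij, hij, real_inner_self_eq_norm_sq]
    · rw [if_neg hij, h i j hij]
  have h2 := congrArg Matrix.det hMM
  rw [Matrix.det_mul, Matrix.det_transpose, Matrix.det_diagonal, Fin.prod_univ_three, hdet] at h2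
  rw [pow_two]
  exact h2

/-- Two unit vectors that are not parallel: complete to an orthonormal triple. -/
theorem exists_frame (y z : E) (hy : ‖y‖ = 1) (hz : ‖z‖ = 1) (h1 : z ≠ y) (h2 : z ≠ -y) :
    ∃ e : Fin 3 → E, Orthonormal ℝ e ∧ e 0 = y ∧ ∃ a b : ℝ, e 1 = a • y + b • z := by
  have hcard : Module.finrank ℝ E = Fintype.card (Fin 3) := by
    rw [finrank_euclideanSpace]
  have hyy : ⟪y, y⟫ = (1 : ℝ) := by rw [real_inner_self_eq_norm_sq, hy, one_pow]
  obtain ⟨w, hw⟩ : ∃ w : E, w = z - ⟪y, z⟫ • y := ⟨_, rfl⟩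
  have hyw : ⟪y, w⟫ = (0 : ℝ) := by
    rw [hw, inner_sub_right, inner_smul_right, hyy, mul_one, sub_self]
  have hw0 : w ≠ 0 := by
    intro h0
    have h3 : z = ⟪y, z⟫ • y := by
      rw [h0] at hw
      exact (sub_eq_zero.1 hw.symm)
    have h4 : |⟪y, z⟫| = 1 := by
      have h5 := congrArg norm h3
      rw [norm_smul, hy, hz, mul_one, Real.norm_eq_abs] at h5
      exact h5.symm
    rcases (abs_eq zero_le_one).1 h4 with h5 | h5
    · rw [h5, one_smul] at h3
      exact h1 h3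
    · rw [h5, neg_smul, one_smul] at h3
      exact h2 h3
  have hnw : ‖w‖ ≠ 0 := norm_ne_zero_iff.2 hw0
  obtain ⟨u, hu⟩ : ∃ u : E, u = ‖w‖⁻¹ • w := ⟨_, rfl⟩
  have hu1 : ‖u‖ = 1 := by
    rw [hu, norm_smul, norm_inv, norm_norm, inv_mul_cancel₀ hnw]
  have hyu : ⟪y, u⟫ = (0 : ℝ) := by rw [hu, inner_smul_right, hyw, mul_zero]
  have hon : Orthonormal ℝ (({0, 1} : Set (Fin 3)).domRestrict ![y, u, 0]) := by
    constructor
    · rintro ⟨i, hi⟩
      rcases hi with rfl | hi
      · exact hy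
      · rw [Set.mem_singleton_iff] at hi
        subst hi
        exact hu1
    · rintro ⟨i, hi⟩ ⟨j, hj⟩ hij
      rcases hi with rfl | hi <;> rcases hj with rfl | hj
      · exact absurd rfl hij
      · rw [Set.mem_singleton_iff] at hj
        subst hj
        exact hyu
      · rw [Set.mem_singleton_iff] at hi
        subst hi
        show ⟪u, y⟫ = (0 : ℝ)
        rw [real_inner_comm]
        exact hyu
      · rw [Set.mem_singleton_iff] at hi hj
        subst hi
        subst hj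
        exact absurd rfl hij
  obtain ⟨b, hb⟩ := hon.exists_orthonormalBasis_extension_of_card_eq hcard
  refine ⟨b, b.orthonormal, ?_, -(‖w‖⁻¹ * ⟪y, z⟫), ‖w‖⁻¹, ?_⟩
  · exact hb 0 (by simp)
  · have h3 : b 1 = u := hb 1 (by simp)
    rw [h3, hu, hw, smul_sub, smul_smul, neg_smul]
    abel

end Pool.Agent.Lib.MP_6b3014_an.Sm
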