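import Pool.Agent.Lib.MP_6b3014_an.Sm.A0b
import Pool.Agent.Lib.MP_6b3014_an.Sm.A1
import Pool.Agent.Lib.MP_6b3014_an.Sm.Gr

open MeasureTheory Set
open scoped RealInnerProductSpace ContDiff Topology

noncomputable section

namespace Pool.Agent.Lib.MP_6b3014_an.Sm

/-- If two unit vectors that are not parallel are both eigenvectors for the same `σ^2`, then
`det A ^ 2 = σ^4 τ^2`, where `τ` is the stretching of some unit vector. -/
theorem det_of_two (A : E →L[ℝ] E) (y z : E) (hy : ‖y‖ = 1) (hz : ‖z‖ = 1)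
    (h1 : z ≠ y) (h2 : z ≠ -y) (hyz : ‖A y‖ = ‖A z‖)
    (hy2 : ∀ w : E, ⟪A y, A w⟫ = ‖A y‖ ^ 2 * ⟪y, w⟫)
    (hz2 : ∀ w : E, ⟪A z, A w⟫ = ‖A z‖ ^ 2 * ⟪z, w⟫) :
    ∃ n : E, ‖n‖ = 1 ∧ A.det ^ 2 = ‖A y‖ ^ 4 * ‖A n‖ ^ 2 := by
  obtain ⟨e, he, he0, a, b, he1⟩ := exists_frame y z hy hz h1 h2
  have k0 : ∀ w : E, ⟪A (e 0), A w⟫ = ‖A y‖ ^ 2 * ⟪e 0, w⟫ := by
    intro w
    rw [he0]
    exact hy2 w
  have k1 : ∀ w : E, ⟪A (e 1), A w⟫ = ‖A y‖ ^ 2 * ⟪e 1, w⟫ := by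
    intro w
    rw [he1, map_add, map_smul, map_smul, inner_add_left, inner_add_left, real_inner_smul_left,
      real_inner_smul_left, real_inner_smul_left, real_inner_smul_left, hy2 w, hz2 w, ← hyz]
    ring
  have o : ∀ i j : Fin 3, i ≠ j → ⟪e i, e j⟫ = 0 := fun i j hij => he.2 hij
  have n1 : ∀ i : Fin 3, ‖e i‖ = 1 := he.1
  have h : ∀ i j : Fin 3, i ≠ j → ⟪A (e i), A (e j)⟫ = 0 := by
    have q0 : ∀ j : Fin 3, 0 ≠ j → ⟪A (e 0), A (e j)⟫ = 0 := by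
      intro j hj
      rw [k0, o 0 j hj, mul_zero]
    have q1 : ∀ j : Fin 3, 1 ≠ j → ⟪A (e 1), A (e j)⟫ = 0 := by
      intro j hj
      rw [k1, o 1 j hj, mul_zero]
    intro i j hij
    fin_cases i
    · exact q0 j hij
    · exact q1 j hij
    · fin_cases j
      · rw [real_inner_comm]
        exact q0 2 (by decide)
      · rw [real_inner_comm]
        exact q1 2 (by decide)
      · exact absurd rfl hij
  have g := gram A e he h
  have m1 : ‖A (e 1)‖ ^ 2 = ‖A y‖ ^ 2 := by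
    rw [← real_inner_self_eq_norm_sq, k1, real_inner_self_eq_norm_sq, n1 1]
    ring
  refine ⟨e 2, n1 2, ?_⟩
  rw [g, m1, he0]
  ring

end Pool.Agent.Lib.MP_6b3014_an.Sm
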