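import Pool.Agent.Lib.MP_6b3014_an.Sm.A2

open MeasureTheory Set
open scoped RealInnerProductSpace ContDiff Topology

noncomputable section

namespace Pool.Agent.Lib.MP_6b3014_an.Sm

theorem top_unique (K : ℝ) (hK : 1 < K) (A : E →L[ℝ] E) (h : Dil K A) (y z : E)
    (hy : Top K A y) (hz : Top K A z) : z = y ∨ z = -y := by
  by_contra hcon
  have h1 : z ≠ y := fun hh => hcon (Or.inl hh)
  have h2 : z ≠ -y := fun hh => hcon (Or.inr hh)
  have hyn : ‖A y‖ = ‖A‖ := (top_norm K A h y hy).1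
  have hzn : ‖A z‖ = ‖A‖ := (top_norm K A h z hz).1
  have hmax : ∀ w : E, ‖w‖ = 1 → ‖A w‖ ≤ ‖A‖ := by
    intro w hw
    have := A.le_opNorm w
    rwa [hw, mul_one] at this
  have hy2 := eig_max A y hy.1 (fun w hw => by rw [hyn]; exact hmax w hw)
  have hz2 := eig_max A z hz.1 (fun w hw => by rw [hzn]; exact hmax w hw)
  obtain ⟨n, hn, hdet⟩ := det_of_two A y z hy.1 hz.1 h1 h2 (hyn.trans hzn.symm) hy2 hz2
  have hd : 0 < A.det := h.1
  have hdil := (((dil_iff K A).1 h).2 n hn).2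
  have hs3 : ‖A y‖ ^ 3 = K * A.det := hy.2
  set s : ℝ := ‖A y‖ with hs
  set t : ℝ := ‖A n‖ with ht
  have hs0 : 0 ≤ s := norm_nonneg _
  have ht0 : 0 ≤ t := norm_nonneg _
  have hdst : A.det = s ^ 2 * t := by
    have e1 : A.det ^ 2 = (s ^ 2 * t) ^ 2 := by rw [hdet]; ring
    exact (pow_left_inj₀ hd.le (by positivity) (by norm_num)).1 e1
  have hst : 0 < s ^ 2 * t := by rw [← hdst]; exact hd
  have htpos : 0 < t := by
    rcases ht0.eq_or_lt with h0 | h0
    · rw [← h0, mul_zero] at hst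
      exact absurd hst (lt_irrefl 0)
    · exact h0
  have hspos : 0 < s := by
    rcases hs0.eq_or_lt with h0 | h0
    · rw [← h0] at hst
      norm_num at hst
    · exact h0
  have hsK : s = K * t := by
    have e2 : s ^ 2 * s = s ^ 2 * (K * t) := by
      calc s ^ 2 * s = s ^ 3 := by ring
        _ = K * A.det := hs3
        _ = K * (s ^ 2 * t) := by rw [hdst]
        _ = s ^ 2 * (K * t) := by ring
    exact mul_left_cancel₀ (by positivity) e2
  have hfin : K * (K * t ^ 3) ≤ 1 * (K * t ^ 3) := by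
    calc K * (K * t ^ 3) = (K * t) ^ 2 * t := by ring
      _ = s ^ 2 * t := by rw [← hsK]
      _ = A.det := hdst.symm
      _ ≤ K * t ^ 3 := hdil
      _ = 1 * (K * t ^ 3) := by ring
  have hKpos : 0 < K := by linarith
  have hle : K ≤ 1 := le_of_mul_le_mul_right hfin (by positivity)
  linarith

end Pool.Agent.Lib.MP_6b3014_an.Sm
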