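import Pool.Agent.Lib.MP_6b3014_an.Sm.A2

open MeasureTheory Set
open scoped RealInnerProductSpace ContDiff Topology

noncomputable section

namespace Pool.Agent.Lib.MP_6b3014_an.Sm

/-- A vector realising the bottom equality has minimal stretching among unit vectors. -/
theorem A3b_min (K : ℝ) (hK : 1 < K) (A : E →L[ℝ] E) (h : Dil K A) (y : E)
    (hy : Bot K A y) (w : E) (hw : ‖w‖ = 1) : ‖A y‖ ≤ ‖A w‖ := by
  obtain ⟨-, h2⟩ := (dil_iff K A).1 h
  have h3 := (h2 w hw).2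
  have h4 := hy.2
  rw [h4] at h3
  have h5 : ‖A y‖ ^ 3 ≤ ‖A w‖ ^ 3 := le_of_mul_le_mul_left h3 (by linarith)
  exact (pow_le_pow_iff_left₀ (norm_nonneg _) (norm_nonneg _) (by norm_num)).1 h5

theorem bot_unique (K : ℝ) (hK : 1 < K) (A : E →L[ℝ] E) (h : Dil K A) (y z : E)
    (hy : Bot K A y) (hz : Bot K A z) : z = y ∨ z = -y := by
  by_contra hne
  rw [not_or] at hne
  obtain ⟨hn1, hn2⟩ := hne
  have hmy := A3b_min K hK A h y hy
  have hmz := A3b_min K hK A h z hz
  have heq : ‖A y‖ = ‖A z‖ := le_antisymm (hmy z hz.1) (hmz y hy.1)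
  obtain ⟨n, hn, hdet⟩ := det_of_two A y z hy.1 hz.1 hn1 hn2 heq
    (fun w => eig_min A y hy.1 hmy w) (fun w => eig_min A z hz.1 hmz w)
  obtain ⟨hpos, h2⟩ := (dil_iff K A).1 h
  have h3 := (h2 n hn).1
  have h4 := hy.2
  have hl0 : 0 ≤ ‖A y‖ := norm_nonneg _
  have ht0 : 0 ≤ ‖A n‖ := norm_nonneg _
  generalize ‖A y‖ = l at *
  generalize ‖A n‖ = t at *
  generalize A.det = d at *
  have hlpos : 0 < l := by
    rcases hl0.eq_or_lt with h0 | h0
    · exfalso
      rw [← h0] at h4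
      norm_num at h4
      linarith
    · exact h0
  have hK0 : 0 < K := by linarith
  have h5 : t ^ 2 = (K * l) ^ 2 := by
    have h6 : l ^ 4 * t ^ 2 = l ^ 4 * (K * l) ^ 2 := by
      rw [← hdet, h4]
      ring
    exact mul_left_cancel₀ (by positivity) h6
  have h6 : t = K * l := by
    have := (pow_left_inj₀ ht0 (by positivity) (two_ne_zero)).1 h5
    exact this
  rw [h6, h4] at h3
  have h7 : 0 < K ^ 2 * l ^ 3 * (K - 1) := by
    have : 0 < K - 1 := by linarith
    positivity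
  nlinarith [h7, h3]

end Pool.Agent.Lib.MP_6b3014_an.Sm
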