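import Pool.Agent.Lib.MP_6b3014_an.Sm.A0b
import Pool.Agent.Lib.MP_6b3014_an.Sm.A1

open MeasureTheory Set
open scoped RealInnerProductSpace ContDiff Topology

noncomputable section

namespace Pool.Agent.Lib.MP_6b3014_an.Sm

theorem top_bot_orth (K : ℝ) (hK : 1 < K) (A : E →L[ℝ] E) (h : Dil K A) (y z : E)
    (hy : Top K A y) (hz : Bot K A z) : ⟪y, z⟫ = 0 := by
  obtain ⟨hd, hw⟩ := (dil_iff K A).1 h
  obtain ⟨hy1, hy2⟩ := hy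
  obtain ⟨hz1, hz2⟩ := hz
  have hK0 : 0 < K := by linarith
  have e1 : ⟪A y, A z⟫ = ‖A y‖ ^ 2 * ⟪y, z⟫ := by
    refine eig_max A y hy1 (fun w hw1 => ?_) z
    have h1 : ‖A w‖ ^ 3 ≤ ‖A y‖ ^ 3 := by
      rw [hy2]
      exact (hw w hw1).1
    exact le_of_pow_le_pow_left₀ (by norm_num) (norm_nonneg _) h1
  have e2 : ⟪A z, A y⟫ = ‖A z‖ ^ 2 * ⟪z, y⟫ := by
    refine eig_min A z hz1 (fun w hw1 => ?_) y
    have h1 : ‖A z‖ ^ 3 ≤ ‖A w‖ ^ 3 := by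
      have h2 := (hw w hw1).2
      rw [hz2] at h2
      exact le_of_mul_le_mul_left h2 hK0
    exact le_of_pow_le_pow_left₀ (by norm_num) (norm_nonneg _) h1
  rw [real_inner_comm (A y) (A z), real_inner_comm y z] at e2
  have hzp : 0 < ‖A z‖ ^ 3 := by
    have h1 : 0 < K * ‖A z‖ ^ 3 := by
      rw [← hz2]
      exact hd
    exact (mul_pos_iff_of_pos_left hK0).1 h1
  have hlt3 : ‖A z‖ ^ 3 < ‖A y‖ ^ 3 := by
    rw [hy2, hz2]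
    have h1 : ‖A z‖ ^ 3 < K * ‖A z‖ ^ 3 := by nlinarith
    nlinarith
  have hlt : ‖A z‖ < ‖A y‖ := lt_of_pow_lt_pow_left₀ 3 (norm_nonneg _) hlt3
  have hlt2 : ‖A z‖ ^ 2 < ‖A y‖ ^ 2 := pow_lt_pow_left₀ hlt (norm_nonneg _) (by norm_num)
  have h0 : (‖A y‖ ^ 2 - ‖A z‖ ^ 2) * ⟪y, z⟫ = 0 := by
    rw [sub_mul, ← e1, ← e2, sub_self]
  rcases mul_eq_zero.1 h0 with h1 | h1
  · linarith
  · exact h1

end Pool.Agent.Lib.MP_6b3014_an.Sm
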