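import Pool.Agent.Lib.MP_6b3014_an.Sm.A3
import Pool.Agent.Lib.MP_6b3014_an.Sm.A3b
import Pool.Agent.Lib.MP_6b3014_an.Sm.A4

open MeasureTheory Set
open scoped RealInnerProductSpace ContDiff Topology

noncomputable section

namespace Pool.Agent.Lib.MP_6b3014_an.Sm

/-- The vectors `b` that are good at a point with linear map `A` and covector `a`. -/
def Good (K : ℝ) (A : E →L[ℝ] E) (a : E →L[ℝ] ℝ) : Set E :=
  {b | (∀ y, Top K A y → 0 < 3 * a y * ⟪b, y⟫ - a b) ∧
    (∀ z, Bot K A z → 3 * a z * ⟪b, z⟫ - a b < 0)}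

theorem B1_even (a : E →L[ℝ] ℝ) (b y y' : E) (h : y' = y ∨ y' = -y) :
    3 * a y' * ⟪b, y'⟫ - a b = 3 * a y * ⟪b, y⟫ - a b := by
  rcases h with h | h
  · rw [h]
  · rw [h, map_neg, inner_neg_right]
    ring

theorem good_nonempty (K : ℝ) (hK : 1 < K) (A : E →L[ℝ] E) (h : Dil K A)
    (a : E →L[ℝ] ℝ) (ha : a ≠ 0)
    (hmid : ∀ y z, Top K A y → Bot K A z → a y ≠ 0 ∨ a z ≠ 0) : (Good K A a).Nonempty := by
  obtain ⟨p, hp⟩ : ∃ p : E, ∀ w, a w = ⟪p, w⟫ :=
    ⟨(InnerProductSpace.toDual ℝ E).symm a, fun w => (InnerProductSpace.toDual_symm_apply).symm⟩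
  have hp0 : 0 < ⟪p, p⟫ := by
    rw [real_inner_self_pos]
    rintro rfl
    apply ha
    ext w
    simp [hp]
  by_cases hT : ∃ y, Top K A y
  · obtain ⟨y, hy⟩ := hT
    have hyy : ⟪y, y⟫ = 1 := by rw [real_inner_self_eq_norm_sq, hy.1, one_pow]
    by_cases hB : ∃ z, Bot K A z
    · obtain ⟨z, hz⟩ := hB
      have hzz : ⟪z, z⟫ = 1 := by rw [real_inner_self_eq_norm_sq, hz.1, one_pow]
      have hyz : ⟪y, z⟫ = 0 := top_bot_orth K hK A h y z hy hz
      have hzy : ⟪z, y⟫ = 0 := by rw [real_inner_comm]; exact hyz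
      have hm := hmid y z hy hz
      rw [hp, hp] at hm
      have hpos : 0 < ⟪p, y⟫ ^ 2 + ⟪p, z⟫ ^ 2 := by
        rcases hm with h1 | h1
        · have := pow_pos (abs_pos.2 h1) 2
          rw [sq_abs] at this
          nlinarith [sq_nonneg ⟪p, z⟫]
        · have := pow_pos (abs_pos.2 h1) 2
          rw [sq_abs] at this
          nlinarith [sq_nonneg ⟪p, y⟫]
      refine ⟨⟪p, y⟫ • y - ⟪p, z⟫ • z, fun y' hy' => ?_, fun z' hz' => ?_⟩
      · rw [B1_even a _ y y' (top_unique K hK A h y y' hy hy'), hp, hp]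
        simp only [inner_sub_left, inner_sub_right, real_inner_smul_left, real_inner_smul_right, hyy, hzy]
        nlinarith [sq_nonneg ⟪p, y⟫]
      · rw [B1_even a _ z z' (bot_unique K hK A h z z' hz hz'), hp, hp]
        simp only [inner_sub_left, inner_sub_right, real_inner_smul_left, real_inner_smul_right, hzz, hyz]
        nlinarith [sq_nonneg ⟪p, z⟫]
    · refine ⟨(3 * ⟪p, y⟫) • y - p, fun y' hy' => ?_, fun z' hz' => absurd ⟨z', hz'⟩ hB⟩
      rw [B1_even a _ y y' (top_unique K hK A h y y' hy hy'), hp, hp]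
      simp only [inner_sub_left, inner_sub_right, real_inner_smul_left, real_inner_smul_right, hyy]
      nlinarith [sq_nonneg ⟪p, y⟫]
  · by_cases hB : ∃ z, Bot K A z
    · obtain ⟨z, hz⟩ := hB
      have hzz : ⟪z, z⟫ = 1 := by rw [real_inner_self_eq_norm_sq, hz.1, one_pow]
      refine ⟨p - (3 * ⟪p, z⟫) • z, fun y' hy' => absurd ⟨y', hy'⟩ hT, fun z' hz' => ?_⟩
      rw [B1_even a _ z z' (bot_unique K hK A h z z' hz hz'), hp, hp]
      simp only [inner_sub_left, inner_sub_right, real_inner_smul_left, real_inner_smul_right, hzz]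
      nlinarith [sq_nonneg ⟪p, z⟫]
    · exact ⟨0, fun y' hy' => absurd ⟨y', hy'⟩ hT, fun z' hz' => absurd ⟨z', hz'⟩ hB⟩

end Pool.Agent.Lib.MP_6b3014_an.Sm
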