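import Pool.Agent.Lib.MP_6b3014_an.Sm.Defs

open MeasureTheory Set
open scoped RealInnerProductSpace ContDiff Topology

noncomputable section

namespace Pool.Agent.Lib.MP_6b3014_an.Sm

/-- The function `3 ⟪M y, y⟫ - trace M`. -/
def quad (M : E →L[ℝ] E) (y : E) : ℝ := 3 * ⟪M y, y⟫ - tr M

theorem C1_sum (a : E →L[ℝ] ℝ) (b : E) :
    ∑ i : Fin 3, a (EuclideanSpace.single i (1 : ℝ)) * b i = a b := by
  have h : b = ∑ i : Fin 3, b i • EuclideanSpace.single i (1 : ℝ) := by
    ext j
    simp [Finset.sum_apply, Fin.sum_univ_three]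
    fin_cases j <;> simp
  conv_rhs => rw [h]
  rw [map_sum]
  refine Finset.sum_congr rfl fun i _ => ?_
  rw [map_smul, smul_eq_mul, mul_comm]

theorem C1_fderiv (u : E → ℝ) (b : E → E) (hu : ContDiff ℝ ∞ u) (hb : ContDiff ℝ ∞ b)
    (l : ℝ) (x w : E) :
    fderiv ℝ (fun p => Real.exp (l * u p) • b p) x w =
      Real.exp (l * u x) • fderiv ℝ b x w +
        (Real.exp (l * u x) * (l * fderiv ℝ u x w)) • b x := by
  have hu1 : HasFDerivAt u (fderiv ℝ u x) x :=
    ((hu.differentiable (by simp)) x).hasFDerivAt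
  have hb1 : HasFDerivAt b (fderiv ℝ b x) x :=
    ((hb.differentiable (by simp)) x).hasFDerivAt
  have h1 : HasFDerivAt (fun p => Real.exp (l * u p))
      (Real.exp (l * u x) • (l • fderiv ℝ u x)) x := (hu1.const_mul l).exp
  have h2 := (h1.smul hb1).fderiv
  have h3 : fderiv ℝ (fun p => Real.exp (l * u p) • b p) x =
      Real.exp (l * u x) • fderiv ℝ b x +
        (Real.exp (l * u x) • (l • fderiv ℝ u x)).smulRight (b x) := h2
  rw [h3]
  simp

theorem quad_exp (u : E → ℝ) (b : E → E) (hu : ContDiff ℝ ∞ u) (hb : ContDiff ℝ ∞ b)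
    (l : ℝ) (x y : E) :
    quad (fderiv ℝ (fun p => Real.exp (l * u p) • b p) x) y =
      Real.exp (l * u x) * (l * (3 * fderiv ℝ u x y * ⟪b x, y⟫ - fderiv ℝ u x (b x)) +
        quad (fderiv ℝ b x) y) := by
  unfold quad
  have ht : tr (fderiv ℝ (fun p => Real.exp (l * u p) • b p) x) =
      Real.exp (l * u x) * tr (fderiv ℝ b x) +
        Real.exp (l * u x) * (l * fderiv ℝ u x (b x)) := by
    unfold tr
    have e : ∀ i : Fin 3,
        (fderiv ℝ (fun p => Real.exp (l * u p) • b p) x (EuclideanSpace.single i 1)) i =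
        Real.exp (l * u x) * (fderiv ℝ b x (EuclideanSpace.single i 1)) i +
        (Real.exp (l * u x) * l) *
          (fderiv ℝ u x (EuclideanSpace.single i (1 : ℝ)) * b x i) := by
      intro i
      rw [C1_fderiv u b hu hb l x]
      simp only [PiLp.add_apply, PiLp.smul_apply, smul_eq_mul]
      ring
    rw [Finset.sum_congr rfl fun i _ => e i, Finset.sum_add_distrib, ← Finset.mul_sum,
      ← Finset.mul_sum, C1_sum]
    ring
  rw [ht, C1_fderiv u b hu hb l x, inner_add_left, real_inner_smul_left,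
    real_inner_smul_left]
  ring

end Pool.Agent.Lib.MP_6b3014_an.Sm
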