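import Pool.Agent.Lib.MP_6b3014_an.Sm.Defs

open MeasureTheory Set
open scoped RealInnerProductSpace ContDiff Topology

noncomputable section

namespace Pool.Agent.Lib.MP_6b3014_an.Sm

/-- Cutting off a smooth field without changing it near a compact set. -/
theorem exists_cutoff (S U : Set E) (hS : IsCompact S) (hU : IsOpen U) (hSU : S ⊆ U)
    (w : E → E) (hw : ContDiff ℝ ∞ w) :
    ∃ v : E → E, ContDiff ℝ ∞ v ∧ HasCompactSupport v ∧ tsupport v ⊆ U ∧
      ∀ x ∈ S, fderiv ℝ v x = fderiv ℝ w x := by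
  obtain ⟨L, hL, hSL, hLU⟩ := exists_compact_between hS hU hSU
  obtain ⟨f, h1, h0, -⟩ := exists_contMDiffMap_one_nhds_of_subset_interior (n := (⊤ : ℕ∞))
    (modelWithCornersSelf ℝ E) hS.isClosed hSL
  have hf : ContDiff ℝ ∞ (fun x => f x) := f.contMDiff.contDiff
  have hsup : Function.support (fun x => f x • w x) ⊆ L := by
    intro x hx
    by_contra hxL
    exact hx (by simp [h0 x hxL])
  have hts : tsupport (fun x => f x • w x) ⊆ L := closure_minimal hsup hL.isClosed
  refine ⟨fun x => f x • w x, hf.smul hw, hL.of_isClosed_subset (isClosed_tsupport _) hts,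
    hts.trans hLU, ?_⟩
  intro x hx
  have h2 : ∀ᶠ y in nhds x, f y = 1 := h1.filter_mono (nhds_le_nhdsSet hx)
  apply Filter.EventuallyEq.fderiv_eq
  filter_upwards [h2] with y hy
  rw [hy, one_smul]

end Pool.Agent.Lib.MP_6b3014_an.Sm
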