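import Pool.Agent.Lib.MP_6b3014_an.Sm.Defs

open MeasureTheory Set
open scoped RealInnerProductSpace ContDiff Topology

noncomputable section

namespace Pool.Agent.Lib.MP_6b3014_an.Sm

theorem cube_bound (M0 : ℝ) (hM0 : 0 ≤ M0) : ∃ C : ℝ, 0 < C ∧ ∀ M : E →L[ℝ] E, ‖M‖ ≤ M0 →
    ∀ ε : ℝ, 0 ≤ ε → ε ≤ 1 → ∀ y : E, ‖y‖ = 1 →
      |‖pert ε M y‖ ^ 3 - (1 + ε * (3 * ⟪M y, y⟫))| ≤ C * ε ^ 2 := by
  refine ⟨M0 ^ 3 + 3 * M0 ^ 2 + 1, by positivity, ?_⟩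
  intro M hM ε h0 h1 y hy
  have hMy : ‖M y‖ ≤ M0 := by
    calc ‖M y‖ ≤ ‖M‖ * ‖y‖ := M.le_opNorm y
      _ = ‖M‖ := by rw [hy, mul_one]
      _ ≤ M0 := hM
  have hMy0 : 0 ≤ ‖M y‖ := norm_nonneg _
  have ht2 : ‖pert ε M y‖ ^ 2 = 1 + 2 * (ε * ⟪M y, y⟫) + ε ^ 2 * ‖M y‖ ^ 2 := by
    rw [pert_apply, norm_add_sq_real, hy, inner_smul_right, norm_smul, Real.norm_of_nonneg h0,
      real_inner_comm]
    ring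
  have hs : |‖pert ε M y‖ - 1| ≤ ε * M0 := by
    have h2 := abs_norm_sub_norm_le (y + ε • M y) y
    rw [add_sub_cancel_left, norm_smul, Real.norm_of_nonneg h0, hy] at h2
    rw [pert_apply]
    exact h2.trans (mul_le_mul_of_nonneg_left hMy h0)
  generalize ‖pert ε M y‖ = t at ht2 hs ⊢
  generalize (⟪M y, y⟫ : ℝ) = m at ht2 ⊢
  generalize ‖M y‖ = r at ht2 hMy hMy0
  have hid : t ^ 3 - (1 + ε * (3 * m)) =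
      3 / 2 * (ε ^ 2 * r ^ 2) + 3 / 2 * (t - 1) ^ 2 + (t - 1) ^ 3 := by
    linear_combination (3 / 2) * ht2
  have hr : r ^ 2 ≤ M0 ^ 2 := pow_le_pow_left₀ hMy0 hMy 2
  have hs2 : (t - 1) ^ 2 ≤ (ε * M0) ^ 2 := by
    rw [← sq_abs (t - 1)]
    exact pow_le_pow_left₀ (abs_nonneg _) hs 2
  have hs3 : |(t - 1) ^ 3| ≤ (ε * M0) ^ 3 := by
    rw [abs_pow]
    exact pow_le_pow_left₀ (abs_nonneg _) hs 3
  have he2 : 0 ≤ ε ^ 2 := sq_nonneg ε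
  have he3 : (ε * M0) ^ 3 ≤ M0 ^ 3 * ε ^ 2 := by
    have h4 : ε ^ 2 * M0 ^ 3 * ε ≤ ε ^ 2 * M0 ^ 3 * 1 :=
      mul_le_mul_of_nonneg_left h1 (mul_nonneg he2 (pow_nonneg hM0 3))
    calc (ε * M0) ^ 3 = ε ^ 2 * M0 ^ 3 * ε := by ring
      _ ≤ ε ^ 2 * M0 ^ 3 * 1 := h4
      _ = M0 ^ 3 * ε ^ 2 := by ring
  have hr2 : ε ^ 2 * r ^ 2 ≤ ε ^ 2 * M0 ^ 2 := mul_le_mul_of_nonneg_left hr he2
  have hr0 : 0 ≤ ε ^ 2 * r ^ 2 := mul_nonneg he2 (sq_nonneg r)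
  rw [hid]
  rw [abs_le] at hs3 ⊢
  constructor
  · nlinarith [sq_nonneg (t - 1), hs3.1, he3, hr0, mul_nonneg he2 (sq_nonneg M0)]
  · nlinarith [sq_nonneg (t - 1), hs3.2, he3, hr2, hs2]

end Pool.Agent.Lib.MP_6b3014_an.Sm
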