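import Pool.Agent.Lib.MP_6b3014_an.Sm.Defs

open MeasureTheory Set
open scoped RealInnerProductSpace ContDiff Topology

noncomputable section

namespace Pool.Agent.Lib.MP_6b3014_an.Sm

theorem D2_entry (M : E →L[ℝ] E) (i j : Fin 3) :
    |(M (EuclideanSpace.single j 1)) i| ≤ ‖M‖ := by
  have h1 : ‖(M (EuclideanSpace.single j (1 : ℝ))) i‖ ≤ ‖M (EuclideanSpace.single j (1 : ℝ))‖ :=
    PiLp.norm_apply_le _ _
  have h2 := M.le_opNorm (EuclideanSpace.single j (1 : ℝ))
  rw [PiLp.norm_single, norm_one, mul_one] at h2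
  rw [← Real.norm_eq_abs]
  exact h1.trans h2

theorem D2_det (A : E →L[ℝ] E) : A.det =
    (A (EuclideanSpace.single 0 1)) 0 * (A (EuclideanSpace.single 1 1)) 1 *
        (A (EuclideanSpace.single 2 1)) 2 -
      (A (EuclideanSpace.single 0 1)) 0 * (A (EuclideanSpace.single 2 1)) 1 *
        (A (EuclideanSpace.single 1 1)) 2 -
      (A (EuclideanSpace.single 1 1)) 0 * (A (EuclideanSpace.single 0 1)) 1 *
        (A (EuclideanSpace.single 2 1)) 2 +
      (A (EuclideanSpace.single 1 1)) 0 * (A (EuclideanSpace.single 2 1)) 1 *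
        (A (EuclideanSpace.single 0 1)) 2 +
      (A (EuclideanSpace.single 2 1)) 0 * (A (EuclideanSpace.single 0 1)) 1 *
        (A (EuclideanSpace.single 1 1)) 2 -
      (A (EuclideanSpace.single 2 1)) 0 * (A (EuclideanSpace.single 1 1)) 1 *
        (A (EuclideanSpace.single 0 1)) 2 := by
  have h : A.det = (LinearMap.toMatrix (EuclideanSpace.basisFun (Fin 3) ℝ).toBasis
      (EuclideanSpace.basisFun (Fin 3) ℝ).toBasis (A : E →ₗ[ℝ] E)).det :=
    (LinearMap.det_toMatrix _ _).symm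
  rw [h, Matrix.det_fin_three]
  simp [LinearMap.toMatrix_apply]

theorem D2_two {a b M0 : ℝ} (ha : |a| ≤ M0) (hb : |b| ≤ M0) (hM0 : 0 ≤ M0) :
    |a * b| ≤ M0 ^ 2 := by
  rw [abs_mul, pow_two]
  exact mul_le_mul ha hb (abs_nonneg _) hM0

theorem D2_three {a b c M0 : ℝ} (ha : |a| ≤ M0) (hb : |b| ≤ M0) (hc : |c| ≤ M0) (hM0 : 0 ≤ M0) :
    |a * b * c| ≤ M0 ^ 3 := by
  rw [abs_mul, pow_succ]
  exact mul_le_mul (D2_two ha hb hM0) hc (abs_nonneg _) (by positivity)

theorem det_bound (M0 : ℝ) (hM0 : 0 ≤ M0) : ∃ C : ℝ, 0 < C ∧ ∀ M : E →L[ℝ] E, ‖M‖ ≤ M0 →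
    ∀ ε : ℝ, 0 ≤ ε → ε ≤ 1 → |(pert ε M).det - (1 + ε * tr M)| ≤ C * ε ^ 2 := by
  refine ⟨6 * M0 ^ 2 + 6 * M0 ^ 3 + 1, by positivity, ?_⟩
  intro M hM ε h0 h1
  have he : ∀ i j : Fin 3, |(M (EuclideanSpace.single j 1)) i| ≤ M0 := fun i j =>
    (D2_entry M i j).trans hM
  have hdet := D2_det (pert ε M)
  simp only [pert_apply] at hdet
  have hE : ∀ (x y : E) (i : Fin 3), (x + ε • y) i = x i + ε * y i := fun x y i => by simp
  simp only [hE] at hdet
  have htr : tr M = (M (EuclideanSpace.single 0 1)) 0 + (M (EuclideanSpace.single 1 1)) 1 +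
      (M (EuclideanSpace.single 2 1)) 2 := by
    unfold tr
    rw [Fin.sum_univ_three]
  have hs : ∀ i j : Fin 3, (EuclideanSpace.single j (1 : ℝ) : E) i = if i = j then 1 else 0 :=
    fun i j => by simp
  simp only [hs, if_true, show ¬ ((1 : Fin 3) = 2) by decide, show ¬ ((2 : Fin 3) = 1) by decide,
    show ¬ ((0 : Fin 3) = 1) by decide, show ¬ ((1 : Fin 3) = 0) by decide,
    show ¬ ((2 : Fin 3) = 0) by decide, show ¬ ((0 : Fin 3) = 2) by decide, if_false] at hdet
  have e00 := he 0 0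
  have e01 := he 0 1
  have e02 := he 0 2
  have e10 := he 1 0
  have e11 := he 1 1
  have e12 := he 1 2
  have e20 := he 2 0
  have e21 := he 2 1
  have e22 := he 2 2
  set a := (M (EuclideanSpace.single 0 1)) 0
  set b := (M (EuclideanSpace.single 1 1)) 0
  set c := (M (EuclideanSpace.single 2 1)) 0
  set d := (M (EuclideanSpace.single 0 1)) 1
  set e := (M (EuclideanSpace.single 1 1)) 1
  set f := (M (EuclideanSpace.single 2 1)) 1
  set g := (M (EuclideanSpace.single 0 1)) 2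
  set h := (M (EuclideanSpace.single 1 1)) 2
  set k := (M (EuclideanSpace.single 2 1)) 2
  have hs2 : |a * e + a * k + e * k - b * d - c * g - f * h| ≤ 6 * M0 ^ 2 := by
    have q1 := abs_le.1 (D2_two e00 e11 hM0)
    have q2 := abs_le.1 (D2_two e00 e22 hM0)
    have q3 := abs_le.1 (D2_two e11 e22 hM0)
    have q4 := abs_le.1 (D2_two e01 e10 hM0)
    have q5 := abs_le.1 (D2_two e02 e20 hM0)
    have q6 := abs_le.1 (D2_two e12 e21 hM0)
    rw [abs_le]
    constructor <;> linarith [q1.1, q1.2, q2.1, q2.2, q3.1, q3.2, q4.1, q4.2, q5.1, q5.2, q6.1,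
      q6.2]
  have hs3 : |a * e * k - a * f * h - b * d * k + b * f * g + c * d * h - c * e * g| ≤
      6 * M0 ^ 3 := by
    have q1 := abs_le.1 (D2_three e00 e11 e22 hM0)
    have q2 := abs_le.1 (D2_three e00 e12 e21 hM0)
    have q3 := abs_le.1 (D2_three e01 e10 e22 hM0)
    have q4 := abs_le.1 (D2_three e01 e12 e20 hM0)
    have q5 := abs_le.1 (D2_three e02 e10 e21 hM0)
    have q6 := abs_le.1 (D2_three e02 e11 e20 hM0)
    rw [abs_le]
    constructor <;> linarith [q1.1, q1.2, q2.1, q2.2, q3.1, q3.2, q4.1, q4.2, q5.1, q5.2, q6.1,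
      q6.2]
  have key : (pert ε M).det - (1 + ε * tr M) =
      ε ^ 2 * (a * e + a * k + e * k - b * d - c * g - f * h) +
      ε ^ 3 * (a * e * k - a * f * h - b * d * k + b * f * g + c * d * h - c * e * g) := by
    rw [hdet, htr]
    ring
  rw [key]
  have h2 : |ε ^ 2 * (a * e + a * k + e * k - b * d - c * g - f * h)| ≤ ε ^ 2 * (6 * M0 ^ 2) := by
    rw [abs_mul, abs_of_nonneg (by positivity : (0 : ℝ) ≤ ε ^ 2)]
    exact mul_le_mul_of_nonneg_left hs2 (by positivity)
  have h3 : |ε ^ 3 * (a * e * k - a * f * h - b * d * k + b * f * g + c * d * h - c * e * g)| ≤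
      ε ^ 2 * (6 * M0 ^ 3) := by
    rw [abs_mul, abs_of_nonneg (by positivity : (0 : ℝ) ≤ ε ^ 3)]
    have h4 : ε ^ 3 ≤ ε ^ 2 := by
      have : ε ^ 3 = ε ^ 2 * ε := by ring
      rw [this]
      exact mul_le_of_le_one_right (by positivity) h1
    exact mul_le_mul h4 hs3 (abs_nonneg _) (by positivity)
  have h5 := abs_add_le (ε ^ 2 * (a * e + a * k + e * k - b * d - c * g - f * h))
    (ε ^ 3 * (a * e * k - a * f * h - b * d * k + b * f * g + c * d * h - c * e * g))
  have h6 : 0 ≤ ε ^ 2 := by positivity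
  linarith

theorem tr_bound (M : E →L[ℝ] E) : |tr M| ≤ 3 * ‖M‖ := by
  unfold tr
  rw [Fin.sum_univ_three]
  have h0 := D2_entry M 0 0
  have h1 := D2_entry M 1 1
  have h2 := D2_entry M 2 2
  have h3 := abs_add_le ((M (EuclideanSpace.single 0 1)) 0 + (M (EuclideanSpace.single 1 1)) 1)
    ((M (EuclideanSpace.single 2 1)) 2)
  have h4 := abs_add_le ((M (EuclideanSpace.single 0 1)) 0) ((M (EuclideanSpace.single 1 1)) 1)
  linarith

theorem continuous_tr : Continuous tr := by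
  unfold tr
  refine continuous_finsetSum _ fun i _ => ?_
  have h1 : Continuous fun M : E →L[ℝ] E => M (EuclideanSpace.single i (1 : ℝ)) :=
    (ContinuousLinearMap.apply ℝ E (EuclideanSpace.single i (1 : ℝ))).continuous
  exact ((EuclideanSpace.proj i : E →L[ℝ] ℝ)).continuous.comp h1

end Pool.Agent.Lib.MP_6b3014_an.Sm
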