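import Pool.Agent.Lib.MP_6b3014_an.Sm.Defs

open MeasureTheory Set
open scoped RealInnerProductSpace ContDiff Topology

noncomputable section

namespace Pool.Agent.Lib.MP_6b3014_an.Sm

theorem D3_local {X : Type*} [TopologicalSpace X] (P : Set X)
    (α β : X → ℝ) (hα : ContinuousOn α P) (hβ : ContinuousOn β P)
    (h0 : ∀ p ∈ P, 0 ≤ α p) (h1 : ∀ p ∈ P, α p = 0 → 0 < β p) (p : X) (hp : p ∈ P) :
    ∃ t ∈ 𝓝[P] p, ∃ m : ℝ, 0 < m ∧ ∃ ε₀ : ℝ, 0 < ε₀ ∧ ∀ ε : ℝ, 0 < ε → ε ≤ ε₀ → ∀ q ∈ t,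
      m * ε ≤ α q + ε * β q := by
  have hself : P ∈ 𝓝[P] p := self_mem_nhdsWithin
  rcases eq_or_lt_of_le (h0 p hp) with h | h
  · have hb : 0 < β p := h1 p hp h.symm
    have hU : {q | β p / 2 < β q} ∈ 𝓝[P] p :=
      (hβ p hp).eventually_const_lt (by linarith)
    refine ⟨P ∩ {q | β p / 2 < β q}, Filter.inter_mem hself hU, β p / 2, by linarith, 1,
      one_pos, ?_⟩
    intro ε hε _ q hq
    have h2 : β p / 2 < β q := hq.2
    have h3 := h0 q hq.1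
    nlinarith [mul_le_mul_of_nonneg_right h2.le hε.le]
  · have hU : {q | α p / 2 < α q} ∈ 𝓝[P] p :=
      (hα p hp).eventually_const_lt (by linarith)
    have hV : {q | β p - 1 < β q} ∈ 𝓝[P] p :=
      (hβ p hp).eventually_const_lt (by linarith)
    have hd : 0 < |β p| + 2 := by positivity
    refine ⟨{q | α p / 2 < α q} ∩ {q | β p - 1 < β q}, Filter.inter_mem hU hV, 1, one_pos,
      (α p / 2) / (|β p| + 2), by positivity, ?_⟩
    intro ε hε hε2 q hq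
    have h2 : α p / 2 < α q := hq.1
    have h3 : β p - 1 < β q := hq.2
    rw [le_div_iff₀ hd] at hε2
    have h4 : -|β p| ≤ β p := neg_abs_le _
    have h5 : ε * (β p - 1) ≤ ε * β q := mul_le_mul_of_nonneg_left h3.le hε.le
    have h6 : ε * (-|β p|) ≤ ε * β p := mul_le_mul_of_nonneg_left h4 hε.le
    nlinarith

theorem compact_lemma {X : Type*} [TopologicalSpace X] (P : Set X) (hP : IsCompact P)
    (α β : X → ℝ) (hα : ContinuousOn α P) (hβ : ContinuousOn β P)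
    (h0 : ∀ p ∈ P, 0 ≤ α p) (h1 : ∀ p ∈ P, α p = 0 → 0 < β p) :
    ∃ m : ℝ, 0 < m ∧ ∃ ε₀ : ℝ, 0 < ε₀ ∧ ∀ ε : ℝ, 0 < ε → ε ≤ ε₀ → ∀ p ∈ P,
      m * ε ≤ α p + ε * β p := by
  refine hP.induction_on (p := fun s => ∃ m : ℝ, 0 < m ∧ ∃ ε₀ : ℝ, 0 < ε₀ ∧ ∀ ε : ℝ, 0 < ε →
    ε ≤ ε₀ → ∀ p ∈ s, m * ε ≤ α p + ε * β p) ?_ ?_ ?_ ?_
  · exact ⟨1, one_pos, 1, one_pos, fun _ _ _ p hp => absurd hp (Set.notMem_empty p)⟩
  · rintro s t hst ⟨m, hm, e, he, h⟩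
    exact ⟨m, hm, e, he, fun ε hε hε2 p hp => h ε hε hε2 p (hst hp)⟩
  · rintro s t ⟨m, hm, e, he, h⟩ ⟨m', hm', e', he', h'⟩
    refine ⟨min m m', lt_min hm hm', min e e', lt_min he he', ?_⟩
    intro ε hε hε2 p hp
    rcases hp with hp | hp
    · exact (mul_le_mul_of_nonneg_right (min_le_left m m') hε.le).trans
        (h ε hε (hε2.trans (min_le_left _ _)) p hp)
    · exact (mul_le_mul_of_nonneg_right (min_le_right m m') hε.le).trans
        (h' ε hε (hε2.trans (min_le_right _ _)) p hp)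
  · intro p hp
    exact D3_local P α β hα hβ h0 h1 p hp

end Pool.Agent.Lib.MP_6b3014_an.Sm
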