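import Pool.Agent.Lib.MP_6b3014_an.Sm.A0b
import Pool.Agent.Lib.MP_6b3014_an.Sm.C1
import Pool.Agent.Lib.MP_6b3014_an.Sm.D1
import Pool.Agent.Lib.MP_6b3014_an.Sm.D2
import Pool.Agent.Lib.MP_6b3014_an.Sm.D3

open MeasureTheory Set
open scoped RealInnerProductSpace ContDiff Topology

noncomputable section

namespace Pool.Agent.Lib.MP_6b3014_an.Sm

/-- The two inequalities at one point, from the bounds on the errors. -/
theorem D4_arith (K d n p q u t ε m R C1 C2 D : ℝ) (hK : 1 < K) (hd : 0 < d) (hdD : d ≤ D)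
    (hn0 : 0 ≤ n) (hn : n ≤ K * d) (hC1 : 0 < C1) (hC2 : 0 < C2) (hε : 0 < ε)
    (hp : |p - (1 + ε * u)| ≤ C1 * ε ^ 2) (hq : |q - (1 + ε * t)| ≤ C2 * ε ^ 2)
    (hR : R = K * (K * D) * (C1 + C2)) (hRm : R * ε ≤ m)
    (h1 : 2 * m * ε ≤ (K * d - n) + ε * (K * d * u - n * t))
    (h2 : 2 * m * ε ≤ (K * n - d) + ε * (K * n * t - d * u)) :
    n * q + m * ε ≤ K * (d * p) ∧ d * p + m * ε ≤ K * (n * q) := by
  have hp1 := (abs_le.1 hp).1
  have hp2 := (abs_le.1 hp).2
  have hq1 := (abs_le.1 hq).1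
  have hq2 := (abs_le.1 hq).2
  have hK0 : 0 < K := by linarith
  have hD : 0 < D := lt_of_lt_of_le hd hdD
  have e0 : R * ε * ε ≤ m * ε := mul_le_mul_of_nonneg_right hRm hε.le
  have hKd : K * d ≤ K * D := mul_le_mul_of_nonneg_left hdD hK0.le
  have hKD : 0 ≤ K * D := by positivity
  have hKKD : K * D ≤ K * (K * D) := by nlinarith
  have hε2 : 0 ≤ ε ^ 2 := by positivity
  constructor
  · -- `K d p ≥ K d (1 + ε u) - K d C1 ε²`
    have a1 : K * d * (1 + ε * u) - K * d * (C1 * ε ^ 2) ≤ K * d * p := by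
      have := mul_le_mul_of_nonneg_left hp1 (show 0 ≤ K * d by positivity)
      nlinarith
    have a2 : n * q ≤ n * (1 + ε * t) + n * (C2 * ε ^ 2) := by
      have := mul_le_mul_of_nonneg_left hq2 hn0
      nlinarith
    have a3 : K * d * (C1 * ε ^ 2) ≤ K * (K * D) * (C1 * ε ^ 2) :=
      mul_le_mul_of_nonneg_right (hKd.trans hKKD) (by positivity)
    have a4 : n * (C2 * ε ^ 2) ≤ K * (K * D) * (C2 * ε ^ 2) :=
      mul_le_mul_of_nonneg_right ((hn.trans hKd).trans hKKD) (by positivity)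
    have a5 : K * (K * D) * (C1 * ε ^ 2) + K * (K * D) * (C2 * ε ^ 2) = R * ε * ε := by
      rw [hR]; ring
    nlinarith
  · have a1 : K * n * (1 + ε * t) - K * n * (C2 * ε ^ 2) ≤ K * n * q := by
      have := mul_le_mul_of_nonneg_left hq1 (show 0 ≤ K * n by positivity)
      nlinarith
    have a2 : d * p ≤ d * (1 + ε * u) + d * (C1 * ε ^ 2) := by
      have := mul_le_mul_of_nonneg_left hp2 hd.le
      nlinarith
    have a3 : K * n * (C2 * ε ^ 2) ≤ K * (K * D) * (C2 * ε ^ 2) :=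
      mul_le_mul_of_nonneg_right (mul_le_mul_of_nonneg_left (hn.trans hKd) hK0.le) (by positivity)
    have a4 : d * (C1 * ε ^ 2) ≤ K * (K * D) * (C1 * ε ^ 2) := by
      apply mul_le_mul_of_nonneg_right _ (by positivity)
      have : D ≤ K * D := by nlinarith
      linarith
    have a5 : K * (K * D) * (C1 * ε ^ 2) + K * (K * D) * (C2 * ε ^ 2) = R * ε * ε := by
      rw [hR]; ring
    nlinarith

/-- The first variation estimate on the compact set `S`. -/
theorem first_var (K : ℝ) (hK : 1 < K) (S : Set E) (hS : IsCompact S) (G M : E → E →L[ℝ] E)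
    (hG : ContinuousOn G S) (hM : ContinuousOn M S) (hdil : ∀ x ∈ S, Dil K (G x))
    (htop : ∀ x ∈ S, ∀ y, Top K (G x) y → 0 < quad (M x) y)
    (hbot : ∀ x ∈ S, ∀ z, Bot K (G x) z → quad (M x) z < 0) :
    ∃ m : ℝ, 0 < m ∧ ∃ ε₀ : ℝ, 0 < ε₀ ∧ ∀ ε : ℝ, 0 < ε → ε ≤ ε₀ → ∀ x ∈ S, ∀ y : E, ‖y‖ = 1 →
      ‖G x y‖ ^ 3 * (pert ε (M x)).det + m * ε ≤
        K * ((G x).det * ‖pert ε (M x) y‖ ^ 3) ∧
      (G x).det * ‖pert ε (M x) y‖ ^ 3 + m * ε ≤
        K * (‖G x y‖ ^ 3 * (pert ε (M x)).det) := by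
  have hK0 : 0 < K := by linarith
  have hP : IsCompact (S ×ˢ Metric.sphere (0 : E) 1) := hS.prod (isCompact_sphere 0 1)
  have hnorm : ∀ p ∈ S ×ˢ Metric.sphere (0 : E) 1, ‖p.2‖ = 1 := by
    intro p hp
    simpa using hp.2
  -- continuity
  have cG : ContinuousOn (fun p : E × E => G p.1) (S ×ˢ Metric.sphere (0 : E) 1) :=
    hG.comp continuousOn_fst (fun p hp => hp.1)
  have cM : ContinuousOn (fun p : E × E => M p.1) (S ×ˢ Metric.sphere (0 : E) 1) :=
    hM.comp continuousOn_fst (fun p hp => hp.1)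
  have cdet : ContinuousOn (fun p : E × E => (G p.1).det) (S ×ˢ Metric.sphere (0 : E) 1) :=
    ContinuousLinearMap.continuous_det.comp_continuousOn cG
  have ctr : ContinuousOn (fun p : E × E => tr (M p.1)) (S ×ˢ Metric.sphere (0 : E) 1) :=
    continuous_tr.comp_continuousOn cM
  have cn : ContinuousOn (fun p : E × E => ‖G p.1 p.2‖ ^ 3) (S ×ˢ Metric.sphere (0 : E) 1) :=
    (cG.clm_apply continuousOn_snd).norm.pow 3
  have cu : ContinuousOn (fun p : E × E => 3 * ⟪M p.1 p.2, p.2⟫)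
      (S ×ˢ Metric.sphere (0 : E) 1) :=
    continuousOn_const.mul ((cM.clm_apply continuousOn_snd).inner continuousOn_snd)
  -- the two applications of the compactness lemma
  obtain ⟨m1, hm1, e1, he1, H1⟩ := compact_lemma (S ×ˢ Metric.sphere (0 : E) 1) hP
    (fun p => K * (G p.1).det - ‖G p.1 p.2‖ ^ 3)
    (fun p => K * (G p.1).det * (3 * ⟪M p.1 p.2, p.2⟫) - ‖G p.1 p.2‖ ^ 3 * tr (M p.1))
    ((continuousOn_const.mul cdet).sub cn)
    (((continuousOn_const.mul cdet).mul cu).sub (cn.mul ctr))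
    (by
      intro p hp
      have := (((dil_iff K (G p.1)).1 (hdil p.1 hp.1)).2 p.2 (hnorm p hp)).1
      try simp only
      linarith)
    (by
      intro p hp h0
      try simp only at h0
      have hd := ((dil_iff K (G p.1)).1 (hdil p.1 hp.1)).1
      have ht := htop p.1 hp.1 p.2 ⟨hnorm p hp, by linarith⟩
      have hn : ‖G p.1 p.2‖ ^ 3 = K * (G p.1).det := by linarith
      try simp only
      rw [hn, ← mul_sub]
      exact mul_pos (mul_pos hK0 hd) ht)
  obtain ⟨m2, hm2, e2, he2, H2⟩ := compact_lemma (S ×ˢ Metric.sphere (0 : E) 1) hP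
    (fun p => K * ‖G p.1 p.2‖ ^ 3 - (G p.1).det)
    (fun p => K * ‖G p.1 p.2‖ ^ 3 * tr (M p.1) - (G p.1).det * (3 * ⟪M p.1 p.2, p.2⟫))
    ((continuousOn_const.mul cn).sub cdet)
    (((continuousOn_const.mul cn).mul ctr).sub (cdet.mul cu))
    (by
      intro p hp
      have := (((dil_iff K (G p.1)).1 (hdil p.1 hp.1)).2 p.2 (hnorm p hp)).2
      try simp only
      linarith)
    (by
      intro p hp h0
      try simp only at h0
      have hd := ((dil_iff K (G p.1)).1 (hdil p.1 hp.1)).1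
      have ht := hbot p.1 hp.1 p.2 ⟨hnorm p hp, by linarith⟩
      have hn : K * ‖G p.1 p.2‖ ^ 3 = (G p.1).det := by linarith
      try simp only
      rw [hn, ← mul_sub]
      refine mul_pos hd ?_
      unfold quad at ht
      linarith)
  -- bounds
  obtain ⟨M0, hM0⟩ := hS.exists_bound_of_continuousOn hM
  obtain ⟨D0, hD0⟩ := hS.exists_bound_of_continuousOn
    (ContinuousLinearMap.continuous_det.comp_continuousOn hG)
  obtain ⟨C1, hC1, B1⟩ := cube_bound (max M0 0) (le_max_right _ _)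
  obtain ⟨C2, hC2, B2⟩ := det_bound (max M0 0) (le_max_right _ _)
  set D : ℝ := max D0 0 with hD
  set R : ℝ := K * (K * D) * (C1 + C2) with hR
  have hDn : 0 ≤ D := le_max_right _ _
  have hRn : 0 ≤ R := by positivity
  set m : ℝ := min m1 m2 / 2 with hm
  have hmpos : 0 < m := by
    have := lt_min hm1 hm2
    linarith
  refine ⟨m, hmpos, min (min e1 e2) (min 1 (m / (R + 1))), by positivity, ?_⟩
  intro ε hε hε0 x hx y hy
  have l1 : ε ≤ e1 := hε0.trans ((min_le_left _ _).trans (min_le_left _ _))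
  have l2 : ε ≤ e2 := hε0.trans ((min_le_left _ _).trans (min_le_right _ _))
  have l3 : ε ≤ 1 := hε0.trans ((min_le_right _ _).trans (min_le_left _ _))
  have l4 : ε ≤ m / (R + 1) := hε0.trans ((min_le_right _ _).trans (min_le_right _ _))
  have hRm : R * ε ≤ m := by
    rw [le_div_iff₀ (by positivity)] at l4
    nlinarith
  have hpP : (x, y) ∈ S ×ˢ Metric.sphere (0 : E) 1 := ⟨hx, by simpa using hy⟩
  have k1 := H1 ε hε l1 (x, y) hpP
  have k2 := H2 ε hε l2 (x, y) hpP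
  try simp only at k1 k2
  have hMx : ‖M x‖ ≤ max M0 0 := (hM0 x hx).trans (le_max_left _ _)
  have hdx : (G x).det ≤ D := (le_abs_self _).trans ((hD0 x hx).trans (le_max_left _ _))
  obtain ⟨hd, hdy⟩ := (dil_iff K (G x)).1 (hdil x hx)
  have hm1' : 2 * m ≤ m1 := by
    have := min_le_left m1 m2
    linarith
  have hm2' : 2 * m ≤ m2 := by
    have := min_le_right m1 m2
    linarith
  exact D4_arith K (G x).det (‖G x y‖ ^ 3) (‖pert ε (M x) y‖ ^ 3) (pert ε (M x)).det
    (3 * ⟪M x y, y⟫) (tr (M x)) ε m R C1 C2 D hK hd hdx (by positivity) (hdy y hy).1 hC1 hC2 hε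
    (B1 (M x) hMx ε hε.le l3 y hy) (B2 (M x) hMx ε hε.le l3) hR hRm
    ((mul_le_mul_of_nonneg_right hm1' hε.le).trans k1)
    ((mul_le_mul_of_nonneg_right hm2' hε.le).trans k2)

end Pool.Agent.Lib.MP_6b3014_an.Sm
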