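import Pool.Agent.Lib.MP_6b3014_an.Sm.D4

open MeasureTheory Set
open scoped RealInnerProductSpace ContDiff Topology

noncomputable section

namespace Pool.Agent.Lib.MP_6b3014_an.Sm

theorem D5_surj (P : E →L[ℝ] E) (hP : 0 < P.det) (w : E) : ∃ y : E, P y = w := by
  have h1 : LinearMap.det (P : E →ₗ[ℝ] E) ≠ 0 := by
    have : P.det = LinearMap.det (P : E →ₗ[ℝ] E) := rfl
    rw [← this]
    exact hP.ne'
  refine ⟨(LinearMap.equivOfDetNeZero (P : E →ₗ[ℝ] E) h1).symm w, ?_⟩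
  have h2 := (LinearMap.equivOfDetNeZero (P : E →ₗ[ℝ] E) h1).apply_symm_apply w
  exact h2

theorem D5_det (A P B : E →L[ℝ] E) (hB : B ∘L P = A) : A.det = B.det * P.det := by
  rw [← hB]
  show LinearMap.det ((B : E →ₗ[ℝ] E) ∘ₗ (P : E →ₗ[ℝ] E)) = _
  rw [LinearMap.det_comp]

/-- If `B ∘ (1 + ε M) = A` then the dilatation of `B` is controlled by inequalities on unit
vectors `y`. -/
theorem dil_of_comp (K : ℝ) (A M B : E →L[ℝ] E) (ε : ℝ)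
    (hA : 0 < A.det) (hP : 0 < (pert ε M).det)
    (hB : B ∘L pert ε M = A)
    (h : ∀ y : E, ‖y‖ = 1 → ‖A y‖ ^ 3 * (pert ε M).det ≤ K * (A.det * ‖pert ε M y‖ ^ 3) ∧
      A.det * ‖pert ε M y‖ ^ 3 ≤ K * (‖A y‖ ^ 3 * (pert ε M).det)) : Dil K B := by
  have hdet := D5_det A (pert ε M) B hB
  have hBpos : 0 < B.det := by
    by_contra hcon
    have h1 : B.det * (pert ε M).det ≤ 0 := mul_nonpos_of_nonpos_of_nonneg (not_lt.1 hcon) hP.le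
    rw [← hdet] at h1
    linarith
  rw [dil_iff]
  refine ⟨hBpos, fun w hw => ?_⟩
  obtain ⟨y', hy'⟩ := D5_surj (pert ε M) hP w
  have hy0 : y' ≠ 0 := by
    rintro rfl
    rw [map_zero] at hy'
    rw [← hy', norm_zero] at hw
    exact zero_ne_one hw
  have hn : 0 < ‖y'‖ := norm_pos_iff.2 hy0
  have hy1 : ‖(‖y'‖⁻¹) • y'‖ = 1 := by
    rw [norm_smul, norm_inv, norm_norm, inv_mul_cancel₀ hn.ne']
  obtain ⟨h1, h2⟩ := h _ hy1
  have hBw : ‖B w‖ = ‖A y'‖ := by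
    rw [← hy', ← hB]
    rfl
  have hPy : ‖pert ε M ((‖y'‖⁻¹) • y')‖ = ‖y'‖⁻¹ := by
    rw [map_smul, hy', norm_smul, hw, norm_inv, norm_norm, mul_one]
  have hAy : ‖A ((‖y'‖⁻¹) • y')‖ = ‖y'‖⁻¹ * ‖B w‖ := by
    rw [map_smul, norm_smul, norm_inv, norm_norm, hBw]
  rw [hPy, hAy, hdet, mul_pow] at h1 h2
  have hc : 0 < (‖y'‖⁻¹) ^ 3 * (pert ε M).det := by positivity
  constructor
  · refine le_of_mul_le_mul_left ?_ hc
    calc (‖y'‖⁻¹) ^ 3 * (pert ε M).det * ‖B w‖ ^ 3 = (‖y'‖⁻¹) ^ 3 * ‖B w‖ ^ 3 * (pert ε M).det := by ring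
      _ ≤ _ := h1
      _ = (‖y'‖⁻¹) ^ 3 * (pert ε M).det * (K * B.det) := by ring
  · refine le_of_mul_le_mul_left ?_ hc
    calc (‖y'‖⁻¹) ^ 3 * (pert ε M).det * B.det = B.det * (pert ε M).det * (‖y'‖⁻¹) ^ 3 := by ring
      _ ≤ _ := h2
      _ = (‖y'‖⁻¹) ^ 3 * (pert ε M).det * (K * ‖B w‖ ^ 3) := by ring

end Pool.Agent.Lib.MP_6b3014_an.Sm
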