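import Pool.Agent.Lib.MP_6b3014_an.Sm.D1
import Pool.Agent.Lib.MP_6b3014_an.Sm.D2
import Pool.Agent.Lib.MP_6b3014_an.Sm.A0b

open MeasureTheory Set
open scoped RealInnerProductSpace ContDiff Topology

noncomputable section

namespace Pool.Agent.Lib.MP_6b3014_an.Sm

theorem dil_pert (δ : ℝ) (hδ : 0 < δ) (M0 : ℝ) (hM0 : 0 ≤ M0) :
    ∃ ε₂ : ℝ, 0 < ε₂ ∧ ∀ ε : ℝ, 0 < ε → ε ≤ ε₂ → ∀ M : E →L[ℝ] E, ‖M‖ ≤ M0 →
      Dil (1 + δ) (pert ε M) := by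
  obtain ⟨C1, hC1, h1⟩ := cube_bound M0 hM0
  obtain ⟨C2, hC2, h2⟩ := det_bound M0 hM0
  obtain ⟨C, hC⟩ : ∃ C : ℝ, C = 3 * M0 + C1 + C2 := ⟨_, rfl⟩
  have hC0 : 0 < C := by rw [hC]; positivity
  have hd2 : 0 < 2 + δ := by linarith
  refine ⟨min 1 (δ / (C * (2 + δ))), lt_min one_pos (by positivity), ?_⟩
  intro ε hε hεle M hM
  have hε1 : ε ≤ 1 := hεle.trans (min_le_left _ _)
  have hε2 : ε ≤ δ / (C * (2 + δ)) := hεle.trans (min_le_right _ _)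
  have hkey : C * ε * (2 + δ) ≤ δ := by
    rw [le_div_iff₀ (by positivity)] at hε2
    linarith
  have hsq : ε ^ 2 ≤ ε := by nlinarith
  have hC1e : C1 * ε ^ 2 ≤ C1 * ε := mul_le_mul_of_nonneg_left hsq hC1.le
  have hC2e : C2 * ε ^ 2 ≤ C2 * ε := mul_le_mul_of_nonneg_left hsq hC2.le
  -- the determinant
  have hdet : |(pert ε M).det - 1| ≤ C * ε := by
    have h3 := h2 M hM ε hε.le hε1
    have h4 := tr_bound M
    have h5 : |tr M| ≤ 3 * M0 := h4.trans (by linarith)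
    rw [abs_le] at h3 h5 ⊢
    have h6 : ε * tr M ≤ ε * (3 * M0) := mul_le_mul_of_nonneg_left h5.2 hε.le
    have h7 : ε * -(3 * M0) ≤ ε * tr M := mul_le_mul_of_nonneg_left h5.1 hε.le
    have h8 : C * ε = ε * (3 * M0) + C1 * ε + C2 * ε := by rw [hC]; ring
    have h9 : 0 ≤ C1 * ε := by positivity
    constructor <;> nlinarith
  have hcube : ∀ y : E, ‖y‖ = 1 → |‖pert ε M y‖ ^ 3 - 1| ≤ C * ε := by
    intro y hy
    have h3 := h1 M hM ε hε.le hε1 y hy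
    have h5 : |⟪M y, y⟫| ≤ M0 := by
      calc |⟪M y, y⟫| ≤ ‖M y‖ * ‖y‖ := abs_real_inner_le_norm _ _
        _ ≤ (‖M‖ * ‖y‖) * ‖y‖ := by
            gcongr
            exact M.le_opNorm y
        _ = ‖M‖ := by rw [hy, mul_one, mul_one]
        _ ≤ M0 := hM
    rw [abs_le] at h3 h5 ⊢
    have h6 : ε * ⟪M y, y⟫ ≤ ε * M0 := mul_le_mul_of_nonneg_left h5.2 hε.le
    have h7 : ε * -M0 ≤ ε * ⟪M y, y⟫ := mul_le_mul_of_nonneg_left h5.1 hε.le
    have h8 : C * ε = ε * (3 * M0) + C1 * ε + C2 * ε := by rw [hC]; ring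
    have h9 : 0 ≤ C2 * ε := by positivity
    constructor <;> nlinarith
  have hCe : C * ε < 1 := by
    have h3 : 0 < C * ε := by positivity
    nlinarith
  rw [abs_le] at hdet
  rw [dil_iff]
  refine ⟨by linarith, fun y hy => ?_⟩
  have h3 := hcube y hy
  rw [abs_le] at h3
  have h4 : 1 + C * ε ≤ (1 + δ) * (1 - C * ε) := by nlinarith
  have hd1 : (0 : ℝ) ≤ 1 + δ := by linarith
  constructor
  · calc ‖pert ε M y‖ ^ 3 ≤ 1 + C * ε := by linarith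
      _ ≤ (1 + δ) * (1 - C * ε) := h4
      _ ≤ (1 + δ) * (pert ε M).det := mul_le_mul_of_nonneg_left (by linarith) hd1
  · calc (pert ε M).det ≤ 1 + C * ε := by linarith
      _ ≤ (1 + δ) * (1 - C * ε) := h4
      _ ≤ (1 + δ) * ‖pert ε M y‖ ^ 3 := mul_le_mul_of_nonneg_left (by linarith) hd1

end Pool.Agent.Lib.MP_6b3014_an.Sm
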