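import Mathlib

/-!
Definitions for the positive result on MP_6b3014_an (maps that are C^1 near the set where the
dilatation is almost maximal).
-/

open MeasureTheory Set
open scoped RealInnerProductSpace ContDiff

noncomputable section

namespace Pool.Agent.Lib.MP_6b3014_an.Sm

/-- Euclidean three-space. -/
abbrev E := EuclideanSpace ℝ (Fin 3)

/-- The least stretching of the linear map `A`: the infimum of `‖A y‖` over unit vectors `y`. -/
def minStretch (A : E →L[ℝ] E) : ℝ := sInf {r : ℝ | ∃ y : E, ‖y‖ = 1 ∧ r = ‖A y‖}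

/-- Outer dilatation of a linear map: `|A|^3 / det A`. -/
def kO (A : E →L[ℝ] E) : ℝ := ‖A‖ ^ 3 / A.det

/-- Inner dilatation of a linear map: `det A / l(A)^3`. -/
def kI (A : E →L[ℝ] E) : ℝ := A.det / minStretch A ^ 3

/-- `A` has positive determinant and both its dilatations are at most `K`. -/
def Dil (K : ℝ) (A : E →L[ℝ] E) : Prop := 0 < A.det ∧ kO A ≤ K ∧ kI A ≤ K

/-- `f` is in `L^3` on every compact subset of `D`. -/
def L3 {V : Type*} [NormedAddCommGroup V] (D : Set E) (f : E → V) : Prop :=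
  ∀ C : Set E, IsCompact C → C ⊆ D → MemLp f 3 (volume.restrict C)

/-- `Df` is the weak derivative of `f` on `D`. -/
def Weak (D : Set E) (f : E → E) (Df : E → E →L[ℝ] E) : Prop :=
  ∀ φ : E → ℝ, ContDiff ℝ ∞ φ → HasCompactSupport φ → tsupport φ ⊆ D → ∀ e : E,
    ∫ x, (fderiv ℝ φ x e) • f x = - ∫ x, φ x • Df x e

/-- `f` is in `W^{1,3}_loc(D)` with weak derivative `Df`. -/
structure W13 (D : Set E) (f : E → E) (Df : E → E →L[ℝ] E) : Prop where
  memF : L3 D f
  memD : L3 D Df
  weak : Weak D f Df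

/-- `f` maps `D` homeomorphically onto `D'`, is in `W^{1,3}_loc(D)` with weak derivative `Df`,
and at almost every point of `D` the determinant of `Df` is positive and both dilatations are at
most `K`: so `f` is (sense preserving and) `K`-quasiconformal. -/
structure IsQC (K : ℝ) (D D' : Set E) (f : E → E) (Df : E → E →L[ℝ] E) : Prop where
  cont : ContinuousOn f D
  bij : BijOn f D D'
  inv : ∃ k : E → E, ContinuousOn k D' ∧ ∀ x ∈ D, k (f x) = x
  w13 : W13 D f Df
  dil : ∀ᵐ x ∂(volume.restrict D), Dil K (Df x)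

/-- `y` is a unit vector with `‖A y‖^3 = K det A`. -/
def Top (K : ℝ) (A : E →L[ℝ] E) (y : E) : Prop := ‖y‖ = 1 ∧ ‖A y‖ ^ 3 = K * A.det

/-- `z` is a unit vector with `det A = K ‖A z‖^3`. -/
def Bot (K : ℝ) (A : E →L[ℝ] E) (z : E) : Prop := ‖z‖ = 1 ∧ A.det = K * ‖A z‖ ^ 3

/-- The trace. -/
def tr (M : E →L[ℝ] E) : ℝ := ∑ i : Fin 3, (M (EuclideanSpace.single i 1)) i

/-- The linear map `1 + ε M`. -/
def pert (ε : ℝ) (M : E →L[ℝ] E) : E →L[ℝ] E := ContinuousLinearMap.id ℝ E + ε • M

theorem pert_apply (ε : ℝ) (M : E →L[ℝ] E) (y : E) : pert ε M y = y + ε • M y := by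
  simp [pert]

end Pool.Agent.Lib.MP_6b3014_an.Sm
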