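import Pool.Agent.Lib.MP_6b3014_an.Sm.Defs
import Pool.Agent.Lib.MP_6b3014_an.Sm.C1

open MeasureTheory Set
open scoped RealInnerProductSpace ContDiff Topology

noncomputable section

namespace Pool.Agent.Lib.MP_6b3014_an.Sm

/-- `y` is a cluster direction at `x` of directions of nearly maximal stretching: for all `r > 0`
and `c < K` it is not true that at almost all points `x'` of `D` with `‖x' - x‖ < r` all unit
vectors `y'` with `‖y' - y‖ < r` satisfy `‖Df x' y'‖ ^ 3 ≤ c * det (Df x')`. -/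
def TopCl (K : ℝ) (D : Set E) (Df : E → E →L[ℝ] E) (x y : E) : Prop :=
  ‖y‖ = 1 ∧ ∀ r : ℝ, 0 < r → ∀ c : ℝ, c < K →
    ¬ ∀ᵐ x' ∂(volume.restrict D), ‖x' - x‖ < r → ∀ y' : E, ‖y'‖ = 1 → ‖y' - y‖ < r →
      ‖Df x' y'‖ ^ 3 ≤ c * (Df x').det

/-- The same for nearly minimal stretching. -/
def BotCl (K : ℝ) (D : Set E) (Df : E → E →L[ℝ] E) (x z : E) : Prop :=
  ‖z‖ = 1 ∧ ∀ r : ℝ, 0 < r → ∀ c : ℝ, c < K →
    ¬ ∀ᵐ x' ∂(volume.restrict D), ‖x' - x‖ < r → ∀ z' : E, ‖z'‖ = 1 → ‖z' - z‖ < r →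
      (Df x').det ≤ c * ‖Df x' z'‖ ^ 3

end Pool.Agent.Lib.MP_6b3014_an.Sm
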