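import Pool.Agent.Lib.MP_6b3014_an.Sm.Defs2

open MeasureTheory Set
open scoped RealInnerProductSpace ContDiff Topology

noncomputable section

namespace Pool.Agent.Lib.MP_6b3014_an.Sm

/-- At each point of `Q ∩ closure D` one of the two kinds of cluster directions does not occur and
the other ones lie in an open double cone with `cos² > 2/3` about a line. -/
def ConeCond (K : ℝ) (D Q : Set E) (Df : E → E →L[ℝ] E) : Prop :=
  ∀ x ∈ Q ∩ closure D, ∃ e : E, ‖e‖ = 1 ∧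
    (((∀ z, ¬ BotCl K D Df x z) ∧ ∀ y, TopCl K D Df x y → 2 / 3 < ⟪e, y⟫ ^ 2) ∨
     ((∀ y, ¬ TopCl K D Df x y) ∧ ∀ z, BotCl K D Df x z → 2 / 3 < ⟪e, z⟫ ^ 2))

/-- A condition on the cluster directions with respect to the gradient of one smooth function. -/
def GradCond (K : ℝ) (D Q : Set E) (Df : E → E →L[ℝ] E) : Prop :=
  ∃ u : E → ℝ, ContDiff ℝ ∞ u ∧ ∀ x ∈ Q ∩ closure D, ∃ b : E,
    (∀ y, TopCl K D Df x y → fderiv ℝ u x b < 3 * (fderiv ℝ u x y * ⟪b, y⟫)) ∧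
    (∀ z, BotCl K D Df x z → 3 * (fderiv ℝ u x z * ⟪b, z⟫) < fderiv ℝ u x b)

/-- One of the two dilatations of `f` is smaller than `K`: `K_I(f) < K` or `K_O(f) < K`. -/
def OneSided (K : ℝ) (D : Set E) (Df : E → E →L[ℝ] E) : Prop :=
  (∃ K₀ : ℝ, K₀ < K ∧ ∀ᵐ x ∂(volume.restrict D), kI (Df x) ≤ K₀) ∨
  (∃ K₀ : ℝ, K₀ < K ∧ ∀ᵐ x ∂(volume.restrict D), kO (Df x) ≤ K₀)

/-- The coincidence set: the points of `Q ∩ closure D` at which both dilatations of `F'` are `K`. -/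
def Coin (K : ℝ) (D Q : Set E) (F : E → E) : Set E :=
  {x | x ∈ Q ∩ closure D ∧ kO (fderiv ℝ F x) = K ∧ kI (fderiv ℝ F x) = K}

/-- The coincidence set has zero two-dimensional Hausdorff measure and `F'` is Lipschitz on it. -/
def NullCond (K : ℝ) (D Q : Set E) (F : E → E) : Prop :=
  μH[2] (Coin K D Q F) = 0 ∧ ∃ L : NNReal, LipschitzOnWith L (fderiv ℝ F) (Coin K D Q F)

/-- There is a smooth function `u` with nonvanishing gradient which on the coincidence set is not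
parallel to the middle axis (the orthogonal complement of an extremal pair `y, z`) of `F'`. -/
def MidCond (K : ℝ) (D Q : Set E) (F : E → E) : Prop :=
  ∃ u : E → ℝ, ContDiff ℝ ∞ u ∧ ∀ x ∈ Q ∩ closure D, fderiv ℝ u x ≠ 0 ∧
    (x ∈ Coin K D Q F → ∀ y z : E, ‖y‖ = 1 → ‖z‖ = 1 →
      ‖fderiv ℝ F x y‖ = ‖fderiv ℝ F x‖ → ‖fderiv ℝ F x z‖ = minStretch (fderiv ℝ F x) →
      fderiv ℝ u x y ≠ 0 ∨ fderiv ℝ u x z ≠ 0)

/-- `f` is `C^1` with positive Jacobian near `Q` (up to the boundary of `D`), and one of the two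
dilatations of `f` is smaller than `K`, or the coincidence set is countable, or it has zero
two-dimensional Hausdorff measure and `f'` is Lipschitz on it, or `MidCond` holds. -/
def SmoothCond (K : ℝ) (D Q U : Set E) (f : E → E) (Df : E → E →L[ℝ] E) : Prop :=
  ∃ F : E → E, ContDiffOn ℝ 1 F U ∧ (∀ x ∈ Q ∩ closure D, 0 < (fderiv ℝ F x).det) ∧
    (∀ x ∈ D ∩ U, f x = F x ∧ Df x = fderiv ℝ F x) ∧
    (OneSided K D Df ∨ (Coin K D Q F).Countable ∨ NullCond K D Q F ∨ MidCond K D Q F)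

/-- Each unit vector `y` has `‖A y‖^3 ≤ c det A` or `3 ⟪M y, y⟫ ≥ tr M + m`, and
`det A ≤ c ‖A y‖^3` or `3 ⟪M y, y⟫ ≤ tr M - m`. -/
def Sep (c m : ℝ) (A M : E →L[ℝ] E) : Prop :=
  ∀ y : E, ‖y‖ = 1 →
    (‖A y‖ ^ 3 ≤ c * A.det ∨ tr M + m ≤ 3 * ⟪M y, y⟫) ∧
    (A.det ≤ c * ‖A y‖ ^ 3 ∨ 3 * ⟪M y, y⟫ + m ≤ tr M)

/-- There is a smooth vector field `v` with bounded derivative, zero off `U`, such that at almost
every point of `D` the maps `Df` and `Dv` satisfy `Sep` (constants `c < K`, `m > 0`). -/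
def FieldCond (K : ℝ) (D U : Set E) (Df : E → E →L[ℝ] E) : Prop :=
  ∃ v : E → E, ContDiff ℝ ∞ v ∧ (∀ x, x ∉ U → v x = 0) ∧ (∃ M : ℝ, ∀ x, ‖fderiv ℝ v x‖ ≤ M) ∧
    ∃ c : ℝ, c < K ∧ ∃ m : ℝ, 0 < m ∧ ∀ᵐ x ∂(volume.restrict D), Sep c m (Df x) (fderiv ℝ v x)

/-- The hypothesis: `FieldCond`, or there are a compact set `Q` in `U` and `c < K` such that the
dilatation is at most `c` almost everywhere off `Q`, and one of the other three conditions holds. -/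
def Hyp (K : ℝ) (D U : Set E) (f : E → E) (Df : E → E →L[ℝ] E) : Prop :=
  FieldCond K D U Df ∨ ∃ (Q : Set E) (c : ℝ), IsCompact Q ∧ Q ⊆ U ∧ c < K ∧
    (∀ᵐ x ∂(volume.restrict (D \ Q)), Dil c (Df x)) ∧
    (ConeCond K D Q Df ∨ GradCond K D Q Df ∨ SmoothCond K D Q U f Df)

/-- The conclusion: `f = g ∘ h` on `D`, where `h` is a smooth diffeomorphism of space, equal to the
identity off `U`, with `K(h) ≤ 1 + δ`, and `g : h(D) → D'` has `K(g) ≤ K' < K`. -/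
def Factors (K : ℝ) (D D' U : Set E) (f : E → E) (δ : ℝ) : Prop :=
  ∃ K' : ℝ, K' < K ∧ ∃ h : E ≃ₜ E, ContDiff ℝ ∞ h ∧ ContDiff ℝ ∞ h.symm ∧
    (∀ x, x ∉ U → h x = x) ∧ (∀ x, Dil (1 + δ) (fderiv ℝ h x)) ∧
    IsQC (1 + δ) D (h '' D) h (fderiv ℝ h) ∧
    ∃ (g : E → E) (Dg : E → E →L[ℝ] E), IsQC K' (h '' D) D' g Dg ∧ ∀ x ∈ D, g (h x) = f x

end Pool.Agent.Lib.MP_6b3014_an.Sm
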