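import Pool.Agent.Lib.MP_6b3014_an.Sm.A0b

open MeasureTheory Set
open scoped RealInnerProductSpace ContDiff Topology

noncomputable section

namespace Pool.Agent.Lib.MP_6b3014_an.Sm

/-- The pointwise bound passes from almost every point of `D` to the closure. -/
theorem dil_closure (K : ℝ) (D : Set E) (hD : IsOpen D) (U : Set E) (hU : IsOpen U)
    (G Df : E → E →L[ℝ] E) (hG : ContinuousOn G U)
    (hae : ∀ᵐ x ∂(volume.restrict D), Dil K (Df x)) (hGD : ∀ x ∈ D ∩ U, Df x = G x)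
    (x : E) (hx : x ∈ closure D) (hxU : x ∈ U) (hdet : 0 < (G x).det) : Dil K (G x) := by
  have h1 : ∀ᵐ y : E, y ∈ D → Dil K (Df y) := (ae_restrict_iff' hD.measurableSet).1 hae
  have h2 : Dense {y : E | y ∈ D → Dil K (Df y)} := MeasureTheory.Measure.dense_of_ae h1
  set T : Set E := {y | y ∈ D ∩ U ∧ Dil K (G y)} with hT
  have h3 : x ∈ closure T := by
    rw [mem_closure_iff]
    intro O hO hxO
    obtain ⟨w, hw1, hw2⟩ := mem_closure_iff.1 hx (O ∩ U) (hO.inter hU) ⟨hxO, hxU⟩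
    obtain ⟨y, hy1, hy2⟩ := h2.inter_open_nonempty (O ∩ U ∩ D) ((hO.inter hU).inter hD)
      ⟨w, hw1, hw2⟩
    refine ⟨y, hy1.1.1, ⟨hy1.2, hy1.1.2⟩, ?_⟩
    rw [← hGD y ⟨hy1.2, hy1.1.2⟩]
    exact hy2 hy1.2
  have h4 : ContinuousWithinAt G T x := (hG x hxU).mono (fun y hy => hy.1.2)
  have : (𝓝[T] x).NeBot := mem_closure_iff_nhdsWithin_neBot.1 h3
  have h5 : Filter.Tendsto (fun y => (G y).det) (𝓝[T] x) (𝓝 (G x).det) :=
    (ContinuousLinearMap.continuous_det.tendsto (G x)).comp h4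
  rw [dil_iff]
  refine ⟨hdet, fun v hv => ?_⟩
  have h6 : Filter.Tendsto (fun y => ‖G y v‖ ^ 3) (𝓝[T] x) (𝓝 (‖G x v‖ ^ 3)) := by
    have h7 : Continuous fun A : E →L[ℝ] E => ‖A v‖ ^ 3 := by fun_prop
    exact (h7.tendsto (G x)).comp h4
  have h8 : ∀ᶠ y in 𝓝[T] x, ‖G y v‖ ^ 3 ≤ K * (G y).det ∧ (G y).det ≤ K * ‖G y v‖ ^ 3 := by
    filter_upwards [self_mem_nhdsWithin] with y hy
    exact ((dil_iff K (G y)).1 hy.2).2 v hv
  exact ⟨le_of_tendsto_of_tendsto h6 (h5.const_mul K) (h8.mono fun y hy => hy.1),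
    le_of_tendsto_of_tendsto h5 (h6.const_mul K) (h8.mono fun y hy => hy.2)⟩

end Pool.Agent.Lib.MP_6b3014_an.Sm
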