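import Pool.Agent.Lib.MP_6b3014_an.Sm.Defs2

open MeasureTheory Set
open scoped RealInnerProductSpace ContDiff Topology

noncomputable section

namespace Pool.Agent.Lib.MP_6b3014_an.Sm

/-- the common form of the two theorems -/
theorem N4_closed (K : ℝ) (μ : Measure E) (P : ℝ → E → E → Prop) :
    IsClosed {p : E × E | ‖p.2‖ = 1 ∧ ∀ r : ℝ, 0 < r → ∀ c : ℝ, c < K →
      ¬ ∀ᵐ x' ∂μ, ‖x' - p.1‖ < r → ∀ y' : E, ‖y'‖ = 1 → ‖y' - p.2‖ < r → P c x' y'} := by
  rw [← closure_subset_iff_isClosed]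
  intro p hp
  refine ⟨?_, ?_⟩
  · have h1 : IsClosed {p : E × E | ‖p.2‖ = 1} :=
      isClosed_eq (continuous_norm.comp continuous_snd) continuous_const
    exact closure_minimal (fun q hq => hq.1) h1 hp
  · intro r hr c hc hae
    obtain ⟨q, hq, hd⟩ := Metric.mem_closure_iff.1 hp (r / 2) (by linarith)
    rw [Prod.dist_eq, max_lt_iff, dist_eq_norm, dist_eq_norm] at hd
    obtain ⟨h1, h2⟩ := hd
    refine hq.2 (r / 2) (by linarith) c hc ?_
    filter_upwards [hae] with x' hx' h3 y' hy' h4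
    refine hx' ?_ y' hy' ?_
    · have h5 : x' - p.1 = (x' - q.1) - (p.1 - q.1) := by abel
      rw [h5]
      exact (norm_sub_le _ _).trans_lt (by linarith)
    · have h5 : y' - p.2 = (y' - q.2) - (p.2 - q.2) := by abel
      rw [h5]
      exact (norm_sub_le _ _).trans_lt (by linarith)

theorem isClosed_topCl (K : ℝ) (D : Set E) (Df : E → E →L[ℝ] E) :
    IsClosed {p : E × E | TopCl K D Df p.1 p.2} :=
  N4_closed K (volume.restrict D) (fun c x' y' => ‖Df x' y'‖ ^ 3 ≤ c * (Df x').det)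

theorem isClosed_botCl (K : ℝ) (D : Set E) (Df : E → E →L[ℝ] E) :
    IsClosed {p : E × E | BotCl K D Df p.1 p.2} :=
  N4_closed K (volume.restrict D) (fun c x' y' => (Df x').det ≤ c * ‖Df x' y'‖ ^ 3)

end Pool.Agent.Lib.MP_6b3014_an.Sm
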