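import Pool.Agent.Lib.MP_6b3014_an.Sm.Defs2

open MeasureTheory Set
open scoped RealInnerProductSpace ContDiff Topology

noncomputable section

namespace Pool.Agent.Lib.MP_6b3014_an.Sm

theorem N5_convex_aux (s t X Y : ℝ) (hs : 0 ≤ s) (ht : 0 ≤ t) (hst : s + t = 1)
    (hX : 0 < X) (hY : 0 < Y) : 0 < s * X + t * Y := by
  rcases hs.eq_or_lt with h | h
  · have h1 : t = 1 := by linarith
    rw [← h, h1]
    linarith
  · have h1 := mul_pos h hX
    have h2 := mul_nonneg ht hY.le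
    linarith

/-- The good vectors at `x`. -/
def N5_Gd (T B : Set (E × E)) (a : E → E →L[ℝ] ℝ) (x : E) : Set E :=
  {b | (∀ y, (x, y) ∈ T → 0 < 3 * a x y * ⟪b, y⟫ - a x b) ∧
      (∀ z, (x, z) ∈ B → 3 * a x z * ⟪b, z⟫ - a x b < 0)}

theorem N5_convex (T B : Set (E × E)) (a : E → E →L[ℝ] ℝ) (x : E) :
    Convex ℝ (N5_Gd T B a x) := by
  intro b hb c hc s t hs ht hst
  have key : ∀ y : E, 3 * a x y * ⟪s • b + t • c, y⟫ - a x (s • b + t • c)
      = s * (3 * a x y * ⟪b, y⟫ - a x b) + t * (3 * a x y * ⟪c, y⟫ - a x c) := by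
    intro y
    rw [inner_add_left, real_inner_smul_left, real_inner_smul_left, map_add, map_smul, map_smul,
      smul_eq_mul, smul_eq_mul]
    ring
  refine ⟨fun y hy => ?_, fun z hz => ?_⟩
  · rw [key y]
    exact N5_convex_aux s t _ _ hs ht hst (hb.1 y hy) (hc.1 y hy)
  · rw [key z]
    have h1 := N5_convex_aux s t (-(3 * a x z * ⟪b, z⟫ - a x b)) (-(3 * a x z * ⟪c, z⟫ - a x c))
      hs ht hst (by linarith [hb.2 z hz]) (by linarith [hc.2 z hz])
    linarith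

theorem N5_open_aux (T : Set (E × E)) (hT : IsClosed T) (hT1 : ∀ p ∈ T, ‖p.2‖ = 1)
    (H : E × E → ℝ) (hH : Continuous H) (x : E) (h0 : ∀ y : E, (x, y) ∈ T → 0 < H (x, y)) :
    ∀ᶠ x' in 𝓝 x, ∀ y : E, (x', y) ∈ T → 0 < H (x', y) := by
  have hcomp : IsCompact (Metric.sphere (0 : E) 1) := isCompact_sphere 0 1
  have h1 : ∀ᶠ x' in 𝓝 x, ∀ y ∈ Metric.sphere (0 : E) 1, ((x', y) ∈ T → 0 < H (x', y)) := by
    refine hcomp.eventually_forall_of_forall_eventually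
      (P := fun x' y => ((x', y) ∈ T → 0 < H (x', y))) ?_
    intro y hy
    have h2 : ∀ᶠ z : E × E in 𝓝 (x, y), (z ∈ T → 0 < H z) := by
      by_cases hz : (x, y) ∈ T
      · have h4 : ∀ᶠ z : E × E in 𝓝 (x, y), 0 < H z :=
          hH.continuousAt.eventually (lt_mem_nhds (h0 y hz))
        exact h4.mono (fun z hz _ => hz)
      · have h4 : ∀ᶠ z : E × E in 𝓝 (x, y), z ∈ Tᶜ := hT.isOpen_compl.mem_nhds hz
        exact h4.mono (fun z hz h => absurd h hz)
    exact h2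
  refine h1.mono ?_
  intro x' hx' y hy
  exact hx' y (by simpa using hT1 _ hy) hy

theorem N5_open (T B : Set (E × E)) (hT : IsClosed T) (hB : IsClosed B)
    (hT1 : ∀ p ∈ T, ‖p.2‖ = 1) (hB1 : ∀ p ∈ B, ‖p.2‖ = 1) (a : E → E →L[ℝ] ℝ)
    (ha : Continuous a) (x : E) (b : E) (hb : b ∈ N5_Gd T B a x) :
    ∀ᶠ x' in 𝓝 x, b ∈ N5_Gd T B a x' := by
  have hay : Continuous (fun z : E × E => a z.1 z.2) :=
    (ha.comp continuous_fst).clm_apply continuous_snd
  have hab : Continuous (fun z : E × E => a z.1 b) :=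
    (ha.comp continuous_fst).clm_apply continuous_const
  have hH : Continuous (fun z : E × E => 3 * a z.1 z.2 * ⟪b, z.2⟫ - a z.1 b) :=
    ((continuous_const.mul hay).mul (continuous_const.inner continuous_snd)).sub hab
  have h1 := N5_open_aux T hT hT1 (fun z => 3 * a z.1 z.2 * ⟪b, z.2⟫ - a z.1 b) hH x hb.1
  have h2 := N5_open_aux B hB hB1 (fun z => -(3 * a z.1 z.2 * ⟪b, z.2⟫ - a z.1 b)) hH.neg x
    (fun y hy => by
      have := hb.2 y hy
      simpa using this)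
  filter_upwards [h1, h2] with x' h1' h2'
  refine ⟨fun y hy => h1' y hy, fun z hz => ?_⟩
  have h3 := h2' z hz
  linarith

/-- Smooth selection of `b`. -/
theorem select_gen (Q : Set E) (hQ : IsCompact Q) (T B : Set (E × E)) (hT : IsClosed T)
    (hB : IsClosed B) (hT1 : ∀ p ∈ T, ‖p.2‖ = 1) (hB1 : ∀ p ∈ B, ‖p.2‖ = 1)
    (a : E → E →L[ℝ] ℝ) (ha : Continuous a)
    (hb : ∀ x ∈ Q, ∃ b : E, (∀ y, (x, y) ∈ T → 0 < 3 * a x y * ⟪b, y⟫ - a x b) ∧
      (∀ z, (x, z) ∈ B → 3 * a x z * ⟪b, z⟫ - a x b < 0)) :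
    ∃ b : E → E, ContDiff ℝ ∞ b ∧ ∀ x ∈ Q,
      (∀ y, (x, y) ∈ T → 0 < 3 * a x y * ⟪b x, y⟫ - a x (b x)) ∧
      (∀ z, (x, z) ∈ B → 3 * a x z * ⟪b x, z⟫ - a x (b x) < 0) := by
  classical
  obtain ⟨t, ht⟩ : ∃ t : E → Set E, t = fun x => {b | x ∈ Q → b ∈ N5_Gd T B a x} := ⟨_, rfl⟩
  have hconv : ∀ x, Convex ℝ (t x) := by
    intro x
    by_cases hx : x ∈ Q
    · have h1 : t x = N5_Gd T B a x := by
        rw [ht]
        ext b
        exact ⟨fun h => h hx, fun h _ => h⟩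
      rw [h1]
      exact N5_convex T B a x
    · have h1 : t x = Set.univ := by
        rw [ht]
        ext b
        exact ⟨fun _ => Set.mem_univ b, fun _ h => absurd h hx⟩
      rw [h1]
      exact convex_univ
  have hloc : ∀ x : E, ∃ c : E, ∀ᶠ y in 𝓝 x, c ∈ t y := by
    intro x
    by_cases hx : x ∈ Q
    · obtain ⟨b, hb⟩ := hb x hx
      refine ⟨b, ?_⟩
      have h1 := N5_open T B hT hB hT1 hB1 a ha x b hb
      rw [ht]
      exact h1.mono (fun y hy _ => hy)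
    · refine ⟨0, ?_⟩
      have h1 : ∀ᶠ y in 𝓝 x, y ∈ Qᶜ := hQ.isClosed.isOpen_compl.mem_nhds hx
      filter_upwards [h1] with y hy
      rw [ht]
      exact fun h => absurd h hy
  obtain ⟨g, hg⟩ := exists_contMDiffMap_forall_mem_convex_of_local_const (n := ⊤)
    (modelWithCornersSelf ℝ E) hconv hloc
  refine ⟨g, contMDiff_iff_contDiff.1 g.contMDiff, fun x hx => ?_⟩
  have h1 := hg x
  rw [ht] at h1
  exact h1 hx

end Pool.Agent.Lib.MP_6b3014_an.Sm
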