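import Pool.Agent.Lib.MP_6b3014_an.Sm.Defs2

open MeasureTheory Set
open scoped RealInnerProductSpace ContDiff Topology

noncomputable section

namespace Pool.Agent.Lib.MP_6b3014_an.Sm

theorem N6_bound (P : Set (E × E)) (hP : IsCompact P) (t q : E × E → ℝ) (ht : Continuous t)
    (hq : Continuous q) (hpos : ∀ p ∈ P, 0 < t p) :
    ∃ l0 : ℝ, ∀ l : ℝ, l0 ≤ l → ∀ p ∈ P, 0 < l * t p + q p := by
  rcases P.eq_empty_or_nonempty with h | hne
  · subst h
    exact ⟨0, fun l _ p hp => absurd hp (notMem_empty p)⟩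
  · obtain ⟨p1, hp1, h1⟩ := hP.exists_isMinOn hne ht.continuousOn
    obtain ⟨p0, hp0, h0⟩ := hP.exists_isMinOn hne hq.continuousOn
    have hm : 0 < t p1 := hpos p1 hp1
    refine ⟨(|q p0| + 1) / t p1, fun l hl p hp => ?_⟩
    have e1 : t p1 ≤ t p := h1 hp
    have e0 : q p0 ≤ q p := h0 hp
    have hl0 : 0 ≤ l := le_trans (by positivity) hl
    have e2 : |q p0| + 1 ≤ l * t p1 := by
      have := (div_le_iff₀ hm).1 hl
      linarith
    have e3 : l * t p1 ≤ l * t p := mul_le_mul_of_nonneg_left e1 hl0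
    have e4 : - q p0 ≤ |q p0| := neg_le_abs _
    linarith

theorem N6_tr_cont : Continuous fun M : E →L[ℝ] E => tr M := by
  unfold tr
  refine continuous_finsetSum _ fun i _ => ?_
  have h1 : Continuous fun M : E →L[ℝ] E => M (EuclideanSpace.single i (1 : ℝ)) :=
    (ContinuousLinearMap.apply ℝ E (EuclideanSpace.single i (1 : ℝ))).continuous
  exact (EuclideanSpace.proj i : E →L[ℝ] ℝ).continuous.comp h1

theorem N6_quad_cont (b : E → E) (hb : ContDiff ℝ ∞ b) :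
    Continuous fun p : E × E => quad (fderiv ℝ b p.1) p.2 := by
  have h1 : Continuous fun p : E × E => fderiv ℝ b p.1 :=
    (hb.continuous_fderiv (by simp)).comp continuous_fst
  unfold quad
  exact ((h1.clm_apply continuous_snd).inner continuous_snd).const_mul 3 |>.sub
    (N6_tr_cont.comp h1)

theorem N6_theta_cont (u : E → ℝ) (hu : ContDiff ℝ ∞ u) (b : E → E) (hb : ContDiff ℝ ∞ b) :
    Continuous fun p : E × E =>
      3 * fderiv ℝ u p.1 p.2 * ⟪b p.1, p.2⟫ - fderiv ℝ u p.1 (b p.1) := by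
  have h1 : Continuous fun p : E × E => fderiv ℝ u p.1 :=
    (hu.continuous_fderiv (by simp)).comp continuous_fst
  have h2 : Continuous fun p : E × E => b p.1 := hb.continuous.comp continuous_fst
  exact (((h1.clm_apply continuous_snd).const_mul 3).mul (h2.inner continuous_snd)).sub
    (h1.clm_apply h2)

theorem N6_compact (Q : Set E) (hQ : IsCompact Q) (T : Set (E × E)) (hT : IsClosed T)
    (hT1 : ∀ p ∈ T, ‖p.2‖ = 1) : IsCompact {p : E × E | p.1 ∈ Q ∧ p ∈ T} := by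
  have h : {p : E × E | p.1 ∈ Q ∧ p ∈ T} = (Q ×ˢ Metric.sphere (0 : E) 1) ∩ T := by
    ext p
    constructor
    · rintro ⟨h1, h2⟩
      exact ⟨⟨h1, mem_sphere_zero_iff_norm.2 (hT1 p h2)⟩, h2⟩
    · rintro ⟨⟨h1, _⟩, h2⟩
      exact ⟨h1, h2⟩
  rw [h]
  exact (hQ.prod (isCompact_sphere (0 : E) 1)).inter_right hT

theorem lambda_gen (Q : Set E) (hQ : IsCompact Q) (T B : Set (E × E)) (hT : IsClosed T)
    (hB : IsClosed B) (hT1 : ∀ p ∈ T, ‖p.2‖ = 1) (hB1 : ∀ p ∈ B, ‖p.2‖ = 1)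
    (u : E → ℝ) (hu : ContDiff ℝ ∞ u) (b : E → E) (hb : ContDiff ℝ ∞ b)
    (hgood : ∀ x ∈ Q,
      (∀ y, (x, y) ∈ T → 0 < 3 * fderiv ℝ u x y * ⟪b x, y⟫ - fderiv ℝ u x (b x)) ∧
      (∀ z, (x, z) ∈ B → 3 * fderiv ℝ u x z * ⟪b x, z⟫ - fderiv ℝ u x (b x) < 0)) :
    ∃ l : ℝ, ∀ x ∈ Q,
      (∀ y, (x, y) ∈ T →
        0 < quad (fderiv ℝ (fun p => Real.exp (l * u p) • b p) x) y) ∧
      (∀ z, (x, z) ∈ B → quad (fderiv ℝ (fun p => Real.exp (l * u p) • b p) x) z < 0) := by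
  have hq := N6_quad_cont b hb
  have ht := N6_theta_cont u hu b hb
  obtain ⟨l1, h1⟩ := N6_bound _ (N6_compact Q hQ T hT hT1) _ _ ht hq
    (fun p hp => (hgood p.1 hp.1).1 p.2 hp.2)
  obtain ⟨l2, h2⟩ := N6_bound _ (N6_compact Q hQ B hB hB1) _ _ ht.neg hq.neg
    (fun p hp => by
      have := (hgood p.1 hp.1).2 p.2 hp.2
      simp only [Pi.neg_apply]
      linarith)
  refine ⟨max l1 l2, fun x hx => ⟨fun y hy => ?_, fun z hz => ?_⟩⟩
  · rw [quad_exp u b hu hb]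
    exact mul_pos (Real.exp_pos _) (h1 _ (le_max_left _ _) (x, y) ⟨hx, hy⟩)
  · rw [quad_exp u b hu hb]
    have h := h2 _ (le_max_right l1 l2) (x, z) ⟨hx, hz⟩
    simp only [Pi.neg_apply] at h
    refine mul_neg_of_pos_of_neg (Real.exp_pos _) ?_
    linarith

end Pool.Agent.Lib.MP_6b3014_an.Sm
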