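import Pool.Agent.Lib.MP_6b3014_an.Sm.Defs2
import Pool.Agent.Lib.MP_6b3014_an.Sm.E1
import Pool.Agent.Lib.MP_6b3014_an.Sm.A0b

open MeasureTheory Set
open scoped RealInnerProductSpace ContDiff Topology

noncomputable section

namespace Pool.Agent.Lib.MP_6b3014_an.Sm

theorem N7_near (U : Set E) (hU : IsOpen U) (x y : E) (hxU : x ∈ U) (F : E × E → ℝ)
    (hF : ContinuousAt F (x, y)) (hpos : 0 < F (x, y)) :
    ∃ r : ℝ, 0 < r ∧ ∀ x' y' : E, ‖x' - x‖ < r → ‖y' - y‖ < r → x' ∈ U ∧ 0 < F (x', y') := by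
  have h1 : ∀ᶠ p in 𝓝 (x, y), 0 < F p := hF.eventually (lt_mem_nhds hpos)
  have h2 : ∀ᶠ p : E × E in 𝓝 (x, y), p.1 ∈ U :=
    continuousAt_fst.eventually (hU.mem_nhds hxU)
  obtain ⟨r, hr, h⟩ := Metric.eventually_nhds_iff.1 (h2.and h1)
  refine ⟨r, hr, fun x' y' hx' hy' => ?_⟩
  have hd : dist ((x', y') : E × E) (x, y) < r := by
    rw [Prod.dist_eq]
    exact max_lt (by rw [dist_eq_norm]; exact hx') (by rw [dist_eq_norm]; exact hy')
  exact h hd

/-- Where `f` is `C^1`, cluster directions are extremal directions of the derivative. -/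
theorem topCl_c1 (K : ℝ) (D : Set E) (hD : IsOpen D) (U : Set E) (hU : IsOpen U)
    (G Df : E → E →L[ℝ] E) (hG : ContinuousOn G U)
    (hae : ∀ᵐ x ∂(volume.restrict D), Dil K (Df x)) (hGD : ∀ x ∈ D ∩ U, Df x = G x)
    (x : E) (hx : x ∈ closure D) (hxU : x ∈ U) (hdet : 0 < (G x).det) (y : E)
    (hy : TopCl K D Df x y) : Top K (G x) y := by
  have hd := dil_closure K D hD U hU G Df hG hae hGD x hx hxU hdet
  have h1 := (((dil_iff K (G x)).1 hd).2 y hy.1).1
  refine ⟨hy.1, ?_⟩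
  by_contra hne
  have hlt : ‖G x y‖ ^ 3 < K * (G x).det := lt_of_le_of_ne h1 hne
  have hq : ‖G x y‖ ^ 3 / (G x).det < K := by
    rw [div_lt_iff₀ hdet]; exact hlt
  obtain ⟨c, hc1, hc2⟩ := exists_between hq
  rw [div_lt_iff₀ hdet] at hc1
  have hGx : ContinuousAt G x := hG.continuousAt (hU.mem_nhds hxU)
  have hG1 : ContinuousAt (fun p : E × E => G p.1) (x, y) :=
    ContinuousAt.comp (g := G) (f := Prod.fst) (x := (x, y)) hGx continuousAt_fst
  have hdetc : ContinuousAt (fun p : E × E => (G p.1).det) (x, y) :=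
    (ContinuousLinearMap.continuous_det.continuousAt).comp hG1
  have hF : ContinuousAt (fun p : E × E => c * (G p.1).det - ‖G p.1 p.2‖ ^ 3) (x, y) :=
    (continuousAt_const.mul hdetc).sub (((hG1.clm_apply continuousAt_snd).norm).pow 3)
  obtain ⟨r, hr, h⟩ := N7_near U hU x y hxU _ hF (by simpa using hc1)
  refine hy.2 r hr c hc2 ?_
  filter_upwards [ae_restrict_mem hD.measurableSet] with x' hx' hxr y' _ hyr
  obtain ⟨hU', hpos⟩ := h x' y' hxr hyr
  rw [hGD x' ⟨hx', hU'⟩]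
  have : 0 < c * (G x').det - ‖G x' y'‖ ^ 3 := hpos
  linarith

theorem botCl_c1 (K : ℝ) (D : Set E) (hD : IsOpen D) (U : Set E) (hU : IsOpen U)
    (G Df : E → E →L[ℝ] E) (hG : ContinuousOn G U)
    (hae : ∀ᵐ x ∂(volume.restrict D), Dil K (Df x)) (hGD : ∀ x ∈ D ∩ U, Df x = G x)
    (x : E) (hx : x ∈ closure D) (hxU : x ∈ U) (hdet : 0 < (G x).det) (z : E)
    (hz : BotCl K D Df x z) : Bot K (G x) z := by
  have hd := dil_closure K D hD U hU G Df hG hae hGD x hx hxU hdet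
  have h1 := (((dil_iff K (G x)).1 hd).2 z hz.1).2
  refine ⟨hz.1, ?_⟩
  by_contra hne
  have hlt : (G x).det < K * ‖G x z‖ ^ 3 := lt_of_le_of_ne h1 hne
  have hp : 0 < ‖G x z‖ ^ 3 := by
    rcases eq_or_lt_of_le (norm_nonneg (G x z)) with h0 | h0
    · exfalso
      rw [← h0] at hlt
      norm_num at hlt
      linarith
    · positivity
  have hq : (G x).det / ‖G x z‖ ^ 3 < K := by
    rw [div_lt_iff₀ hp]; exact hlt
  obtain ⟨c, hc1, hc2⟩ := exists_between hq
  rw [div_lt_iff₀ hp] at hc1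
  have hGx : ContinuousAt G x := hG.continuousAt (hU.mem_nhds hxU)
  have hG1 : ContinuousAt (fun p : E × E => G p.1) (x, z) :=
    ContinuousAt.comp (g := G) (f := Prod.fst) (x := (x, z)) hGx continuousAt_fst
  have hdetc : ContinuousAt (fun p : E × E => (G p.1).det) (x, z) :=
    (ContinuousLinearMap.continuous_det.continuousAt).comp hG1
  have hF : ContinuousAt (fun p : E × E => c * ‖G p.1 p.2‖ ^ 3 - (G p.1).det) (x, z) :=
    (continuousAt_const.mul (((hG1.clm_apply continuousAt_snd).norm).pow 3)).sub hdetc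
  obtain ⟨r, hr, h⟩ := N7_near U hU x z hxU _ hF (by simpa using hc1)
  refine hz.2 r hr c hc2 ?_
  filter_upwards [ae_restrict_mem hD.measurableSet] with x' hx' hxr y' _ hyr
  obtain ⟨hU', hpos⟩ := h x' y' hxr hyr
  rw [hGD x' ⟨hx', hU'⟩]
  have : 0 < c * ‖G x' y'‖ ^ 3 - (G x').det := hpos
  linarith

end Pool.Agent.Lib.MP_6b3014_an.Sm
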