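import Pool.Agent.Lib.MP_6b3014_an.Sm.Defs2
import Pool.Agent.Lib.MP_6b3014_an.Sm.A0b

open MeasureTheory Set
open scoped RealInnerProductSpace ContDiff Topology

noncomputable section

namespace Pool.Agent.Lib.MP_6b3014_an.Sm

theorem not_topCl (K K₀ : ℝ) (h : K₀ < K) (D : Set E) (Df : E → E →L[ℝ] E)
    (hae : ∀ᵐ x ∂(volume.restrict D), Dil K (Df x))
    (hO : ∀ᵐ x ∂(volume.restrict D), kO (Df x) ≤ K₀) (x y : E) : ¬ TopCl K D Df x y := by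
  rintro ⟨-, hcl⟩
  refine hcl 1 one_pos K₀ h ?_
  filter_upwards [hae, hO] with x' h1 h2 _ y' hy' _
  have h3 : ‖Df x' y'‖ ≤ ‖Df x'‖ := by
    have h4 := (Df x').le_opNorm y'
    rwa [hy', mul_one] at h4
  have h5 : ‖Df x'‖ ^ 3 ≤ K₀ * (Df x').det := by
    have h6 := h2
    unfold kO at h6
    exact (div_le_iff₀ h1.1).1 h6
  exact (pow_le_pow_left₀ (norm_nonneg _) h3 3).trans h5

theorem not_botCl (K K₀ : ℝ) (h : K₀ < K) (D : Set E) (Df : E → E →L[ℝ] E)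
    (hae : ∀ᵐ x ∂(volume.restrict D), Dil K (Df x))
    (hI : ∀ᵐ x ∂(volume.restrict D), kI (Df x) ≤ K₀) (x z : E) : ¬ BotCl K D Df x z := by
  rintro ⟨-, hcl⟩
  refine hcl 1 one_pos K₀ h ?_
  filter_upwards [hae, hI] with x' h1 h2 _ z' hz' _
  have hm : 0 < minStretch (Df x') := minStretch_pos (Df x') h1.1
  have hm3 : 0 < minStretch (Df x') ^ 3 := pow_pos hm 3
  have h3 : minStretch (Df x') ≤ ‖Df x' z'‖ := minStretch_le (Df x') z' hz'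
  have hk : 0 < kI (Df x') := div_pos h1.1 hm3
  have hK₀ : 0 ≤ K₀ := hk.le.trans h2
  have h5 : (Df x').det ≤ K₀ * minStretch (Df x') ^ 3 := by
    have h6 := h2
    unfold kI at h6
    exact (div_le_iff₀ hm3).1 h6
  exact h5.trans (mul_le_mul_of_nonneg_left (pow_le_pow_left₀ hm.le h3 3) hK₀)

/-- The vector `b = 2 ⟪p, e⟫ e - p` is good for all directions `y` with `⟪e, y⟫ ^ 2 > 2 / 3`. -/
theorem cap_b (p e y : E) (hp : p ≠ 0) (he : ‖e‖ = 1) (hy : ‖y‖ = 1)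
    (h : 2 / 3 < ⟪e, y⟫ ^ 2) :
    0 < 3 * ⟪p, y⟫ * ⟪(2 * ⟪p, e⟫) • e - p, y⟫ - ⟪p, (2 * ⟪p, e⟫) • e - p⟫ := by
  have hee : ⟪e, e⟫ = (1 : ℝ) := by rw [real_inner_self_eq_norm_sq, he]; norm_num
  have hyy : ⟪y, y⟫ = (1 : ℝ) := by rw [real_inner_self_eq_norm_sq, hy]; norm_num
  have hpp : (0 : ℝ) < ⟪p, p⟫ := real_inner_self_pos.2 hp
  have h1 : ⟪(2 * ⟪p, e⟫) • e - p, y⟫ = 2 * ⟪p, e⟫ * ⟪e, y⟫ - ⟪p, y⟫ := by
    rw [inner_sub_left, real_inner_smul_left]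
  have h2 : ⟪p, (2 * ⟪p, e⟫) • e - p⟫ = 2 * ⟪p, e⟫ * ⟪p, e⟫ - ⟪p, p⟫ := by
    rw [inner_sub_right, real_inner_smul_right]
  have h3 : ⟪p - ⟪p, e⟫ • e, y - ⟪e, y⟫ • e⟫ = ⟪p, y⟫ - ⟪p, e⟫ * ⟪e, y⟫ := by
    rw [inner_sub_left, inner_sub_right, inner_sub_right, real_inner_smul_left,
      real_inner_smul_left, real_inner_smul_right, real_inner_smul_right, hee]
    ring
  have h4 : ⟪p - ⟪p, e⟫ • e, p - ⟪p, e⟫ • e⟫ = ⟪p, p⟫ - ⟪p, e⟫ ^ 2 := by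
    rw [inner_sub_left, inner_sub_right, inner_sub_right, real_inner_smul_left,
      real_inner_smul_left, real_inner_smul_right, real_inner_smul_right, hee,
      real_inner_comm p e]
    ring
  have h5 : ⟪y - ⟪e, y⟫ • e, y - ⟪e, y⟫ • e⟫ = 1 - ⟪e, y⟫ ^ 2 := by
    rw [inner_sub_left, inner_sub_right, inner_sub_right, real_inner_smul_left,
      real_inner_smul_left, real_inner_smul_right, real_inner_smul_right, hee, hyy,
      real_inner_comm y e]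
    ring
  have h6 := real_inner_mul_inner_self_le (p - ⟪p, e⟫ • e) (y - ⟪e, y⟫ • e)
  rw [h3, h4, h5] at h6
  rw [h1, h2]
  generalize ⟪p, y⟫ = t at *
  generalize ⟪p, e⟫ = c at *
  generalize ⟪e, y⟫ = s at *
  generalize ⟪p, p⟫ = q at *
  have h7 : 0 < q * (3 * s ^ 2 - 2) := mul_pos hpp (by linarith)
  nlinarith [sq_nonneg c, h7, h6]

end Pool.Agent.Lib.MP_6b3014_an.Sm
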