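import Pool.Agent.Lib.MP_6b3014_an.Sm.A3
import Pool.Agent.Lib.MP_6b3014_an.Sm.A3b
import Pool.Agent.Lib.MP_6b3014_an.Sm.A4

open MeasureTheory Set
open scoped RealInnerProductSpace ContDiff Topology

noncomputable section

namespace Pool.Agent.Lib.MP_6b3014_an.Sm

/-- The plane orthogonal to a unit vector is a null set. -/
theorem R1_null (y : E) (hy : ‖y‖ = 1) : volume {p : E | ⟪p, y⟫ = 0} = 0 := by
  have hne : ((ℝ ∙ y)ᗮ : Submodule ℝ E) ≠ ⊤ := by
    intro h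
    have h1 : y ∈ ((ℝ ∙ y)ᗮ : Submodule ℝ E) := by rw [h]; trivial
    rw [Submodule.mem_orthogonal_singleton_iff_inner_left] at h1
    rw [real_inner_self_eq_norm_sq, hy] at h1
    norm_num at h1
  have h2 : {p : E | ⟪p, y⟫ = 0} = (((ℝ ∙ y)ᗮ : Submodule ℝ E) : Set E) := by
    ext p
    simp only [mem_ofPred_eq, SetLike.mem_coe]
    rw [Submodule.mem_orthogonal_singleton_iff_inner_left]
  rw [h2]
  exact Measure.addHaar_submodule volume _ hne

/-- The bad directions at one point form a null set. -/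
theorem R1_bad (K : ℝ) (hK : 1 < K) (A : E →L[ℝ] E) (h : Dil K A) :
    volume {p : E | ∃ y z : E, Top K A y ∧ Bot K A z ∧ ⟪p, y⟫ = 0 ∧ ⟪p, z⟫ = 0} = 0 := by
  by_cases hex : ∃ y : E, Top K A y
  · obtain ⟨y0, hy0⟩ := hex
    refine measure_mono_null ?_ (R1_null y0 hy0.1)
    rintro p ⟨y, z, hy, _, h1, _⟩
    simp only [mem_ofPred_eq]
    rcases top_unique K hK A h y0 y hy0 hy with e | e
    · rwa [e] at h1
    · rw [e, inner_neg_right, neg_eq_zero] at h1
      exact h1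
  · refine measure_mono_null ?_ (measure_empty (μ := (volume : Measure E)))
    rintro p ⟨y, z, hy, _⟩
    exact absurd ⟨y, hy⟩ hex

/-- For countably many points there is a direction `p` that is not orthogonal to both the top and
the bottom axis at any of them: the bad `p` at one point form a line (top and bottom axes are unique
up to sign and orthogonal), hence a null set. -/
theorem exists_dir (K : ℝ) (hK : 1 < K) (S : Set E) (hS : S.Countable) (G : E → E →L[ℝ] E)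
    (hdil : ∀ x ∈ S, Dil K (G x)) :
    ∃ p : E, p ≠ 0 ∧ ∀ x ∈ S, ∀ y z : E, Top K (G x) y → Bot K (G x) z →
      ⟪p, y⟫ ≠ 0 ∨ ⟪p, z⟫ ≠ 0 := by
  have h1 : volume (⋃ x ∈ S, {p : E | ∃ y z : E, Top K (G x) y ∧ Bot K (G x) z ∧
      ⟪p, y⟫ = 0 ∧ ⟪p, z⟫ = 0}) = 0 :=
    (measure_biUnion_null_iff hS).2 fun x hx => R1_bad K hK (G x) (hdil x hx)
  have h2 : volume ((⋃ x ∈ S, {p : E | ∃ y z : E, Top K (G x) y ∧ Bot K (G x) z ∧
      ⟪p, y⟫ = 0 ∧ ⟪p, z⟫ = 0}) ∪ {(0 : E)}) = 0 :=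
    measure_union_null h1 (by simp)
  have h3 : ∃ p : E, p ∉ ((⋃ x ∈ S, {p : E | ∃ y z : E, Top K (G x) y ∧ Bot K (G x) z ∧
      ⟪p, y⟫ = 0 ∧ ⟪p, z⟫ = 0}) ∪ {(0 : E)}) := by
    by_contra hcon
    push Not at hcon
    have h4 := eq_univ_of_forall hcon
    rw [h4] at h2
    exact (NeZero.ne (volume : Measure E)) (Measure.measure_univ_eq_zero.1 h2)
  obtain ⟨p, hp⟩ := h3
  refine ⟨p, fun h0 => hp (Or.inr h0), fun x hx y z hy hz => ?_⟩
  by_contra hcon
  rw [not_or, not_not, not_not] at hcon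
  exact hp (Or.inl (mem_iUnion₂.2 ⟨x, hx, y, z, hy, hz, hcon.1, hcon.2⟩))

end Pool.Agent.Lib.MP_6b3014_an.Sm
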