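import Pool.Agent.Lib.MP_6b3014_an.Sm.T2

open MeasureTheory Set
open scoped RealInnerProductSpace ContDiff Topology

noncomputable section

namespace Pool.Agent.Lib.MP_6b3014_an.Sm

/-- the first unit vector in an orthogonal frame -/
theorem T3_frame (y z p : E) (hy : ‖y‖ = 1) (hz : ‖z‖ = 1) (hyz : ⟪y, z⟫ = 0) (hp0 : p 0 = 1)
    (hpy : ⟪p, y⟫ = 0) (hpz : ⟪p, z⟫ = 0) :
    ∃ r s t : ℝ, t ≠ 0 ∧ ez = r • y + s • z + t • p := by
  have hp : p ≠ 0 := by
    rintro rfl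
    simp at hp0
  have hnp : ‖p‖ ≠ 0 := norm_ne_zero_iff.2 hp
  have hn1 : ‖‖p‖⁻¹ • p‖ = 1 := by
    rw [norm_smul, norm_inv, norm_norm, inv_mul_cancel₀ hnp]
  have hon : Orthonormal ℝ ![y, z, ‖p‖⁻¹ • p] := by
    constructor
    · intro i
      fin_cases i
      · exact hy
      · exact hz
      · exact hn1
    · intro i j hij
      fin_cases i <;> fin_cases j
      · exact absurd rfl hij
      · exact hyz
      · show ⟪y, ‖p‖⁻¹ • p⟫ = (0 : ℝ)
        rw [inner_smul_right, real_inner_comm, hpy, mul_zero]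
      · show ⟪z, y⟫ = (0 : ℝ)
        rw [real_inner_comm]
        exact hyz
      · exact absurd rfl hij
      · show ⟪z, ‖p‖⁻¹ • p⟫ = (0 : ℝ)
        rw [inner_smul_right, real_inner_comm, hpz, mul_zero]
      · show ⟪‖p‖⁻¹ • p, y⟫ = (0 : ℝ)
        rw [real_inner_smul_left, hpy, mul_zero]
      · show ⟪‖p‖⁻¹ • p, z⟫ = (0 : ℝ)
        rw [real_inner_smul_left, hpz, mul_zero]
      · exact absurd rfl hij
  have hcard : Module.finrank ℝ E = Fintype.card (Fin 3) := by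
    rw [finrank_euclideanSpace]
  obtain ⟨b, hb⟩ := (hon.comp (fun i : (Set.univ : Set (Fin 3)) => (i : Fin 3))
    Subtype.val_injective).exists_orthonormalBasis_extension_of_card_eq
      (v := ![y, z, ‖p‖⁻¹ • p]) (s := Set.univ) hcard
  have hb0 : b 0 = y := hb 0 (Set.mem_univ _)
  have hb1 : b 1 = z := hb 1 (Set.mem_univ _)
  have hb2 : b 2 = ‖p‖⁻¹ • p := hb 2 (Set.mem_univ _)
  have hsum := b.sum_repr' ez
  rw [Fin.sum_univ_three, hb0, hb1, hb2] at hsum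
  have hpe : ⟪p, ez⟫ = (1 : ℝ) := by
    unfold ez
    rw [EuclideanSpace.inner_single_right]
    simp [hp0]
  refine ⟨⟪y, ez⟫, ⟪z, ez⟫, ‖p‖⁻¹ * ‖p‖⁻¹, mul_ne_zero (inv_ne_zero hnp) (inv_ne_zero hnp), ?_⟩
  rw [real_inner_smul_left, hpe, mul_one, smul_smul] at hsum
  exact hsum.symm

/-- `PK A` maps the first unit vector to a nonzero multiple of `p`. -/
theorem PK_ez (K : ℝ) (hK : 1 < K) (A : E →L[ℝ] E) (h : Dil K A) (y z p : E)
    (hy : Top K A y) (hz : Bot K A z) (hp0 : p 0 = 1) (hpy : ⟪p, y⟫ = 0) (hpz : ⟪p, z⟫ = 0) :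
    ∃ c : ℝ, c ≠ 0 ∧ PK K A ez = c • p := by
  have hp : p ≠ 0 := by
    rintro rfl
    simp at hp0
  obtain ⟨ey, ez', ep⟩ := eig_three K hK A h y z p hy hz hp hpy hpz
  obtain ⟨r, s, t, ht, he⟩ := T3_frame y z p hy.1 hz.1 (top_bot_orth K hK A h y z hy hz) hp0 hpy hpz
  have hd : 0 < dd A := Real.rpow_pos_of_pos h.1 _
  have h1 : 1 < K ^ ((2 : ℝ) / 3) := Real.one_lt_rpow hK (by norm_num)
  have h2 : K ^ (-(2 : ℝ) / 3) < 1 := Real.rpow_lt_one_of_one_lt_of_neg hK (by norm_num)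
  have hPK : ∀ v : E, PK K A v =
      ContinuousLinearMap.adjoint A (A (ContinuousLinearMap.adjoint A (A v) -
        (K ^ (-(2 : ℝ) / 3) * dd A) • v)) - (K ^ ((2 : ℝ) / 3) * dd A) •
        (ContinuousLinearMap.adjoint A (A v) - (K ^ (-(2 : ℝ) / 3) * dd A) • v) := by
    intro v
    rfl
  have hPy : PK K A y = 0 := by
    rw [hPK, ey, ← sub_smul, map_smul, map_smul, ey]
    module
  have hPz : PK K A z = 0 := by
    rw [hPK, ez', sub_self]
    simp
  have hPp : PK K A p = ((dd A - K ^ (-(2 : ℝ) / 3) * dd A) * (dd A - K ^ ((2 : ℝ) / 3) * dd A)) • p := by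
    rw [hPK, ep, ← sub_smul, map_smul, map_smul, ep]
    module
  refine ⟨t * ((dd A - K ^ (-(2 : ℝ) / 3) * dd A) * (dd A - K ^ ((2 : ℝ) / 3) * dd A)), ?_, ?_⟩
  · refine mul_ne_zero ht (mul_ne_zero ?_ ?_)
    · have : dd A - K ^ (-(2 : ℝ) / 3) * dd A = (1 - K ^ (-(2 : ℝ) / 3)) * dd A := by ring
      rw [this]
      exact mul_ne_zero (by linarith) hd.ne'
    · have : dd A - K ^ ((2 : ℝ) / 3) * dd A = (1 - K ^ ((2 : ℝ) / 3)) * dd A := by ring
      rw [this]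
      exact mul_ne_zero (by linarith) hd.ne'
  · rw [he, map_add, map_add, map_smul, map_smul, map_smul, hPy, hPz, hPp]
    simp [smul_smul]

end Pool.Agent.Lib.MP_6b3014_an.Sm
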