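import Pool.Agent.Lib.MP_6b3014_an.Sm.T0

open MeasureTheory Set
open scoped RealInnerProductSpace ContDiff Topology

noncomputable section

namespace Pool.Agent.Lib.MP_6b3014_an.Sm

/-- The open set of maps `A` with positive determinant and nonzero first coordinate of `PK A ez`. -/
def Om (K : ℝ) : Set (E →L[ℝ] E) := {A | 0 < A.det ∧ (PK K A ez) 0 ≠ 0}

/-- The quotients of the coordinates of `PK A ez`. -/
def Ph (K : ℝ) (A : E →L[ℝ] E) : Fin 2 → ℝ :=
  ![(PK K A ez) 1 / (PK K A ez) 0, (PK K A ez) 2 / (PK K A ez) 0]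

theorem T4_det : ContDiff ℝ 1 (fun A : E →L[ℝ] E => A.det) := by
  have h : ∀ A : E →L[ℝ] E, A.det = (LinearMap.toMatrix (EuclideanSpace.basisFun (Fin 3) ℝ).toBasis
      (EuclideanSpace.basisFun (Fin 3) ℝ).toBasis (A : E →ₗ[ℝ] E)).det := fun A =>
    (LinearMap.det_toMatrix _ _).symm
  have h1 : (fun A : E →L[ℝ] E => A.det) = fun A => (Matrix.of fun i j : Fin 3 =>
      (A (EuclideanSpace.single j 1)) i).det := by
    funext A
    rw [h A]
    have h5 : LinearMap.toMatrix (EuclideanSpace.basisFun (Fin 3) ℝ).toBasis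
        (EuclideanSpace.basisFun (Fin 3) ℝ).toBasis (A : E →ₗ[ℝ] E) =
        Matrix.of fun i j : Fin 3 => (A (EuclideanSpace.single j 1)) i := by
      ext i j
      simp [LinearMap.toMatrix_apply]
    rw [h5]
  rw [h1]
  have h2 : ∀ i j : Fin 3, ContDiff ℝ 1 fun A : E →L[ℝ] E => (A (EuclideanSpace.single j 1)) i := by
    intro i j
    have h3 : ContDiff ℝ 1 fun A : E →L[ℝ] E => A (EuclideanSpace.single j (1 : ℝ)) :=
      contDiff_id.clm_apply contDiff_const
    exact (EuclideanSpace.proj (𝕜 := ℝ) i).contDiff.comp h3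
  simp only [Matrix.det_fin_three, Matrix.of_apply]
  fun_prop

theorem T4_adj : ContDiff ℝ 1 (fun A : E →L[ℝ] E => ContinuousLinearMap.adjoint A) := by
  have h : IsBoundedLinearMap ℝ (fun A : E →L[ℝ] E => ContinuousLinearMap.adjoint A) :=
    { map_add := fun A B => map_add _ A B
      map_smul := fun c A => by
        rw [map_smulₛₗ]
        simp
      bound := ⟨1, one_pos, fun A => by simp⟩ }
  exact h.contDiff

theorem T4_PK (K : ℝ) : ContDiffOn ℝ 1 (fun A : E →L[ℝ] E => PK K A) {A | 0 < A.det} := by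
  have hd : ContDiffOn ℝ 1 (fun A : E →L[ℝ] E => dd A) {A | 0 < A.det} := by
    intro A hA
    have h1 : ContDiffAt ℝ 1 (fun A : E →L[ℝ] E => A.det) A := T4_det.contDiffAt
    exact (h1.rpow_const_of_ne (ne_of_gt hA)).contDiffWithinAt
  have hc : ContDiffOn ℝ 1 (fun A : E →L[ℝ] E => ContinuousLinearMap.adjoint A ∘L A) {A | 0 < A.det} :=
    (T4_adj.clm_comp contDiff_id).contDiffOn
  have hs : ∀ c : ℝ, ContDiffOn ℝ 1 (fun A : E →L[ℝ] E => (ContinuousLinearMap.adjoint A ∘L A) -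
      (c * dd A) • ContinuousLinearMap.id ℝ E) {A | 0 < A.det} := fun c =>
    hc.sub ((contDiffOn_const.mul hd).smul contDiffOn_const)
  exact (hs _).clm_comp (hs _)

theorem T4_co (K : ℝ) (i : Fin 3) : ContDiffOn ℝ 1 (fun A : E →L[ℝ] E => (PK K A ez) i)
    {A | 0 < A.det} := by
  have h1 : ContDiffOn ℝ 1 (fun A : E →L[ℝ] E => PK K A ez) {A | 0 < A.det} :=
    (T4_PK K).clm_apply contDiffOn_const
  exact (EuclideanSpace.proj (𝕜 := ℝ) i).contDiff.comp_contDiffOn h1

theorem isOpen_Om (K : ℝ) : IsOpen (Om K) := by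
  have h1 : IsOpen {A : E →L[ℝ] E | 0 < A.det} :=
    isOpen_lt continuous_const ContinuousLinearMap.continuous_det
  have h2 := (T4_co K 0).continuousOn.isOpen_inter_preimage h1 (isOpen_ne (x := (0 : ℝ)))
  exact h2

theorem contDiffOn_Ph (K : ℝ) : ContDiffOn ℝ 1 (Ph K) (Om K) := by
  have hm : ∀ i : Fin 3, ContDiffOn ℝ 1 (fun A : E →L[ℝ] E => (PK K A ez) i) (Om K) := fun i =>
    (T4_co K i).mono fun A hA => hA.1
  have h0 : ∀ A ∈ Om K, (PK K A ez) 0 ≠ 0 := fun A hA => hA.2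
  rw [contDiffOn_pi]
  intro j
  fin_cases j
  · exact (hm 1).div (hm 0) h0
  · exact (hm 2).div (hm 0) h0

end Pool.Agent.Lib.MP_6b3014_an.Sm
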