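import Pool.Agent.Lib.MP_6b3014_an.Sm.T1
import Pool.Agent.Lib.MP_6b3014_an.Sm.T3
import Pool.Agent.Lib.MP_6b3014_an.Sm.T4

open MeasureTheory Set
open scoped RealInnerProductSpace ContDiff Topology

noncomputable section

namespace Pool.Agent.Lib.MP_6b3014_an.Sm

theorem T5_exists_point (s : Set (Fin 2 → ℝ)) (hs : μH[2] s = 0) : ∃ q : Fin 2 → ℝ, q ∉ s := by
  by_contra hcon
  push Not at hcon
  have hv : (μH[2] : Measure (Fin 2 → ℝ)) = volume := by
    have h := hausdorffMeasure_pi_real (ι := Fin 2)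
    simpa using h
  have h1 : (volume : Measure (Fin 2 → ℝ)) Set.univ = 0 := by
    rw [← hv]
    exact measure_mono_null (fun q _ => hcon q) hs
  exact (isOpen_univ.measure_pos (volume : Measure (Fin 2 → ℝ)) ⟨0, trivial⟩).ne' h1

/-- If `G` is Lipschitz on `S` and `S` has zero two-dimensional Hausdorff measure, there is a
direction `p` that is not orthogonal to both the top and the bottom axis at any point of `S`. -/
theorem exists_dir_lip (K : ℝ) (hK : 1 < K) (S : Set E) (hS : μH[2] S = 0)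
    (G : E → E →L[ℝ] E) (L : NNReal) (hG : LipschitzOnWith L G S)
    (hdil : ∀ x ∈ S, Dil K (G x)) :
    ∃ p : E, p ≠ 0 ∧ ∀ x ∈ S, ∀ y z : E, Top K (G x) y → Bot K (G x) z →
      ⟪p, y⟫ ≠ 0 ∨ ⟪p, z⟫ ≠ 0 := by
  have hN : μH[2] (G '' S) = 0 := by
    have h1 := hG.hausdorffMeasure_image_le (d := 2) (by norm_num)
    rw [hS, mul_zero] at h1
    exact le_antisymm h1 zero_le
  have hI := null_image (Ph K) (Om K) (isOpen_Om K) (contDiffOn_Ph K) (G '' S) hN
  obtain ⟨q, hq⟩ := T5_exists_point _ hI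
  have hp0 : (!₂[1, q 0, q 1] : E) 0 = 1 := by simp
  have hp1 : (!₂[1, q 0, q 1] : E) 1 = q 0 := by simp
  have hp2 : (!₂[1, q 0, q 1] : E) 2 = q 1 := by simp
  refine ⟨!₂[1, q 0, q 1], ?_, ?_⟩
  · intro h0
    rw [h0] at hp0
    simp at hp0
  · intro x hx y z hy hz
    by_contra hcon
    push Not at hcon
    obtain ⟨c, hc, hPK⟩ := PK_ez K hK (G x) (hdil x hx) y z _ hy hz hp0 hcon.1 hcon.2
    have e0 : (PK K (G x) ez) 0 = c := by
      rw [hPK, PiLp.smul_apply, hp0, smul_eq_mul, mul_one]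
    have e1 : (PK K (G x) ez) 1 = c * q 0 := by
      rw [hPK, PiLp.smul_apply, hp1, smul_eq_mul]
    have e2 : (PK K (G x) ez) 2 = c * q 1 := by
      rw [hPK, PiLp.smul_apply, hp2, smul_eq_mul]
    refine hq ⟨G x, ⟨⟨x, hx, rfl⟩, (hdil x hx).1, by rw [e0]; exact hc⟩, ?_⟩
    unfold Ph
    rw [e0, e1, e2, mul_div_cancel_left₀ _ hc, mul_div_cancel_left₀ _ hc]
    ext i
    fin_cases i <;> simp

end Pool.Agent.Lib.MP_6b3014_an.Sm
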