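import Pool.Agent.Lib.MP_6b3014_an.Sm.Main2
import Pool.Agent.Lib.MP_6b3014_an.Sm.N4
import Pool.Agent.Lib.MP_6b3014_an.Sm.N5
import Pool.Agent.Lib.MP_6b3014_an.Sm.N6
import Pool.Agent.Lib.MP_6b3014_an.Sm.N7
import Pool.Agent.Lib.MP_6b3014_an.Sm.N8
import Pool.Agent.Lib.MP_6b3014_an.Sm.R1
import Pool.Agent.Lib.MP_6b3014_an.Sm.T5
import Pool.Agent.Lib.MP_6b3014_an.Sm.B1
import Pool.Agent.Lib.MP_6b3014_an.Sm.E1
import Pool.Agent.Lib.MP_6b3014_an.Sm.A0b

open MeasureTheory Set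
open scoped RealInnerProductSpace ContDiff Topology

noncomputable section

namespace Pool.Agent.Lib.MP_6b3014_an.Sm

/-- `GradCond` gives a vector field `e^{lu} b` with the right signs on the cluster directions. -/
theorem cluster_of_grad (K : ℝ) (D Q : Set E) (hQ : IsCompact Q) (Df : E → E →L[ℝ] E)
    (h : GradCond K D Q Df) : ∃ w : E → E, ContDiff ℝ ∞ w ∧
      (∀ x ∈ Q ∩ closure D, ∀ y, TopCl K D Df x y → 0 < quad (fderiv ℝ w x) y) ∧
      (∀ x ∈ Q ∩ closure D, ∀ y, BotCl K D Df x y → quad (fderiv ℝ w x) y < 0) := by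
  obtain ⟨u, hu, hx⟩ := h
  have hQ' : IsCompact (Q ∩ closure D) := hQ.inter_right isClosed_closure
  obtain ⟨b, hb, hgood⟩ := select_gen (Q ∩ closure D) hQ' {p : E × E | TopCl K D Df p.1 p.2}
    {p : E × E | BotCl K D Df p.1 p.2} (isClosed_topCl K D Df) (isClosed_botCl K D Df)
    (fun p hp => hp.1) (fun p hp => hp.1) (fderiv ℝ u) (hu.continuous_fderiv (by simp)) (by
      intro x hxQ
      obtain ⟨b, h1, h2⟩ := hx x hxQ
      refine ⟨b, fun y hy => ?_, fun z hz => ?_⟩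
      · have := h1 y hy
        rw [mul_assoc]
        linarith
      · have := h2 z hz
        rw [mul_assoc]
        linarith)
  obtain ⟨l, hl⟩ := lambda_gen (Q ∩ closure D) hQ' {p : E × E | TopCl K D Df p.1 p.2}
    {p : E × E | BotCl K D Df p.1 p.2} (isClosed_topCl K D Df) (isClosed_botCl K D Df)
    (fun p hp => hp.1) (fun p hp => hp.1) u hu b hb hgood
  exact ⟨fun p => Real.exp (l * u p) • b p, ((contDiff_const.mul hu).exp).smul hb,
    fun x hxQ y hy => (hl x hxQ).1 y hy, fun x hxQ z hz => (hl x hxQ).2 z hz⟩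

theorem exists_linear (e : E) : ∃ u : E → ℝ, ContDiff ℝ ∞ u ∧
    ∀ x y : E, fderiv ℝ u x y = ⟪e, y⟫ := by
  refine ⟨fun x => ⟪e, x⟫, (innerSL ℝ e).contDiff, fun x y => ?_⟩
  have : (fun x : E => ⟪e, x⟫) = (innerSL ℝ e : E →L[ℝ] ℝ) := by
    funext x
    simp
  rw [this, (innerSL ℝ e).fderiv]
  simp

/-- `ConeCond` implies `GradCond`. -/
theorem grad_of_cone (K : ℝ) (D Q : Set E) (Df : E → E →L[ℝ] E)
    (h : ConeCond K D Q Df) : GradCond K D Q Df := by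
  have hne : (EuclideanSpace.single (0 : Fin 3) (1 : ℝ) : E) ≠ 0 := by
    intro h
    have := congrArg norm h
    simp at this
  set p : E := EuclideanSpace.single (0 : Fin 3) (1 : ℝ) with hp
  obtain ⟨u, hu, hul⟩ := exists_linear p
  refine ⟨u, hu, fun x hx => ?_⟩
  obtain ⟨e, he, ⟨h1, h3⟩ | ⟨h1, h3⟩⟩ := h x hx
  · refine ⟨(2 * ⟪p, e⟫) • e - p, fun y hy => ?_, fun z hz => absurd hz (h1 z)⟩
    have h4 := cap_b p e y hne he hy.1 (h3 y hy)
    rw [hul, hul]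
    rw [mul_assoc] at h4
    linarith
  · refine ⟨-((2 * ⟪p, e⟫) • e - p), fun y hy => absurd hy (h1 y), fun z hz => ?_⟩
    have h4 := cap_b p e z hne he hz.1 (h3 z hz)
    rw [hul, hul, inner_neg_right, inner_neg_left]
    rw [mul_assoc] at h4
    linarith

/-- `SmoothCond` implies `GradCond`. -/
theorem grad_of_smooth (K : ℝ) (hK : 1 < K) (D : Set E) (hD : IsOpen D) (Q U : Set E)
    (hU : IsOpen U) (hQU : Q ⊆ U) (f : E → E) (Df : E → E →L[ℝ] E)
    (hae : ∀ᵐ x ∂(volume.restrict D), Dil K (Df x))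
    (h : SmoothCond K D Q U f Df) : GradCond K D Q Df := by
  obtain ⟨F, hF, hdet, hfF, halt⟩ := h
  have hGU : ContinuousOn (fderiv ℝ F) U := hF.continuousOn_fderiv_of_isOpen hU le_rfl
  have hdil : ∀ x ∈ Q ∩ closure D, Dil K (fderiv ℝ F x) := fun x hx =>
    dil_closure K D hD U hU (fderiv ℝ F) Df hGU hae (fun y hy => (hfF y hy).2) x hx.2
      (hQU hx.1) (hdet x hx)
  have htop : ∀ x ∈ Q ∩ closure D, ∀ y, TopCl K D Df x y → Top K (fderiv ℝ F x) y :=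
    fun x hx y hy => topCl_c1 K D hD U hU (fderiv ℝ F) Df hGU hae (fun y hy => (hfF y hy).2) x
      hx.2 (hQU hx.1) (hdet x hx) y hy
  have hbot : ∀ x ∈ Q ∩ closure D, ∀ y, BotCl K D Df x y → Bot K (fderiv ℝ F x) y :=
    fun x hx y hy => botCl_c1 K D hD U hU (fderiv ℝ F) Df hGU hae (fun y hy => (hfF y hy).2) x
      hx.2 (hQU hx.1) (hdet x hx) y hy
  rcases halt with (⟨K₀, hK₀, hI⟩ | ⟨K₀, hK₀, hO⟩) | halt
  · refine grad_of_cone K D Q Df fun x hx => ?_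
    by_cases hex : ∃ y, TopCl K D Df x y
    · obtain ⟨y, hy⟩ := hex
      refine ⟨y, hy.1, Or.inl ⟨fun z => not_botCl K K₀ hK₀ D Df hae hI x z, fun y' hy' => ?_⟩⟩
      rcases top_unique K hK _ (hdil x hx) y y' (htop x hx y hy) (htop x hx y' hy') with h | h
      · rw [h, real_inner_self_eq_norm_sq, hy.1]
        norm_num
      · rw [h, inner_neg_right, real_inner_self_eq_norm_sq, hy.1]
        norm_num
    · exact ⟨EuclideanSpace.single (0 : Fin 3) (1 : ℝ), by simp,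
        Or.inl ⟨fun z => not_botCl K K₀ hK₀ D Df hae hI x z, fun y hy => absurd ⟨y, hy⟩ hex⟩⟩
  · refine grad_of_cone K D Q Df fun x hx => ?_
    by_cases hex : ∃ y, BotCl K D Df x y
    · obtain ⟨y, hy⟩ := hex
      refine ⟨y, hy.1, Or.inr ⟨fun z => not_topCl K K₀ hK₀ D Df hae hO x z, fun y' hy' => ?_⟩⟩
      rcases bot_unique K hK _ (hdil x hx) y y' (hbot x hx y hy) (hbot x hx y' hy') with h | h
      · rw [h, real_inner_self_eq_norm_sq, hy.1]
        norm_num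
      · rw [h, inner_neg_right, real_inner_self_eq_norm_sq, hy.1]
        norm_num
    · exact ⟨EuclideanSpace.single (0 : Fin 3) (1 : ℝ), by simp,
        Or.inr ⟨fun z => not_topCl K K₀ hK₀ D Df hae hO x z, fun y hy => absurd ⟨y, hy⟩ hex⟩⟩
  obtain ⟨u, hu, hmid⟩ : ∃ u : E → ℝ, ContDiff ℝ ∞ u ∧ ∀ x ∈ Q ∩ closure D,
      fderiv ℝ u x ≠ 0 ∧ ∀ y z, Top K (fderiv ℝ F x) y → Bot K (fderiv ℝ F x) z →
        fderiv ℝ u x y ≠ 0 ∨ fderiv ℝ u x z ≠ 0 := by
    have hlin : (∃ p : E, p ≠ 0 ∧ ∀ x ∈ Coin K D Q F, ∀ y z : E, Top K (fderiv ℝ F x) y →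
        Bot K (fderiv ℝ F x) z → ⟪p, y⟫ ≠ 0 ∨ ⟪p, z⟫ ≠ 0) → ∃ u : E → ℝ, ContDiff ℝ ∞ u ∧
        ∀ x ∈ Q ∩ closure D, fderiv ℝ u x ≠ 0 ∧ ∀ y z, Top K (fderiv ℝ F x) y →
          Bot K (fderiv ℝ F x) z → fderiv ℝ u x y ≠ 0 ∨ fderiv ℝ u x z ≠ 0 := by
      rintro ⟨p, hp, hp2⟩
      obtain ⟨u, hu, hul⟩ := exists_linear p
      refine ⟨u, hu, fun x hx => ⟨fun h0 => ?_, fun y z hy hz => ?_⟩⟩
      · have h1 := hul x p
        rw [h0] at h1
        have h2 : ⟪p, p⟫ = (0 : ℝ) := by rw [← h1]; rfl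
        exact hp (inner_self_eq_zero.mp h2)
      · rw [hul, hul]
        exact hp2 x ⟨hx, (top_norm K _ (hdil x hx) y hy).2, (bot_norm K _ (hdil x hx) z hz).2⟩
          y z hy hz
    rcases halt with hcount | ⟨h2, L, hL⟩ | ⟨u, hu, hmid⟩
    · exact hlin (exists_dir K hK _ hcount (fderiv ℝ F) (fun x hx => hdil x hx.1))
    · exact hlin (exists_dir_lip K hK _ h2 (fderiv ℝ F) L hL (fun x hx => hdil x hx.1))
    · refine ⟨u, hu, fun x hx => ⟨(hmid x hx).1, fun y z hy hz => ?_⟩⟩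
      have h1 := top_norm K _ (hdil x hx) y hy
      have h2 := bot_norm K _ (hdil x hx) z hz
      exact (hmid x hx).2 ⟨hx, h1.2, h2.2⟩ y z hy.1 hz.1 h1.1 h2.1
  refine ⟨u, hu, fun x hx => ?_⟩
  obtain ⟨b, hb1, hb2⟩ := good_nonempty K hK _ (hdil x hx) (fderiv ℝ u x) (hmid x hx).1
    (hmid x hx).2
  refine ⟨b, fun y hy => ?_, fun z hz => ?_⟩
  · have := hb1 y (htop x hx y hy)
    rw [mul_assoc] at this
    linarith
  · have := hb2 z (hbot x hx z hz)
    rw [mul_assoc] at this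
    linarith

theorem final (D D' : Set E) (hD : IsOpen D)
    (K : ℝ) (hK : 1 < K) (f : E → E) (Df : E → E →L[ℝ] E) (hf : IsQC K D D' f Df)
    (U : Set E) (hU : IsOpen U) (hyp : Hyp K D U f Df)
    (δ : ℝ) (hδ : 0 < δ) : Factors K D D' U f δ := by
  rcases hyp with hfield | ⟨Q, c, hQ, hQU, hc, hcD, h⟩
  · exact main_field D D' hD K hK f Df hf U hfield δ hδ
  · have hgrad : GradCond K D Q Df := by
      rcases h with h | h | h
      · exact grad_of_cone K D Q Df h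
      · exact h
      · exact grad_of_smooth K hK D hD Q U hU hQU f Df hf.dil h
    obtain ⟨w, hw, ht, hb⟩ := cluster_of_grad K D Q hQ Df hgrad
    exact main_field D D' hD K hK f Df hf U
      (field_of_cluster D hD K hK Df hf.dil Q U hQ hU hQU c hc hcD w hw ht hb) δ hδ

end Pool.Agent.Lib.MP_6b3014_an.Sm
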