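import Pool.Agent.Lib.MP_6b3014_an.Sm.Defs

open MeasureTheory Set
open scoped RealInnerProductSpace ContDiff Topology

noncomputable section

namespace Pool.Agent.Lib.MP_6b3014_an.Sm

/-- `id + ε v` is a smooth diffeomorphism of the space for small `ε`. -/
theorem exists_homeo_lip (v : E → E) (hv : ContDiff ℝ ∞ v) (C : NNReal)
    (hC : LipschitzWith C v) :
    ∃ ε₀ : ℝ, 0 < ε₀ ∧ ∀ ε : ℝ, 0 < ε → ε ≤ ε₀ → ∃ h : E ≃ₜ E,
      (∀ x, h x = x + ε • v x) ∧ ContDiff ℝ ∞ h ∧ ContDiff ℝ ∞ h.symm := by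
  refine ⟨1 / (2 * ((C : ℝ) + 1)), by positivity, ?_⟩
  intro ε hε hε1
  have hC0 : (0 : ℝ) ≤ (C : ℝ) := C.coe_nonneg
  have hεC : ε * (C : ℝ) ≤ 1 / 2 := by
    have h1 : ε * ((C : ℝ) + 1) ≤ 1 / 2 := by
      calc ε * ((C : ℝ) + 1) ≤ 1 / (2 * ((C : ℝ) + 1)) * ((C : ℝ) + 1) :=
            mul_le_mul_of_nonneg_right hε1 (by positivity)
        _ = 1 / 2 := by field_simp
    nlinarith
  have happ : ApproximatesLinearOn (fun x : E => x + ε • v x)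
      ((ContinuousLinearEquiv.refl ℝ E : E ≃L[ℝ] E) : E →L[ℝ] E) univ (1 / 2 : NNReal) := by
    intro x _ y _
    have h1 : (x + ε • v x) - (y + ε • v y) -
        ((ContinuousLinearEquiv.refl ℝ E : E ≃L[ℝ] E) : E →L[ℝ] E) (x - y)
        = ε • (v x - v y) := by
      simp only [ContinuousLinearEquiv.coe_refl, ContinuousLinearMap.coe_id', id_eq]
      rw [smul_sub]
      abel
    show ‖(x + ε • v x) - (y + ε • v y) -
        ((ContinuousLinearEquiv.refl ℝ E : E ≃L[ℝ] E) : E →L[ℝ] E) (x - y)‖ ≤ _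
    rw [h1, norm_smul, Real.norm_eq_abs, abs_of_pos hε]
    have h2 : ‖v x - v y‖ ≤ C * ‖x - y‖ := by
      have := hC.dist_le_mul x y
      rwa [dist_eq_norm, dist_eq_norm] at this
    have h3 : ((1 / 2 : NNReal) : ℝ) = 1 / 2 := by norm_num
    rw [h3]
    calc ε * ‖v x - v y‖ ≤ ε * (C * ‖x - y‖) := mul_le_mul_of_nonneg_left h2 hε.le
      _ = (ε * C) * ‖x - y‖ := by ring
      _ ≤ 1 / 2 * ‖x - y‖ := mul_le_mul_of_nonneg_right hεC (norm_nonneg _)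
  have hlt : Subsingleton E ∨ (1 / 2 : NNReal) <
      ‖((ContinuousLinearEquiv.refl ℝ E : E ≃L[ℝ] E).symm : E →L[ℝ] E)‖₊⁻¹ := by
    right
    have h1 : ‖((ContinuousLinearEquiv.refl ℝ E : E ≃L[ℝ] E).symm : E →L[ℝ] E)‖₊ = 1 := by
      rw [ContinuousLinearEquiv.refl_symm, ContinuousLinearEquiv.coe_refl]
      exact ContinuousLinearMap.nnnorm_id
    rw [h1, inv_one]
    rw [← NNReal.coe_lt_coe]
    norm_num
  have hsm : ContDiff ℝ ∞ (fun x : E => x + ε • v x) :=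
    contDiff_id.add (hv.const_smul ε)
  refine ⟨happ.toHomeomorph _ hlt, fun x => rfl, hsm, ?_⟩
  have hnorm : ∀ a : E, ‖-(ε • fderiv ℝ v a)‖ < 1 := by
    intro a
    rw [norm_neg, norm_smul, Real.norm_eq_abs, abs_of_pos hε]
    have h1 : ‖fderiv ℝ v a‖ ≤ C := norm_fderiv_le_of_lipschitz ℝ hC
    have h2 : ε * ‖fderiv ℝ v a‖ ≤ ε * C := mul_le_mul_of_nonneg_left h1 hε.le
    linarith
  refine Homeomorph.contDiff_symm (happ.toHomeomorph _ hlt)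
    (f₀' := fun a => ContinuousLinearEquiv.ofUnit (Units.oneSub (-(ε • fderiv ℝ v a)) (hnorm a)))
    ?_ hsm
  intro a
  have hd : HasFDerivAt (fun x : E => x + ε • v x)
      (ContinuousLinearMap.id ℝ E + ε • fderiv ℝ v a) a :=
    (hasFDerivAt_id a).add (((hv.differentiable (by simp)) a).hasFDerivAt.const_smul ε)
  have he : ((ContinuousLinearEquiv.ofUnit
      (Units.oneSub (-(ε • fderiv ℝ v a)) (hnorm a)) : E ≃L[ℝ] E) : E →L[ℝ] E)
      = ContinuousLinearMap.id ℝ E + ε • fderiv ℝ v a := by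
    ext1 w
    show ((Units.oneSub (-(ε • fderiv ℝ v a)) (hnorm a) : (E →L[ℝ] E)ˣ) : E →L[ℝ] E) w = _
    rw [Units.val_oneSub, sub_neg_eq_add]
    rfl
  rw [he]
  exact hd

theorem exists_homeo (v : E → E) (hv : ContDiff ℝ ∞ v) (hc : HasCompactSupport v) :
    ∃ ε₀ : ℝ, 0 < ε₀ ∧ ∀ ε : ℝ, 0 < ε → ε ≤ ε₀ → ∃ h : E ≃ₜ E,
      (∀ x, h x = x + ε • v x) ∧ ContDiff ℝ ∞ h ∧ ContDiff ℝ ∞ h.symm := by
  obtain ⟨C, hC⟩ := ContDiff.lipschitzWith_of_hasCompactSupport (𝕂 := ℝ) hc hv (by simp)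
  exact exists_homeo_lip v hv C hC

end Pool.Agent.Lib.MP_6b3014_an.Sm
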