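import Pool.Agent.Lib.MP_6b3014_an.Sm.Defs

open MeasureTheory Set
open scoped RealInnerProductSpace ContDiff Topology

noncomputable section

namespace Pool.Agent.Lib.MP_6b3014_an.Sm

theorem fderiv_h (v : E → E) (hv : ContDiff ℝ ∞ v) (ε : ℝ) (h : E ≃ₜ E)
    (hh : ∀ x, h x = x + ε • v x) (hs : ContDiff ℝ ∞ h.symm) (x : E) :
    fderiv ℝ h x = pert ε (fderiv ℝ v x) ∧
      fderiv ℝ h.symm (h x) ∘L pert ε (fderiv ℝ v x) = ContinuousLinearMap.id ℝ E := by
  have hvx : HasFDerivAt v (fderiv ℝ v x) x :=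
    ((hv.differentiable (by simp)) x).hasFDerivAt
  have hfun : (fun x => h x) = fun x => x + ε • v x := funext hh
  have h1 : HasFDerivAt (fun x => h x) (pert ε (fderiv ℝ v x)) x := by
    rw [hfun]
    exact (hasFDerivAt_id x).add (hvx.const_smul ε)
  have h2 : HasFDerivAt (fun x => h.symm x) (fderiv ℝ h.symm (h x)) (h x) :=
    ((hs.differentiable (by simp)) (h x)).hasFDerivAt
  refine ⟨h1.fderiv, ?_⟩
  have h3 : HasFDerivAt (fun x => h.symm (h x))
      (fderiv ℝ h.symm (h x) ∘L pert ε (fderiv ℝ v x)) x := h2.comp x h1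
  have h4 : (fun x => h.symm (h x)) = fun x => x := funext fun x => h.symm_apply_apply x
  rw [h4] at h3
  exact h3.unique (hasFDerivAt_id x)

/-- A bijection that is the identity off `P` maps every set containing `P` onto itself. -/
theorem image_eq (h : E ≃ₜ E) (P : Set E) (hP : ∀ x, x ∉ P → h x = x) (U : Set E)
    (hPU : P ⊆ U) : h '' U = U := by
  have key : ∀ x, x ∈ U ↔ h x ∈ U := by
    intro x
    constructor
    · intro hx
      by_contra hn
      have h1 : h x ∉ P := fun h2 => hn (hPU h2)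
      have h3 : h (h x) = h x := hP _ h1
      have h4 : h x = x := h.injective h3
      exact hn (h4.symm ▸ hx)
    · intro hx
      by_contra hn
      have h1 : x ∉ P := fun h2 => hn (hPU h2)
      rw [hP x h1] at hx
      exact hn hx
  ext y
  constructor
  · rintro ⟨x, hx, rfl⟩
    exact (key x).1 hx
  · intro hy
    refine ⟨h.symm y, (key _).2 ?_, h.apply_symm_apply y⟩
    rw [h.apply_symm_apply]
    exact hy

/-- Off the closed set `P` the inverse has derivative the identity. -/
theorem fderiv_symm_off (h : E ≃ₜ E) (P : Set E) (hPc : IsClosed P)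
    (hP : ∀ x, x ∉ P → h x = x) (y : E) (hy : y ∉ P) :
    h.symm y = y ∧ fderiv ℝ h.symm y = ContinuousLinearMap.id ℝ E := by
  have key : ∀ z, z ∉ P → h.symm z = z := by
    intro z hz
    rw [Homeomorph.symm_apply_eq]
    exact (hP z hz).symm
  refine ⟨key y hy, ?_⟩
  have hev : (fun z => h.symm z) =ᶠ[𝓝 y] fun z => z := by
    filter_upwards [hPc.isOpen_compl.mem_nhds hy] with z hz
    exact key z hz
  have h1 : HasFDerivAt (fun z => h.symm z) (ContinuousLinearMap.id ℝ E) y :=
    (hasFDerivAt_id y).congr_of_eventuallyEq hev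
  exact h1.fderiv

end Pool.Agent.Lib.MP_6b3014_an.Sm
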