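import Pool.Agent.Lib.MP_6b3014_an.Sm.D5
import Pool.Agent.Lib.MP_6b3014_an.Sm.D1
import Pool.Agent.Lib.MP_6b3014_an.Sm.D2
import Pool.Agent.Lib.MP_6b3014_an.Sm.Defs2

open MeasureTheory Set
open scoped RealInnerProductSpace ContDiff Topology

noncomputable section

namespace Pool.Agent.Lib.MP_6b3014_an.Sm

theorem N2_close (x t T C C' ε : ℝ) (hT : |t| ≤ T) (hC : 0 ≤ C) (hCC : C ≤ C') (hε : 0 < ε)
    (he1 : ε ≤ 1) (he2 : ε * (2 * (T + C')) ≤ 1) (hx : |x - (1 + ε * t)| ≤ C * ε ^ 2) :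
    1 / 2 ≤ x ∧ x ≤ 2 := by
  rw [abs_le] at hT hx
  have h1 : ε * t ≤ ε * T := mul_le_mul_of_nonneg_left hT.2 hε.le
  have h2 : ε * (-T) ≤ ε * t := mul_le_mul_of_nonneg_left hT.1 hε.le
  have h3 : ε ^ 2 ≤ ε * 1 := by
    rw [pow_two]
    exact mul_le_mul_of_nonneg_left he1 hε.le
  have h4 : C * ε ^ 2 ≤ C * (ε * 1) := mul_le_mul_of_nonneg_left h3 hC
  have h5 : C * ε ≤ C' * ε := mul_le_mul_of_nonneg_right hCC hε.le
  have e1 : ε * (2 * (T + C')) = 2 * (ε * T) + 2 * (C' * ε) := by ring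
  have e2 : ε * (-T) = - (ε * T) := by ring
  have e3 : C * (ε * 1) = C * ε := by ring
  rw [e1] at he2
  rw [e2] at h2
  rw [e3] at h4
  constructor
  · linarith [hx.1]
  · linarith [hx.2]

theorem N2_one (K c1 m M0 C1 C2 ε a D d p s u : ℝ) (hK : 1 < K) (hc1 : 0 ≤ c1) (hc1K : c1 < K)
    (hm : 0 < m) (hM0 : 0 ≤ M0) (hC1 : 0 < C1) (hC2 : 0 < C2) (hε : 0 < ε) (he1 : ε ≤ 1)
    (he3 : ε * (4 * (c1 * (6 * M0 + (C1 + C2)) + 1)) ≤ K - c1)
    (he4 : ε * (2 * ((C1 + C2) + 1)) ≤ m) (hs : |s| ≤ 3 * M0) (hu : |u| ≤ 3 * M0)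
    (hp : |p - (1 + ε * s)| ≤ C1 * ε ^ 2) (hd : |d - (1 + ε * u)| ≤ C2 * ε ^ 2)
    (hp1 : 1 / 2 ≤ p) (hp2 : p ≤ 2) (hd1 : 1 / 2 ≤ d) (ha : 0 ≤ a) (hD : 0 ≤ D) (k1 : a ≤ K * D)
    (g1 : a ≤ c1 * D ∨ m ≤ s - u) :
    a * d ≤ max ((K + c1) / 2) (K * (1 - ε * m / 4)) * (D * p) := by
  have hDp : 0 ≤ D * p := mul_nonneg hD (by linarith)
  rw [abs_le] at hp hd hs hu
  have hε2 : ε ^ 2 ≤ ε := by
    rw [pow_two]
    calc ε * ε ≤ ε * 1 := mul_le_mul_of_nonneg_left he1 hε.le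
      _ = ε := mul_one ε
  have q1 : C1 * ε ^ 2 ≤ C1 * ε := mul_le_mul_of_nonneg_left hε2 hC1.le
  have q2 : C2 * ε ^ 2 ≤ C2 * ε := mul_le_mul_of_nonneg_left hε2 hC2.le
  rcases g1 with g1 | g1
  · set R : ℝ := 6 * M0 + (C1 + C2) with hR
    have hRpos : 0 < R := by positivity
    have hsu : ε * (u - s) ≤ ε * (6 * M0) :=
      mul_le_mul_of_nonneg_left (by linarith [hs.1, hu.2]) hε.le
    have e1 : ε * (u - s) = ε * u - ε * s := by ring
    have e2 : R * ε = ε * (6 * M0) + C1 * ε + C2 * ε := by rw [hR]; ring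
    have hdp : d ≤ p + R * ε := by
      rw [e2]
      rw [e1] at hsu
      linarith [hp.1, hd.2]
    have hRε : 0 ≤ R * ε := by positivity
    have hdp2 : d ≤ p * (1 + 2 * R * ε) := by
      have h1 : (1 / 2) * (2 * (R * ε)) ≤ p * (2 * (R * ε)) :=
        mul_le_mul_of_nonneg_right hp1 (by linarith)
      have e3 : p * (1 + 2 * R * ε) = p + p * (2 * (R * ε)) := by ring
      rw [e3]
      linarith
    have hfirst : c1 * (1 + 2 * R * ε) ≤ (K + c1) / 2 := by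
      have e3 : ε * (4 * (c1 * R + 1)) = 4 * (c1 * R * ε) + 4 * ε := by ring
      have e4 : c1 * (1 + 2 * R * ε) = c1 + 2 * (c1 * R * ε) := by ring
      rw [e3] at he3
      rw [e4]
      linarith
    have h2 : a * d ≤ (c1 * D) * (p * (1 + 2 * R * ε)) :=
      mul_le_mul g1 hdp2 (by linarith) (mul_nonneg hc1 hD)
    have h3 : (c1 * D) * (p * (1 + 2 * R * ε)) = (c1 * (1 + 2 * R * ε)) * (D * p) := by ring
    have h4 : (c1 * (1 + 2 * R * ε)) * (D * p) ≤ (K + c1) / 2 * (D * p) :=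
      mul_le_mul_of_nonneg_right hfirst hDp
    have h5 : (K + c1) / 2 * (D * p) ≤ max ((K + c1) / 2) (K * (1 - ε * m / 4)) * (D * p) :=
      mul_le_mul_of_nonneg_right (le_max_left _ _) hDp
    exact h2.trans (h3.le.trans (h4.trans h5))
  · have h1 : ε * m ≤ ε * (s - u) := mul_le_mul_of_nonneg_left g1 hε.le
    have e1 : ε * (s - u) = ε * s - ε * u := by ring
    have hCε : C1 * ε ^ 2 + C2 * ε ^ 2 ≤ ε * m / 2 := by
      have h6 : ε * (ε * (2 * ((C1 + C2) + 1))) ≤ ε * m := mul_le_mul_of_nonneg_left he4 hε.le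
      have e2 : ε * (ε * (2 * ((C1 + C2) + 1))) = 2 * (C1 * ε ^ 2 + C2 * ε ^ 2) + 2 * ε ^ 2 := by
        ring
      rw [e2] at h6
      have h7 : 0 ≤ ε ^ 2 := by positivity
      linarith
    have h0 : d ≤ p - ε * m / 2 := by
      rw [e1] at h1
      linarith [hp.1, hd.2]
    have h8 : d ≤ p * (1 - ε * m / 4) := by
      have h9 : p * (ε * m / 4) ≤ 2 * (ε * m / 4) :=
        mul_le_mul_of_nonneg_right hp2 (by positivity)
      have e3 : p * (1 - ε * m / 4) = p - p * (ε * m / 4) := by ring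
      rw [e3]
      linarith
    have h2 : a * d ≤ (K * D) * (p * (1 - ε * m / 4)) :=
      mul_le_mul k1 h8 (by linarith) (mul_nonneg (by linarith) hD)
    have h3 : (K * D) * (p * (1 - ε * m / 4)) = (K * (1 - ε * m / 4)) * (D * p) := by ring
    have h5 : (K * (1 - ε * m / 4)) * (D * p) ≤
        max ((K + c1) / 2) (K * (1 - ε * m / 4)) * (D * p) :=
      mul_le_mul_of_nonneg_right (le_max_right _ _) hDp
    exact h2.trans (h3.le.trans h5)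

/-- The pointwise estimate: no compactness, `K'` depends only on `ε`. -/
theorem dil_crit (K c m M0 : ℝ) (hK : 1 < K) (hc : c < K) (hm : 0 < m) (hM0 : 0 ≤ M0) :
    ∃ ε₀ : ℝ, 0 < ε₀ ∧ ∀ ε : ℝ, 0 < ε → ε ≤ ε₀ → ∃ K' : ℝ, K' < K ∧
      ∀ A M B : E →L[ℝ] E, Dil K A → ‖M‖ ≤ M0 → B ∘L pert ε M = A →
        (∀ y : E, ‖y‖ = 1 → (‖A y‖ ^ 3 ≤ c * A.det ∨ m ≤ quad M y) ∧
          (A.det ≤ c * ‖A y‖ ^ 3 ∨ quad M y ≤ -m)) → Dil K' B := by
  obtain ⟨C1, hC1, hb1⟩ := cube_bound M0 hM0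
  obtain ⟨C2, hC2, hb2⟩ := det_bound M0 hM0
  obtain ⟨c1, hc1n, hc1K, hcc1⟩ : ∃ c1 : ℝ, 0 ≤ c1 ∧ c1 < K ∧ c ≤ c1 :=
    ⟨max c 0, le_max_right _ _, max_lt hc (by linarith), le_max_left _ _⟩
  have hKc : 0 < K - c1 := by linarith
  have hpos1 : 0 < 2 * (3 * M0 + (C1 + C2)) := by positivity
  have hpos2 : 0 < 4 * (c1 * (6 * M0 + (C1 + C2)) + 1) := by positivity
  have hpos3 : 0 < 2 * ((C1 + C2) + 1) := by positivity
  refine ⟨min 1 (min (1 / (2 * (3 * M0 + (C1 + C2)))) (min ((K - c1) /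
    (4 * (c1 * (6 * M0 + (C1 + C2)) + 1))) (m / (2 * ((C1 + C2) + 1))))),
    lt_min one_pos (lt_min (div_pos one_pos hpos1) (lt_min (div_pos hKc hpos2)
      (div_pos hm hpos3))), ?_⟩
  intro ε hε hε0
  have he1 : ε ≤ 1 := hε0.trans (min_le_left _ _)
  have he2 : ε ≤ 1 / (2 * (3 * M0 + (C1 + C2))) :=
    hε0.trans ((min_le_right _ _).trans (min_le_left _ _))
  have he3 : ε ≤ (K - c1) / (4 * (c1 * (6 * M0 + (C1 + C2)) + 1)) :=
    hε0.trans ((min_le_right _ _).trans ((min_le_right _ _).trans (min_le_left _ _)))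
  have he4 : ε ≤ m / (2 * ((C1 + C2) + 1)) :=
    hε0.trans ((min_le_right _ _).trans ((min_le_right _ _).trans (min_le_right _ _)))
  rw [le_div_iff₀ hpos1] at he2
  rw [le_div_iff₀ hpos2] at he3
  rw [le_div_iff₀ hpos3] at he4
  refine ⟨max ((K + c1) / 2) (K * (1 - ε * m / 4)), ?_, ?_⟩
  · apply max_lt (by linarith)
    have h1 : 0 < K * (ε * m / 4) := by
      have : 0 < K := by linarith
      positivity
    have e1 : K * (1 - ε * m / 4) = K - K * (ε * m / 4) := by ring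
    rw [e1]
    linarith
  intro A M B hA hM hB hy
  rw [dil_iff] at hA
  obtain ⟨hD, hA⟩ := hA
  have hdet := hb2 M hM ε hε.le he1
  have htr : |tr M| ≤ 3 * M0 := (tr_bound M).trans (by linarith)
  obtain ⟨hd1, hd2⟩ := N2_close _ _ (3 * M0) C2 (C1 + C2) ε htr hC2.le (by linarith) hε he1 he2 hdet
  apply dil_of_comp _ A M B ε hD (by linarith) hB
  intro y hy1
  obtain ⟨g1, g2⟩ := hy y hy1
  obtain ⟨k1, k2⟩ := hA y hy1
  have hp := hb1 M hM ε hε.le he1 y hy1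
  have hin : |3 * (⟪M y, y⟫ : ℝ)| ≤ 3 * M0 := by
    have h1 : |(⟪M y, y⟫ : ℝ)| ≤ ‖M y‖ * ‖y‖ := abs_real_inner_le_norm _ _
    have h2 : ‖M y‖ ≤ ‖M‖ * ‖y‖ := M.le_opNorm y
    rw [hy1, mul_one] at h1 h2
    rw [abs_mul, abs_of_pos (by norm_num : (0 : ℝ) < 3)]
    linarith
  obtain ⟨hp1, hp2⟩ := N2_close _ _ (3 * M0) C1 (C1 + C2) ε hin hC1.le (by linarith) hε he1 he2 hp
  have hq : quad M y = 3 * ⟪M y, y⟫ - tr M := rfl
  have ha0 : 0 ≤ ‖A y‖ ^ 3 := by positivity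
  have e1 : C2 + C1 = C1 + C2 := add_comm _ _
  constructor
  · apply N2_one K c1 m M0 C1 C2 ε _ _ _ _ (3 * ⟪M y, y⟫) (tr M) hK hc1n hc1K hm hM0 hC1 hC2 hε he1
      he3 he4 hin htr hp hdet hp1 hp2 hd1 ha0 hD.le k1
    rcases g1 with g1 | g1
    · exact Or.inl (g1.trans (mul_le_mul_of_nonneg_right hcc1 hD.le))
    · exact Or.inr (by rw [hq] at g1; exact g1)
  · apply N2_one K c1 m M0 C2 C1 ε _ _ _ _ (tr M) (3 * ⟪M y, y⟫) hK hc1n hc1K hm hM0 hC2 hC1 hε he1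
      (by rw [e1]; exact he3) (by rw [e1]; exact he4) htr hin hdet hp hd1 hd2 hp1 hD.le ha0 k2
    rcases g2 with g2 | g2
    · exact Or.inl (g2.trans (mul_le_mul_of_nonneg_right hcc1 ha0))
    · exact Or.inr (by rw [hq] at g2; linarith)

end Pool.Agent.Lib.MP_6b3014_an.Sm
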