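import Pool.Agent.Lib.MP_6b3014_an.Sm.Defs2

open MeasureTheory Set
open scoped RealInnerProductSpace ContDiff Topology

noncomputable section

namespace Pool.Agent.Lib.MP_6b3014_an.Sm

theorem N3b_upper {α : Type} (c : α → ℝ) (K : ℝ) (s : Finset α) :
    (∀ p ∈ s, c p < K) → ∃ c0 : ℝ, c0 < K ∧ ∀ p ∈ s, c p ≤ c0 := by
  classical
  induction s using Finset.induction_on with
  | empty => exact fun _ => ⟨K - 1, by linarith, by simp⟩
  | insert a s ha ih =>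
    intro h
    obtain ⟨c0, h0, h1⟩ := ih (fun p hp => h p (Finset.mem_insert_of_mem hp))
    refine ⟨max (c a) c0, max_lt (h a (Finset.mem_insert_self a s)) h0, ?_⟩
    intro p hp
    rcases Finset.mem_insert.1 hp with rfl | hp
    · exact le_max_left _ _
    · exact (h1 p hp).trans (le_max_right _ _)

theorem cluster_bot (K : ℝ) (hK : 0 < K) (D : Set E) (hD : IsOpen D) (Q : Set E)
    (hQ : IsCompact Q) (Df : E → E →L[ℝ] E)
    (hpos : ∀ᵐ x ∂(volume.restrict D), 0 < (Df x).det) (q : E → E → ℝ)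
    (hq : Continuous fun p : E × E => q p.1 p.2)
    (ht : ∀ x ∈ Q ∩ closure D, ∀ y, BotCl K D Df x y → q x y < 0) :
    ∃ c : ℝ, c < K ∧ ∃ m : ℝ, 0 < m ∧ ∀ᵐ x ∂(volume.restrict D), x ∈ Q → ∀ y : E, ‖y‖ = 1 →
      (Df x).det ≤ c * ‖Df x y‖ ^ 3 ∨ q x y ≤ -m := by
  classical
  have hloc : ∀ p ∈ (Q ∩ closure D) ×ˢ (Metric.sphere (0 : E) 1), ∃ r c m : ℝ, 0 < r ∧ c < K ∧
      0 < m ∧ ∀ᵐ x' ∂(volume.restrict D), ‖x' - p.1‖ < r → ∀ y' : E, ‖y'‖ = 1 →
        ‖y' - p.2‖ < r → (Df x').det ≤ c * ‖Df x' y'‖ ^ 3 ∨ q x' y' ≤ -m := by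
    rintro ⟨x, y⟩ ⟨hx, hy⟩
    have hy1 : ‖y‖ = 1 := mem_sphere_zero_iff_norm.1 hy
    by_cases hb : BotCl K D Df x y
    · have hlt := ht x hx y hb
      have hlt2 : q x y < q x y / 2 := by linarith
      have hev : ∀ᶠ p' in 𝓝 (x, y), q p'.1 p'.2 < q x y / 2 :=
        hq.continuousAt.eventually_lt_const hlt2
      obtain ⟨r, hr, hball⟩ := Metric.eventually_nhds_iff.1 hev
      refine ⟨r, 0, -(q x y) / 2, hr, hK, by linarith, Filter.Eventually.of_forall ?_⟩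
      intro x' hx' y' _ hy'
      right
      have hd : dist (x', y') (x, y) < r := by
        rw [Prod.dist_eq, max_lt_iff, dist_eq_norm, dist_eq_norm]
        exact ⟨hx', hy'⟩
      have h2 : q x' y' < q x y / 2 := hball hd
      linarith
    · have h3 : ∃ r : ℝ, 0 < r ∧ ∃ c : ℝ, c < K ∧ ∀ᵐ x' ∂(volume.restrict D), ‖x' - x‖ < r →
          ∀ z' : E, ‖z'‖ = 1 → ‖z' - y‖ < r → (Df x').det ≤ c * ‖Df x' z'‖ ^ 3 := by
        by_contra hcon
        exact hb ⟨hy1, fun r hr c hc h => hcon ⟨r, hr, c, hc, h⟩⟩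
      obtain ⟨r, hr, c, hc, h⟩ := h3
      refine ⟨r, c, 1, hr, hc, one_pos, ?_⟩
      filter_upwards [h] with x' hx' h4 y' h5 h6
      exact Or.inl (hx' h4 y' h5 h6)
  choose! r c m hr hc hm hae using hloc
  have hcomp : IsCompact ((Q ∩ closure D) ×ˢ (Metric.sphere (0 : E) 1)) :=
    (hQ.inter_right isClosed_closure).prod (isCompact_sphere 0 1)
  obtain ⟨t, htP, hcov⟩ := hcomp.elim_nhds_subcover (fun p => Metric.ball p (r p))
    (fun p hp => Metric.ball_mem_nhds p (hr p hp))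
  obtain ⟨c0, hc0, hc1⟩ := N3b_upper c K t (fun p hp => hc p (htP p hp))
  obtain ⟨m0, hm0, hm1⟩ := N3b_upper (fun p => -(m p)) 0 t (fun p hp => by
    have := hm p (htP p hp)
    linarith)
  refine ⟨c0, hc0, -m0, by linarith, ?_⟩
  have hall : ∀ᵐ x' ∂(volume.restrict D), ∀ p ∈ t, ‖x' - p.1‖ < r p → ∀ y' : E, ‖y'‖ = 1 →
        ‖y' - p.2‖ < r p → (Df x').det ≤ c p * ‖Df x' y'‖ ^ 3 ∨ q x' y' ≤ -(m p) := by
    rw [Filter.eventually_all_finset]
    intro p hp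
    exact hae p (htP p hp)
  filter_upwards [hall, ae_restrict_mem hD.measurableSet] with x hx hxD hxQ y hy
  have hmem : ((x, y) : E × E) ∈ (Q ∩ closure D) ×ˢ (Metric.sphere (0 : E) 1) :=
    ⟨⟨hxQ, subset_closure hxD⟩, mem_sphere_zero_iff_norm.2 hy⟩
  obtain ⟨p, hp, hpb⟩ := mem_iUnion₂.1 (hcov hmem)
  have hd : dist ((x, y) : E × E) p < r p := hpb
  rw [Prod.dist_eq, max_lt_iff, dist_eq_norm, dist_eq_norm] at hd
  rcases hx p hp hd.1 y hy hd.2 with h | h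
  · left
    refine h.trans (mul_le_mul_of_nonneg_right (hc1 p hp) (by positivity))
  · right
    have := hm1 p hp
    linarith

end Pool.Agent.Lib.MP_6b3014_an.Sm
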