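import Pool.Agent.Lib.MP_6b3014_an.Sm.N3a
import Pool.Agent.Lib.MP_6b3014_an.Sm.N3b
import Pool.Agent.Lib.MP_6b3014_an.Sm.A0b
import Pool.Agent.Lib.MP_6b3014_an.Sm.D2

open MeasureTheory Set
open scoped RealInnerProductSpace ContDiff Topology

noncomputable section

namespace Pool.Agent.Lib.MP_6b3014_an.Sm

theorem N3_cont (v : E → E) (hv : ContDiff ℝ ∞ v) :
    Continuous fun p : E × E => quad (fderiv ℝ v p.1) p.2 := by
  have h1 : Continuous (fderiv ℝ v) := hv.continuous_fderiv (by simp)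
  have h2 : Continuous fun p : E × E => fderiv ℝ v p.1 := h1.comp continuous_fst
  have h3 : Continuous fun p : E × E => (fderiv ℝ v p.1) p.2 := h2.clm_apply continuous_snd
  unfold quad
  exact (continuous_const.mul (h3.inner continuous_snd)).sub (continuous_tr.comp h2)

theorem cluster_bound (K : ℝ) (hK : 1 < K) (D : Set E) (hD : IsOpen D) (Q : Set E)
    (hQ : IsCompact Q) (Df : E → E →L[ℝ] E)
    (hdil : ∀ᵐ x ∂(volume.restrict D), Dil K (Df x)) (v : E → E) (hv : ContDiff ℝ ∞ v)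
    (c₀ : ℝ) (hc₀ : c₀ < K) (hcD : ∀ᵐ x ∂(volume.restrict (D \ Q)), Dil c₀ (Df x))
    (ht : ∀ x ∈ Q ∩ closure D, ∀ y, TopCl K D Df x y → 0 < quad (fderiv ℝ v x) y)
    (hb : ∀ x ∈ Q ∩ closure D, ∀ y, BotCl K D Df x y → quad (fderiv ℝ v x) y < 0) :
    ∃ c : ℝ, c < K ∧ ∃ m : ℝ, 0 < m ∧ ∀ᵐ x ∂(volume.restrict D), ∀ y : E, ‖y‖ = 1 →
      (‖Df x y‖ ^ 3 ≤ c * (Df x).det ∨ m ≤ quad (fderiv ℝ v x) y) ∧
      ((Df x).det ≤ c * ‖Df x y‖ ^ 3 ∨ quad (fderiv ℝ v x) y ≤ -m) := by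
  have hK0 : 0 < K := by linarith
  have hpos : ∀ᵐ x ∂(volume.restrict D), 0 < (Df x).det := hdil.mono fun x hx => hx.1
  have hq := N3_cont v hv
  obtain ⟨c1, hc1, m1, hm1, h1⟩ := cluster_top K hK0 D hD Q hQ Df hpos
    (fun x y => quad (fderiv ℝ v x) y) hq ht
  obtain ⟨c2, hc2, m2, hm2, h2⟩ := cluster_bot K hK0 D hD Q hQ Df hpos
    (fun x y => quad (fderiv ℝ v x) y) hq hb
  have h3 : ∀ᵐ x ∂(volume.restrict D), x ∉ Q → Dil c₀ (Df x) := by
    have hDm : MeasurableSet D := hD.measurableSet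
    have hQm : MeasurableSet Q := hQ.measurableSet
    rw [ae_restrict_iff' (hDm.diff hQm)] at hcD
    rw [ae_restrict_iff' hDm]
    filter_upwards [hcD] with x hx hxD hxQ
    exact hx ⟨hxD, hxQ⟩
  refine ⟨max c₀ (max c1 c2), max_lt hc₀ (max_lt hc1 hc2), min m1 m2, lt_min hm1 hm2, ?_⟩
  filter_upwards [hpos, h1, h2, h3] with x hx0 hx1 hx2 hx3 y hy
  by_cases hxQ : x ∈ Q
  · constructor
    · rcases hx1 hxQ y hy with h | h
      · left
        exact h.trans (mul_le_mul_of_nonneg_right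
          (le_max_of_le_right (le_max_left _ _)) hx0.le)
      · right
        exact (min_le_left _ _).trans h
    · rcases hx2 hxQ y hy with h | h
      · left
        exact h.trans (mul_le_mul_of_nonneg_right
          (le_max_of_le_right (le_max_right _ _)) (by positivity))
      · right
        exact h.trans (neg_le_neg (min_le_right _ _))
  · have hd := ((dil_iff c₀ (Df x)).1 (hx3 hxQ)).2 y hy
    constructor
    · left
      exact hd.1.trans (mul_le_mul_of_nonneg_right (le_max_left _ _) hx0.le)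
    · left
      exact hd.2.trans (mul_le_mul_of_nonneg_right (le_max_left _ _) (by positivity))

end Pool.Agent.Lib.MP_6b3014_an.Sm
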