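import Pool.Agent.Lib.MP_6b3014_an.Sm.P5

open MeasureTheory Set
open scoped RealInnerProductSpace ContDiff Topology

noncomputable section

namespace Pool.Agent.Lib.MP_6b3014_an.Sm

theorem isQC_comp (K K' : ℝ) (D D' : Set E) (hD : IsOpen D) (f : E → E) (Df : E → E →L[ℝ] E)
    (hf : IsQC K D D' f Df)
    (h : E ≃ₜ E) (h1 : ContDiff ℝ ∞ h) (h2 : ContDiff ℝ ∞ h.symm)
    (hdet : ∀ x, 0 < (fderiv ℝ h x).det)
    (hdil : ∀ᵐ x ∂(volume.restrict D), Dil K' (Df x ∘L fderiv ℝ h.symm (h x))) :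
    IsQC K' (h '' D) D' (fun y => f (h.symm y)) (fun y => Df (h.symm y) ∘L fderiv ℝ h.symm y) := by
  have hDm : MeasurableSet D := hD.measurableSet
  have hhD : IsOpen (h '' D) := h.isOpen_image.mpr hD
  have hmaps : MapsTo h.symm (h '' D) D := by
    rintro y ⟨x, hx, rfl⟩
    simpa using hx
  refine ⟨?_, ?_, ?_, ?_, ?_⟩
  · exact hf.cont.comp h.symm.continuous.continuousOn hmaps
  · have hb : BijOn h.symm (h '' D) D := by
      refine ⟨hmaps, h.symm.injective.injOn, ?_⟩
      intro x hx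
      exact ⟨h x, ⟨x, hx, rfl⟩, by simp⟩
    exact hf.bij.comp hb
  · obtain ⟨k, hk, hkf⟩ := hf.inv
    refine ⟨fun z => h (k z), h.continuous.comp_continuousOn hk, ?_⟩
    rintro y ⟨x, hx, rfl⟩
    simp [hkf x hx]
  · exact w13_comp D hD f Df hf.w13 h h1 h2 hdet
  · rw [ae_restrict_iff' hhD.measurableSet]
    rw [ae_restrict_iff' hDm] at hdil
    have hN : volume {x : E | ¬ (x ∈ D → Dil K' (Df x ∘L fderiv ℝ h.symm (h x)))} = 0 := hdil
    have himg : volume (h '' {x : E | ¬ (x ∈ D → Dil K' (Df x ∘L fderiv ℝ h.symm (h x)))}) = 0 := by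
      apply MeasureTheory.addHaar_image_eq_zero_of_differentiableOn_of_addHaar_eq_zero volume
        _ hN
      exact (h1.differentiable (by simp)).differentiableOn
    rw [ae_iff]
    refine measure_mono_null ?_ himg
    rintro y hy
    refine ⟨h.symm y, ?_, by simp⟩
    intro hcon
    apply hy
    intro hyD
    have := hcon (hmaps hyD)
    simpa using this

end Pool.Agent.Lib.MP_6b3014_an.Sm
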