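import Pool.Agent.Lib.MP_6b3014_an.Sm.W1
import Pool.Agent.Lib.MP_6b3014_an.Sm.A0b

open MeasureTheory Set
open scoped RealInnerProductSpace ContDiff Topology

noncomputable section

namespace Pool.Agent.Lib.MP_6b3014_an.Sm

theorem isQC_h (K : ℝ) (D : Set E) (hD : IsOpen D) (h : E ≃ₜ E) (h1 : ContDiff ℝ ∞ h)
    (hdil : ∀ x, Dil K (fderiv ℝ h x)) : IsQC K D (h '' D) h (fderiv ℝ h) := by
  refine ⟨h.continuous.continuousOn, h.injective.injOn.bijOn_image, ⟨h.symm,
    h.symm.continuous.continuousOn, fun x _ => h.symm_apply_apply x⟩, ?_, ?_⟩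
  · exact w13_of_contDiffOn D hD h ((h1.of_le (by exact_mod_cast le_top)).contDiffOn)
  · exact Filter.Eventually.of_forall hdil

end Pool.Agent.Lib.MP_6b3014_an.Sm
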