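import Pool.Agent.Lib.MP_6b3014_an.Sm.C3
import Pool.Agent.Lib.MP_6b3014_an.Sm.D8
import Pool.Agent.Lib.MP_6b3014_an.Sm.H1
import Pool.Agent.Lib.MP_6b3014_an.Sm.H2
import Pool.Agent.Lib.MP_6b3014_an.Sm.W4
import Pool.Agent.Lib.MP_6b3014_an.Sm.N2
import Pool.Agent.Lib.MP_6b3014_an.Sm.N3
import Pool.Agent.Lib.MP_6b3014_an.Sm.P6
import Pool.Agent.Lib.MP_6b3014_an.Sm.Defs3

open MeasureTheory Set
open scoped RealInnerProductSpace ContDiff Topology

noncomputable section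

namespace Pool.Agent.Lib.MP_6b3014_an.Sm

/-- The criterion. -/
theorem main_field (D D' : Set E) (hD : IsOpen D)
    (K : ℝ) (hK : 1 < K) (f : E → E) (Df : E → E →L[ℝ] E) (hf : IsQC K D D' f Df)
    (U : Set E) (hfield : FieldCond K D U Df)
    (δ : ℝ) (hδ : 0 < δ) : Factors K D D' U f δ := by
  obtain ⟨v, hv, hvU, ⟨M0, hM0⟩, c, hc, m, hm, hcl⟩ := hfield
  have hM0' : 0 ≤ M0 := (norm_nonneg _).trans (hM0 0)
  have hLip : LipschitzWith M0.toNNReal v := by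
    refine lipschitzWith_of_nnnorm_fderiv_le (𝕜 := ℝ) (hv.differentiable (by simp)) fun x => ?_
    rw [← NNReal.coe_le_coe, coe_nnnorm, Real.coe_toNNReal _ hM0']
    exact hM0 x
  obtain ⟨ε₀, hε₀, h0⟩ := dil_crit K c m M0 hK hc hm hM0'
  obtain ⟨ε₂, hε₂, h2⟩ := dil_pert δ hδ M0 hM0'
  obtain ⟨ε₃, hε₃, h3⟩ := exists_homeo_lip v hv _ hLip
  set ε : ℝ := min ε₀ (min ε₂ ε₃) with hε
  have hεpos : 0 < ε := lt_min hε₀ (lt_min hε₂ hε₃)
  have hεa : ε ≤ ε₀ := min_le_left _ _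
  have hεc : ε ≤ ε₂ := (min_le_right _ _).trans (min_le_left _ _)
  have hεd : ε ≤ ε₃ := (min_le_right _ _).trans (min_le_right _ _)
  obtain ⟨K₁, hK₁, h0'⟩ := h0 ε hεpos hεa
  obtain ⟨h, hh, hs, hs'⟩ := h3 ε hεpos hεd
  have hfh := fun x => fderiv_h v hv ε h hh hs' x
  have hoff : ∀ x, x ∉ U → h x = x := by
    intro x hx
    rw [hh, hvU x hx]
    simp
  have hdilh : ∀ x, Dil (1 + δ) (fderiv ℝ h x) := by
    intro x
    rw [(hfh x).1]
    exact h2 ε hεpos hεc _ (hM0 x)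
  refine ⟨K₁, hK₁, h, hs, hs', hoff, hdilh, isQC_h (1 + δ) D hD h hs hdilh,
    fun y => f (h.symm y), fun y => Df (h.symm y) ∘L fderiv ℝ h.symm y, ?_, ?_⟩
  · refine isQC_comp K K₁ D D' hD f Df hf h hs hs' (fun x => (hdilh x).1) ?_
    filter_upwards [hcl, hf.dil] with x hx hx2
    refine h0' (Df x) (fderiv ℝ v x) _ hx2 (hM0 x) ?_ fun y hy => ⟨?_, ?_⟩
    · rw [ContinuousLinearMap.comp_assoc, (hfh x).2, ContinuousLinearMap.comp_id]
    · rcases (hx y hy).1 with h | h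
      · exact Or.inl h
      · exact Or.inr (by unfold quad; linarith)
    · rcases (hx y hy).2 with h | h
      · exact Or.inl h
      · exact Or.inr (by unfold quad; linarith)
  · intro x _
    simp

/-- From cluster directions on a compact set to the criterion. -/
theorem field_of_cluster (D : Set E) (hD : IsOpen D)
    (K : ℝ) (hK : 1 < K) (Df : E → E →L[ℝ] E) (hdil : ∀ᵐ x ∂(volume.restrict D), Dil K (Df x))
    (Q U : Set E) (hQ : IsCompact Q) (hU : IsOpen U) (hQU : Q ⊆ U)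
    (c₀ : ℝ) (hc₀ : c₀ < K) (hcD : ∀ᵐ x ∂(volume.restrict (D \ Q)), Dil c₀ (Df x))
    (w : E → E) (hw : ContDiff ℝ ∞ w)
    (ht : ∀ x ∈ Q ∩ closure D, ∀ y, TopCl K D Df x y → 0 < quad (fderiv ℝ w x) y)
    (hb : ∀ x ∈ Q ∩ closure D, ∀ y, BotCl K D Df x y → quad (fderiv ℝ w x) y < 0) :
    FieldCond K D U Df := by
  obtain ⟨v, hv, hvc, hvU, hvw⟩ := exists_cutoff Q U hQ hU hQU w hw
  have hMcont : Continuous (fderiv ℝ v) := hv.continuous_fderiv (by simp)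
  obtain ⟨M0, hM0⟩ : ∃ M0 : ℝ, ∀ x, ‖fderiv ℝ v x‖ ≤ M0 :=
    hMcont.bounded_above_of_compact_support (hvc.fderiv ℝ)
  obtain ⟨c, hc, m, hm, hcl⟩ := cluster_bound K hK D hD Q hQ Df hdil v hv c₀ hc₀ hcD
    (fun x hx y hy => by rw [hvw x hx.1]; exact ht x hx y hy)
    (fun x hx y hy => by rw [hvw x hx.1]; exact hb x hx y hy)
  refine ⟨v, hv, fun x hx => image_eq_zero_of_notMem_tsupport fun h => hx (hvU h), ⟨M0, hM0⟩,
    c, hc, m, hm, ?_⟩
  filter_upwards [hcl] with x hx y hy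
  refine ⟨?_, ?_⟩
  · rcases (hx y hy).1 with h | h
    · exact Or.inl h
    · exact Or.inr (by unfold quad at h; linarith)
  · rcases (hx y hy).2 with h | h
    · exact Or.inl h
    · exact Or.inr (by unfold quad at h; linarith)

end Pool.Agent.Lib.MP_6b3014_an.Sm
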