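import Pool.Agent.Lib.MP_6b3014_an.Sm.Defs2

open MeasureTheory Set
open scoped RealInnerProductSpace ContDiff Topology

noncomputable section

namespace Pool.Agent.Lib.MP_6b3014_an.Sm

/-- The property of a set of pairs used in the compactness argument. -/
def N3a_good (K : ℝ) (D : Set E) (Df : E → E →L[ℝ] E) (q : E → E → ℝ) (S : Set (E × E)) :
    Prop :=
  ∃ c : ℝ, c < K ∧ ∃ m : ℝ, 0 < m ∧ ∀ᵐ x ∂(volume.restrict D), ∀ y : E, ‖y‖ = 1 →
    (x, y) ∈ S → ‖Df x y‖ ^ 3 ≤ c * (Df x).det ∨ m ≤ q x y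

theorem N3a_mono (K : ℝ) (D : Set E) (Df : E → E →L[ℝ] E) (q : E → E → ℝ)
    {S T : Set (E × E)} (hST : S ⊆ T) (hT : N3a_good K D Df q T) : N3a_good K D Df q S := by
  obtain ⟨c, hc, m, hm, h⟩ := hT
  refine ⟨c, hc, m, hm, ?_⟩
  filter_upwards [h] with x hx y hy hxy
  exact hx y hy (hST hxy)

theorem N3a_union (K : ℝ) (D : Set E) (Df : E → E →L[ℝ] E)
    (hpos : ∀ᵐ x ∂(volume.restrict D), 0 < (Df x).det) (q : E → E → ℝ)
    {S T : Set (E × E)} (hS : N3a_good K D Df q S) (hT : N3a_good K D Df q T) :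
    N3a_good K D Df q (S ∪ T) := by
  obtain ⟨c, hc, m, hm, h⟩ := hS
  obtain ⟨c', hc', m', hm', h'⟩ := hT
  refine ⟨max c c', max_lt hc hc', min m m', lt_min hm hm', ?_⟩
  filter_upwards [h, h', hpos] with x hx hx' hp y hy hxy
  rcases hxy with hxy | hxy
  · rcases hx y hy hxy with h1 | h1
    · left
      exact h1.trans (mul_le_mul_of_nonneg_right (le_max_left _ _) hp.le)
    · right
      exact (min_le_left _ _).trans h1
  · rcases hx' y hy hxy with h1 | h1
    · left
      exact h1.trans (mul_le_mul_of_nonneg_right (le_max_right _ _) hp.le)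
    · right
      exact (min_le_right _ _).trans h1

theorem cluster_top (K : ℝ) (hK : 0 < K) (D : Set E) (hD : IsOpen D) (Q : Set E)
    (hQ : IsCompact Q) (Df : E → E →L[ℝ] E)
    (hpos : ∀ᵐ x ∂(volume.restrict D), 0 < (Df x).det) (q : E → E → ℝ)
    (hq : Continuous fun p : E × E => q p.1 p.2)
    (ht : ∀ x ∈ Q ∩ closure D, ∀ y, TopCl K D Df x y → 0 < q x y) :
    ∃ c : ℝ, c < K ∧ ∃ m : ℝ, 0 < m ∧ ∀ᵐ x ∂(volume.restrict D), x ∈ Q → ∀ y : E, ‖y‖ = 1 →
      ‖Df x y‖ ^ 3 ≤ c * (Df x).det ∨ m ≤ q x y := by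
  have hcomp : IsCompact ((Q ∩ closure D) ×ˢ Metric.sphere (0 : E) 1) :=
    (hQ.inter_right isClosed_closure).prod (isCompact_sphere (0 : E) 1)
  have hgood : N3a_good K D Df q ((Q ∩ closure D) ×ˢ Metric.sphere (0 : E) 1) := by
    refine hcomp.induction_on (p := N3a_good K D Df q) ?_ ?_ ?_ ?_
    · exact ⟨0, hK, 1, one_pos, Filter.Eventually.of_forall fun x y _ hxy => by
        simp at hxy⟩
    · intro S T hST hT
      exact N3a_mono K D Df q hST hT
    · intro S T hS hT
      exact N3a_union K D Df hpos q hS hT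
    · rintro ⟨x, y⟩ ⟨hx, hy⟩
      have hy1 : ‖y‖ = 1 := by simpa using hy
      by_cases hT : TopCl K D Df x y
      · have hqp : 0 < q x y := ht x hx y hT
        refine ⟨{p : E × E | q x y / 2 < q p.1 p.2}, ?_, ?_⟩
        · apply mem_nhdsWithin_of_mem_nhds
          apply (isOpen_lt continuous_const hq).mem_nhds
          show q x y / 2 < q x y
          linarith
        · refine ⟨0, hK, q x y / 2, by linarith, Filter.Eventually.of_forall fun x' y' _ h => ?_⟩
          right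
          exact le_of_lt h
      · have hT' : ∃ r : ℝ, 0 < r ∧ ∃ c : ℝ, c < K ∧
            ∀ᵐ x' ∂(volume.restrict D), ‖x' - x‖ < r → ∀ y' : E, ‖y'‖ = 1 → ‖y' - y‖ < r →
              ‖Df x' y'‖ ^ 3 ≤ c * (Df x').det := by
          by_contra hcon
          apply hT
          refine ⟨hy1, fun r hr c hc hae => hcon ⟨r, hr, c, hc, hae⟩⟩
        obtain ⟨r, hr, c, hc, hae⟩ := hT'
        refine ⟨Metric.ball x r ×ˢ Metric.ball y r, ?_, ?_⟩
        · apply mem_nhdsWithin_of_mem_nhds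
          exact prod_mem_nhds (Metric.ball_mem_nhds x hr) (Metric.ball_mem_nhds y hr)
        · refine ⟨c, hc, 1, one_pos, ?_⟩
          filter_upwards [hae] with x' hx' y' hy' hmem
          left
          have h1 : ‖x' - x‖ < r := by
            exact mem_ball_iff_norm.1 hmem.1
          have h2 : ‖y' - y‖ < r := by
            exact mem_ball_iff_norm.1 hmem.2
          exact hx' h1 y' hy' h2
  obtain ⟨c, hc, m, hm, h⟩ := hgood
  refine ⟨c, hc, m, hm, ?_⟩
  filter_upwards [h, ae_restrict_mem hD.measurableSet] with x hx hxD hxQ y hy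
  exact hx y hy ⟨⟨hxQ, subset_closure hxD⟩, by simpa using hy⟩

end Pool.Agent.Lib.MP_6b3014_an.Sm
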