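import Pool.Agent.Lib.MP_6b3014_an.Sm.Defs

open MeasureTheory Set
open scoped RealInnerProductSpace ContDiff Topology

noncomputable section

namespace Pool.Agent.Lib.MP_6b3014_an.Sm

/-- the entries of the Jacobian matrix -/
def P1_J (h : E → E) (i j : Fin 3) (x : E) : ℝ := (fderiv ℝ h x (EuclideanSpace.single j 1)) i

theorem P1_J_smooth {h : E → E} (hh : ContDiff ℝ ∞ h) (i j : Fin 3) : ContDiff ℝ ∞ (P1_J h i j) := by
  have h1 : ContDiff ℝ ∞ (fderiv ℝ h) := hh.fderiv_right (by simp)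
  have h2 : ContDiff ℝ ∞ (fun x => fderiv ℝ h x (EuclideanSpace.single j (1 : ℝ))) :=
    h1.clm_apply contDiff_const
  exact contDiff_euclidean.1 h2 i

theorem P1_J_fderiv {h : E → E} (hh : ContDiff ℝ ∞ h) (i j : Fin 3) (x v : E) :
    fderiv ℝ (P1_J h i j) x v = (fderiv ℝ (fderiv ℝ h) x v (EuclideanSpace.single j 1)) i := by
  have h1 : ContDiff ℝ ∞ (fderiv ℝ h) := hh.fderiv_right (by simp)
  have h2 : HasFDerivAt (fderiv ℝ h) (fderiv ℝ (fderiv ℝ h) x) x :=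
    (h1.differentiable (by simp) x).hasFDerivAt
  have h3 := h2.clm_apply (hasFDerivAt_const (EuclideanSpace.single j (1 : ℝ) : E) x)
  have h4 := ((EuclideanSpace.proj i : E →L[ℝ] ℝ).hasFDerivAt
    (x := fderiv ℝ h x (EuclideanSpace.single j (1 : ℝ)))).comp x h3
  have h5 : fderiv ℝ (P1_J h i j) x = _ := h4.fderiv
  rw [h5]
  simp

theorem P1_symm {h : E → E} (hh : ContDiff ℝ ∞ h) (i j k : Fin 3) (x : E) :
    fderiv ℝ (P1_J h i j) x (EuclideanSpace.single k 1) =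
      fderiv ℝ (P1_J h i k) x (EuclideanSpace.single j 1) := by
  rw [P1_J_fderiv hh, P1_J_fderiv hh]
  have h1 : IsSymmSndFDerivAt ℝ h x := by
    apply (hh.contDiffAt).isSymmSndFDerivAt
    simp only [minSmoothness_of_isRCLikeNormedField]
    exact WithTop.coe_le_coe.2 le_top
  rw [h1 (EuclideanSpace.single k 1) (EuclideanSpace.single j 1)]

/-- two by two minors, cyclic -/
def P1_K (h : E → E) (i i' j : Fin 3) (x : E) : ℝ :=
  P1_J h i (j + 1) x * P1_J h i' (j + 2) x - P1_J h i (j + 2) x * P1_J h i' (j + 1) x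

theorem P1_K_smooth {h : E → E} (hh : ContDiff ℝ ∞ h) (i i' j : Fin 3) : ContDiff ℝ ∞ (P1_K h i i' j) :=
  ((P1_J_smooth hh _ _).mul (P1_J_smooth hh _ _)).sub ((P1_J_smooth hh _ _).mul (P1_J_smooth hh _ _))

theorem P1_K_fderiv {h : E → E} (hh : ContDiff ℝ ∞ h) (i i' j : Fin 3) (x v : E) :
    fderiv ℝ (P1_K h i i' j) x v =
      (P1_J h i (j + 1) x * fderiv ℝ (P1_J h i' (j + 2)) x v +
        P1_J h i' (j + 2) x * fderiv ℝ (P1_J h i (j + 1)) x v) -
      (P1_J h i (j + 2) x * fderiv ℝ (P1_J h i' (j + 1)) x v +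
        P1_J h i' (j + 1) x * fderiv ℝ (P1_J h i (j + 2)) x v) := by
  have hd : ∀ a b : Fin 3, HasFDerivAt (P1_J h a b) (fderiv ℝ (P1_J h a b) x) x := fun a b =>
    ((P1_J_smooth hh a b).differentiable (by simp) x).hasFDerivAt
  have h1 := ((hd i (j + 1)).mul (hd i' (j + 2))).sub ((hd i (j + 2)).mul (hd i' (j + 1)))
  have h2 : fderiv ℝ (P1_K h i i' j) x = _ := h1.fderiv
  rw [h2]
  simp

theorem P1_div0 {h : E → E} (hh : ContDiff ℝ ∞ h) (i i' : Fin 3) (x : E) :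
    ∑ j : Fin 3, fderiv ℝ (P1_K h i i' j) x (EuclideanSpace.single j 1) = 0 := by
  simp only [Fin.sum_univ_three, P1_K_fderiv hh]
  have e1 : (0 : Fin 3) + 1 = 1 := rfl
  have e2 : (0 : Fin 3) + 2 = 2 := rfl
  have e3 : (1 : Fin 3) + 1 = 2 := rfl
  have e4 : (1 : Fin 3) + 2 = 0 := rfl
  have e5 : (2 : Fin 3) + 1 = 0 := rfl
  have e6 : (2 : Fin 3) + 2 = 1 := rfl
  rw [e1, e2, e3, e4, e5, e6]
  rw [P1_symm hh i 1 0, P1_symm hh i 2 0, P1_symm hh i 2 1, P1_symm hh i' 1 0, P1_symm hh i' 2 0,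
    P1_symm hh i' 2 1]
  ring

/-- the components of the field -/
def P1_X (h : E → E) (e : E) (j : Fin 3) (x : E) : ℝ :=
  e 0 * P1_K h 1 2 j x + e 1 * P1_K h 2 0 j x + e 2 * P1_K h 0 1 j x

theorem P1_X_smooth {h : E → E} (hh : ContDiff ℝ ∞ h) (e : E) (j : Fin 3) : ContDiff ℝ ∞ (P1_X h e j) :=
  ((contDiff_const.mul (P1_K_smooth hh _ _ _)).add (contDiff_const.mul (P1_K_smooth hh _ _ _))).add
    (contDiff_const.mul (P1_K_smooth hh _ _ _))

theorem P1_X_fderiv {h : E → E} (hh : ContDiff ℝ ∞ h) (e : E) (j : Fin 3) (x v : E) :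
    fderiv ℝ (P1_X h e j) x v = e 0 * fderiv ℝ (P1_K h 1 2 j) x v +
      e 1 * fderiv ℝ (P1_K h 2 0 j) x v + e 2 * fderiv ℝ (P1_K h 0 1 j) x v := by
  have hd : ∀ a b : Fin 3, HasFDerivAt (P1_K h a b j) (fderiv ℝ (P1_K h a b j) x) x := fun a b =>
    ((P1_K_smooth hh a b j).differentiable (by simp) x).hasFDerivAt
  have h1 := (((hd 1 2).const_mul (e 0)).add ((hd 2 0).const_mul (e 1))).add ((hd 0 1).const_mul (e 2))
  have h2 : fderiv ℝ (P1_X h e j) x = _ := h1.fderiv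
  rw [h2]
  simp

theorem P1_coord {X : E → E} {x : E} (hX : DifferentiableAt ℝ X x) (j : Fin 3) (v : E) :
    (fderiv ℝ X x v) j = fderiv ℝ (fun y => X y j) x v := by
  have h := ((EuclideanSpace.proj j : E →L[ℝ] ℝ).hasFDerivAt (x := X x)).comp x hX.hasFDerivAt
  have h2 : fderiv ℝ (fun y => X y j) x = _ := h.fderiv
  rw [h2]
  simp

theorem P1_det (A : E →L[ℝ] E) : A.det =
    (Matrix.of fun i j : Fin 3 => (A (EuclideanSpace.single j 1)) i).det := by
  rw [ContinuousLinearMap.det, ← LinearMap.det_toMatrix (EuclideanSpace.basisFun (Fin 3) ℝ).toBasis]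
  congr 1

theorem P1_sum (A : E →L[ℝ] E) (y : E) (i : Fin 3) :
    (A y) i = ∑ j : Fin 3, y j * (A (EuclideanSpace.single j 1)) i := by
  have h1 : y = ∑ j : Fin 3, y j • (EuclideanSpace.single j (1 : ℝ) : E) := by
    ext k
    fin_cases k <;> simp [Fin.sum_univ_three]
  conv_lhs => rw [h1]
  rw [map_sum]
  simp

/-- Piola identity: the vector field `X = (adjugate of the derivative of h) e` is smooth, satisfies
`h'(x) X(x) = det h'(x) • e` and is divergence free. -/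
theorem piola (h : E → E) (hh : ContDiff ℝ ∞ h) (e : E) :
    ∃ X : E → E, ContDiff ℝ ∞ X ∧ (∀ x, fderiv ℝ h x (X x) = (fderiv ℝ h x).det • e) ∧
      ∀ x, tr (fderiv ℝ X x) = 0 := by
  have hX : ContDiff ℝ ∞ (fun x : E => (WithLp.toLp 2 (fun j => P1_X h e j x) : E)) := by
    rw [contDiff_euclidean]
    intro j
    exact P1_X_smooth hh e j
  refine ⟨fun x => WithLp.toLp 2 (fun j => P1_X h e j x), hX, ?_, ?_⟩
  · intro x
    ext i
    rw [P1_sum, P1_det, Matrix.det_fin_three]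
    simp only [PiLp.smul_apply, smul_eq_mul, Matrix.of_apply, Fin.sum_univ_three]
    have e1 : (0 : Fin 3) + 1 = 1 := rfl
    have e2 : (0 : Fin 3) + 2 = 2 := rfl
    have e3 : (1 : Fin 3) + 1 = 2 := rfl
    have e4 : (1 : Fin 3) + 2 = 0 := rfl
    have e5 : (2 : Fin 3) + 1 = 0 := rfl
    have e6 : (2 : Fin 3) + 2 = 1 := rfl
    unfold P1_X P1_K P1_J
    rw [e1, e2, e3, e4, e5, e6]
    fin_cases i <;> simp <;> ring
  · intro x
    unfold tr
    have h1 : ∀ i : Fin 3, (fderiv ℝ (fun x : E => (WithLp.toLp 2 (fun j => P1_X h e j x) : E)) x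
        (EuclideanSpace.single i 1)) i = fderiv ℝ (P1_X h e i) x (EuclideanSpace.single i 1) := by
      intro i
      rw [P1_coord (hX.differentiable (by simp) x)]
    simp only [h1, P1_X_fderiv hh]
    rw [Finset.sum_add_distrib, Finset.sum_add_distrib, ← Finset.mul_sum, ← Finset.mul_sum,
      ← Finset.mul_sum, P1_div0 hh, P1_div0 hh, P1_div0 hh]
    ring

end Pool.Agent.Lib.MP_6b3014_an.Sm
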