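import Pool.Agent.Lib.MP_6b3014_an.Sm.Defs

open MeasureTheory Set
open scoped RealInnerProductSpace ContDiff Topology

noncomputable section

namespace Pool.Agent.Lib.MP_6b3014_an.Sm

theorem P2_sum (v : E) : ∑ j : Fin 3, v j • (EuclideanSpace.single j (1 : ℝ) : E) = v := by
  ext i
  fin_cases i <;> simp [Fin.sum_univ_three]

theorem P2_int {G : Type*} [NormedAddCommGroup G] [NormedSpace ℝ G] {C : Set E} (hC : IsCompact C)
    {F : E → G} (hF : IntegrableOn F C) {g : E → ℝ} (hg : Continuous g)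
    (hs : Function.support g ⊆ C) : Integrable (fun x => g x • F x) := by
  have h1 : IntegrableOn (fun x => g x • F x) C := hF.continuousOn_smul hg.continuousOn hC
  refine (integrableOn_iff_integrable_of_support_subset ?_).1 h1
  intro x hx
  apply hs
  intro h0
  apply hx
  simp [h0]

theorem P2_memLp {G : Type*} [NormedAddCommGroup G] [NormedSpace ℝ G] {C : Set E} (hC : IsCompact C)
    {F : E → G} (hF : MemLp F 3 (volume.restrict C)) : IntegrableOn F C := by
  have : IsFiniteMeasure (volume.restrict C) := ⟨by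
    rw [Measure.restrict_apply_univ]
    exact hC.measure_lt_top⟩
  exact hF.integrable (by norm_num)

theorem P2_fderiv (ψ : E → ℝ) (hψ : ContDiff ℝ ∞ ψ) (X : E → E) (hX : ContDiff ℝ ∞ X) (j : Fin 3) (x e : E) :
    fderiv ℝ (fun x => ψ x * (X x) j) x e = ψ x * (fderiv ℝ X x e) j + (X x) j * fderiv ℝ ψ x e := by
  have h1 : HasFDerivAt ψ (fderiv ℝ ψ x) x := (hψ.differentiable (by simp) x).hasFDerivAt
  have h2 : HasFDerivAt X (fderiv ℝ X x) x := (hX.differentiable (by simp) x).hasFDerivAt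
  have h3 : HasFDerivAt (fun x => (X x) j) ((EuclideanSpace.proj j : E →L[ℝ] ℝ).comp (fderiv ℝ X x)) x :=
    (EuclideanSpace.proj j : E →L[ℝ] ℝ).hasFDerivAt.comp x h2
  have h4 : HasFDerivAt (fun x => ψ x * (X x) j)
      (ψ x • (EuclideanSpace.proj j : E →L[ℝ] ℝ).comp (fderiv ℝ X x) + (X x) j • fderiv ℝ ψ x) x := h1.mul h3
  rw [h4.fderiv]
  simp

/-- The weak formula tested with a divergence free field. -/
theorem weak_field (D : Set E) (f : E → E) (Df : E → E →L[ℝ] E) (w : W13 D f Df)
    (ψ : E → ℝ) (hψ : ContDiff ℝ ∞ ψ) (hc : HasCompactSupport ψ) (hs : tsupport ψ ⊆ D)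
    (X : E → E) (hX : ContDiff ℝ ∞ X) (hdiv : ∀ x, tr (fderiv ℝ X x) = 0) :
    ∫ x, (fderiv ℝ ψ x (X x)) • f x = - ∫ x, ψ x • Df x (X x) := by
  have hC : IsCompact (tsupport ψ) := hc
  have hf : IntegrableOn f (tsupport ψ) := P2_memLp hC (w.memF _ hC hs)
  have hD : IntegrableOn Df (tsupport ψ) := P2_memLp hC (w.memD _ hC hs)
  have hXj : ∀ j : Fin 3, ContDiff ℝ ∞ (fun x => (X x) j) := fun j =>
    (EuclideanSpace.proj j : E →L[ℝ] ℝ).contDiff.comp hX
  have hsub : ∀ j : Fin 3, tsupport (fun x => ψ x * (X x) j) ⊆ tsupport ψ := fun j =>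
    tsupport_mul_subset_left
  have hψj : ∀ j : Fin 3, ContDiff ℝ ∞ (fun x => ψ x * (X x) j) := fun j => hψ.mul (hXj j)
  have hcj : ∀ j : Fin 3, HasCompactSupport (fun x => ψ x * (X x) j) := fun j => hc.mul_right
  have hweak : ∀ j : Fin 3, ∫ x, (fderiv ℝ (fun x => ψ x * (X x) j) x (EuclideanSpace.single j 1)) • f x =
      - ∫ x, (ψ x * (X x) j) • Df x (EuclideanSpace.single j 1) := fun j =>
    w.weak _ (hψj j) (hcj j) ((hsub j).trans hs) _
  have hint1 : ∀ j : Fin 3, Integrable
      (fun x => (fderiv ℝ (fun x => ψ x * (X x) j) x (EuclideanSpace.single j 1)) • f x) := by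
    intro j
    have hcont : Continuous (fun x => fderiv ℝ (fun x => ψ x * (X x) j) x (EuclideanSpace.single j 1)) :=
      ((hψj j).continuous_fderiv (by simp)).clm_apply continuous_const
    refine P2_int hC hf hcont ?_
    intro x hx
    have h1 : x ∈ Function.support (fderiv ℝ (fun x => ψ x * (X x) j)) := by
      intro h0
      apply hx
      show fderiv ℝ (fun x => ψ x * (X x) j) x (EuclideanSpace.single j 1) = 0
      rw [h0]
      rfl
    exact hsub j (support_fderiv_subset ℝ h1)
  have hint2 : ∀ j : Fin 3, Integrable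
      (fun x => (ψ x * (X x) j) • Df x (EuclideanSpace.single j 1)) := by
    intro j
    refine P2_int hC (hD.apply_continuousLinearMap _) (hψj j).continuous ?_
    exact (subset_tsupport _).trans (hsub j)
  have e1 : ∀ x, (fderiv ℝ ψ x (X x)) • f x =
      ∑ j : Fin 3, (fderiv ℝ (fun x => ψ x * (X x) j) x (EuclideanSpace.single j 1)) • f x := by
    intro x
    rw [← Finset.sum_smul]
    congr 1
    have h1 : ∑ j : Fin 3, fderiv ℝ (fun x => ψ x * (X x) j) x (EuclideanSpace.single j 1) =
        ψ x * tr (fderiv ℝ X x) + fderiv ℝ ψ x (∑ j : Fin 3, (X x) j • (EuclideanSpace.single j (1 : ℝ) : E)) := by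
      rw [map_sum, tr, Finset.mul_sum, ← Finset.sum_add_distrib]
      refine Finset.sum_congr rfl fun j _ => ?_
      rw [P2_fderiv ψ hψ X hX, map_smul, smul_eq_mul]
    rw [h1, hdiv, mul_zero, zero_add, P2_sum]
  have e2 : ∀ x, ψ x • Df x (X x) = ∑ j : Fin 3, (ψ x * (X x) j) • Df x (EuclideanSpace.single j 1) := by
    intro x
    conv_lhs => rw [← P2_sum (X x)]
    rw [map_sum, Finset.smul_sum]
    refine Finset.sum_congr rfl fun j _ => ?_
    rw [map_smul, smul_smul]
  rw [integral_congr_ae (Filter.Eventually.of_forall e1), integral_congr_ae (Filter.Eventually.of_forall e2),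
    integral_finsetSum _ (fun j _ => hint1 j), integral_finsetSum _ (fun j _ => hint2 j), ← Finset.sum_neg_distrib]
  exact Finset.sum_congr rfl fun j _ => hweak j

end Pool.Agent.Lib.MP_6b3014_an.Sm
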