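import Pool.Agent.Lib.MP_6b3014_an.Sm.P1
import Pool.Agent.Lib.MP_6b3014_an.Sm.P2
import Pool.Agent.Lib.MP_6b3014_an.Sm.H2

open MeasureTheory Set
open scoped RealInnerProductSpace ContDiff Topology

noncomputable section

namespace Pool.Agent.Lib.MP_6b3014_an.Sm

/-- The weak formula for `f ∘ h⁻¹`. -/
theorem weak_comp (D : Set E) (hD : IsOpen D) (f : E → E) (Df : E → E →L[ℝ] E)
    (w : W13 D f Df) (h : E ≃ₜ E) (h1 : ContDiff ℝ ∞ h) (h2 : ContDiff ℝ ∞ h.symm)
    (hdet : ∀ x, 0 < (fderiv ℝ h x).det)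
    (φ : E → ℝ) (hφ : ContDiff ℝ ∞ φ) (hc : HasCompactSupport φ) (hs : tsupport φ ⊆ h '' D)
    (e : E) :
    ∫ y, (fderiv ℝ φ y e) • f (h.symm y) =
      - ∫ y, φ y • (Df (h.symm y) ∘L fderiv ℝ h.symm y) e := by
  obtain ⟨X, hX, hXe, hXdiv⟩ := piola h h1 e
  have hd : ∀ x, DifferentiableAt ℝ h x := fun x => (h1.differentiable (by simp)) x
  have hds : ∀ x, DifferentiableAt ℝ h.symm x := fun x => (h2.differentiable (by simp)) x
  have hdφ : ∀ x, DifferentiableAt ℝ φ x := fun x => (hφ.differentiable (by simp)) x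
  have hψ : ContDiff ℝ ∞ (φ ∘ h) := hφ.comp h1
  have hψc : HasCompactSupport (φ ∘ h) := hc.comp_homeomorph h
  have hψs : tsupport (φ ∘ h) ⊆ D := by
    intro x hx
    have hx2 : h x ∈ tsupport φ := by
      have hcl : closure (Function.support (φ ∘ h)) ⊆ h ⁻¹' (tsupport φ) := by
        apply closure_minimal
        · intro z hz
          exact subset_tsupport φ hz
        · exact (isClosed_tsupport φ).preimage h.continuous
      exact hcl hx
    obtain ⟨x', hx', hxx⟩ := hs hx2
    rwa [h.injective hxx] at hx'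
  have key := weak_field D f Df w (φ ∘ h) hψ hψc hψs X hX hXdiv
  have hchain : ∀ x, fderiv ℝ (φ ∘ h) x (X x) = (fderiv ℝ h x).det * fderiv ℝ φ (h x) e := by
    intro x
    rw [fderiv_comp x (hdφ (h x)) (hd x), ContinuousLinearMap.comp_apply, hXe x, map_smul, smul_eq_mul]
  have hinv : ∀ x, X x = (fderiv ℝ h x).det • fderiv ℝ h.symm (h x) e := by
    intro x
    have hcomp : fderiv ℝ (h.symm ∘ h) x = (fderiv ℝ h.symm (h x)) ∘L (fderiv ℝ h x) :=
      fderiv_comp x (hds (h x)) (hd x)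
    have hid : (h.symm ∘ h : E → E) = id := by
      funext z
      simp
    rw [hid, fderiv_id] at hcomp
    have h3 : X x = ((fderiv ℝ h.symm (h x)) ∘L (fderiv ℝ h x)) (X x) := by
      rw [← hcomp]
      rfl
    rw [ContinuousLinearMap.comp_apply, hXe x, map_smul] at h3
    exact h3
  have hcv : ∀ g : E → E, ∫ y, g y = ∫ x, (fderiv ℝ h x).det • g (h x) := by
    intro g
    have h4 := integral_image_eq_integral_abs_det_fderiv_smul (volume : Measure E)
      (s := univ) (f := h) (f' := fun x => fderiv ℝ h x) MeasurableSet.univ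
      (fun x _ => ((hd x).hasFDerivAt).hasFDerivWithinAt) h.injective.injOn g
    rw [image_univ, h.surjective.range_eq, setIntegral_univ, setIntegral_univ] at h4
    rw [h4]
    apply integral_congr_ae
    filter_upwards with x
    rw [abs_of_pos (hdet x)]
  have hL := hcv (fun y => (fderiv ℝ φ y e) • f (h.symm y))
  have hR := hcv (fun y => φ y • (Df (h.symm y) ∘L fderiv ℝ h.symm y) e)
  have e1 : ∀ x, (fderiv ℝ h x).det • ((fderiv ℝ φ (h x) e) • f (h.symm (h x))) =
      (fderiv ℝ (φ ∘ h) x (X x)) • f x := by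
    intro x
    rw [hchain x, h.symm_apply_apply, smul_smul]
  have e2 : ∀ x, (fderiv ℝ h x).det • (φ (h x) • (Df (h.symm (h x)) ∘L fderiv ℝ h.symm (h x)) e) =
      (φ ∘ h) x • Df x (X x) := by
    intro x
    rw [hinv x, h.symm_apply_apply, ContinuousLinearMap.comp_apply, map_smul, Function.comp_apply,
      smul_comm]
  calc ∫ y, (fderiv ℝ φ y e) • f (h.symm y)
      = ∫ x, (fderiv ℝ h x).det • ((fderiv ℝ φ (h x) e) • f (h.symm (h x))) := hL
    _ = ∫ x, (fderiv ℝ (φ ∘ h) x (X x)) • f x :=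
        integral_congr_ae (Filter.Eventually.of_forall e1)
    _ = - ∫ x, (φ ∘ h) x • Df x (X x) := key
    _ = - ∫ x, (fderiv ℝ h x).det •
          (φ (h x) • (Df (h.symm (h x)) ∘L fderiv ℝ h.symm (h x)) e) := by
        rw [integral_congr_ae (Filter.Eventually.of_forall e2)]
    _ = - ∫ y, φ y • (Df (h.symm y) ∘L fderiv ℝ h.symm y) e := by
        rw [hR]

end Pool.Agent.Lib.MP_6b3014_an.Sm
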