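import Pool.Agent.Lib.MP_6b3014_an.Sm.Defs

open MeasureTheory Set
open scoped RealInnerProductSpace ContDiff Topology

noncomputable section

namespace Pool.Agent.Lib.MP_6b3014_an.Sm

theorem P4_map_le (h : E ≃ₜ E) (h1 : ContDiff ℝ ∞ h) (C : Set E) (hC : IsCompact C) :
    ∃ B : ℝ, (volume.restrict C).map h.symm ≤ ENNReal.ofReal B • volume.restrict (h.symm '' C) := by
  have hK : IsCompact (h.symm '' C) := hC.image h.symm.continuous
  have hdc : Continuous (fun x => |(fderiv ℝ h x).det|) :=
    (ContinuousLinearMap.continuous_det.comp (h1.continuous_fderiv (by simp))).abs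
  obtain ⟨B, hB⟩ := hK.exists_bound_of_continuousOn hdc.continuousOn
  refine ⟨B, Measure.le_iff.mpr fun A hA => ?_⟩
  rw [Measure.map_apply h.symm.continuous.measurable hA,
    Measure.restrict_apply (h.symm.continuous.measurable hA), Measure.smul_apply,
    Measure.restrict_apply hA, smul_eq_mul]
  have e : h.symm ⁻¹' A ∩ C = h '' (A ∩ h.symm '' C) := by
    ext y
    simp only [mem_inter_iff, mem_preimage, mem_image]
    constructor
    · rintro ⟨ha, hc⟩
      exact ⟨h.symm y, ⟨ha, y, hc, rfl⟩, by simp⟩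
    · rintro ⟨x, ⟨ha, c, hc, rfl⟩, rfl⟩
      simpa using ⟨ha, hc⟩
  have hm : MeasurableSet (A ∩ h.symm '' C) := hA.inter hK.measurableSet
  rw [e]
  refine (addHaar_image_le_lintegral_abs_det_fderiv volume hm
    (f' := fderiv ℝ h) (fun x _ => ((h1.differentiable (by simp)) x).hasFDerivAt.hasFDerivWithinAt)).trans ?_
  calc ∫⁻ x in A ∩ h.symm '' C, ENNReal.ofReal |(fderiv ℝ h x).det|
      ≤ ∫⁻ _ in A ∩ h.symm '' C, ENNReal.ofReal B := by
        refine setLIntegral_mono' hm (fun x hx => ENNReal.ofReal_le_ofReal ?_)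
        have := hB x hx.2
        rwa [Real.norm_eq_abs, abs_abs] at this
    _ = ENNReal.ofReal B * volume (A ∩ h.symm '' C) := by
        rw [setLIntegral_const]

/-- Integrability of the cube is invariant under a smooth change of variables. -/
theorem memLp_comp {V : Type*} [NormedAddCommGroup V] (f : E → V) (h : E ≃ₜ E)
    (h1 : ContDiff ℝ ∞ h) (h2 : ContDiff ℝ ∞ h.symm) (C : Set E) (hC : IsCompact C)
    (hf : MemLp f 3 (volume.restrict (h.symm '' C))) :
    MemLp (fun y => f (h.symm y)) 3 (volume.restrict C) := by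
  obtain ⟨B, hB⟩ := P4_map_le h h1 C hC
  have h3 : MemLp f 3 ((volume.restrict C).map h.symm) :=
    (hf.smul_measure (c := ENNReal.ofReal B) ENNReal.ofReal_ne_top).mono_measure hB
  exact h3.comp_of_map h.symm.continuous.aemeasurable

end Pool.Agent.Lib.MP_6b3014_an.Sm
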