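import Pool.Agent.Lib.MP_6b3014_an.Sm.P3
import Pool.Agent.Lib.MP_6b3014_an.Sm.P4

open MeasureTheory Set
open scoped RealInnerProductSpace ContDiff Topology

noncomputable section

namespace Pool.Agent.Lib.MP_6b3014_an.Sm

theorem P5_image (h : E ≃ₜ E) (C D : Set E) (hC : IsCompact C) (hCD : C ⊆ h '' D) :
    IsCompact (h.symm '' C) ∧ h.symm '' C ⊆ D := by
  refine ⟨hC.image h.symm.continuous, ?_⟩
  rintro _ ⟨y, hy, rfl⟩
  obtain ⟨x, hx, rfl⟩ := hCD hy
  simpa using hx

theorem w13_comp (D : Set E) (hD : IsOpen D) (f : E → E) (Df : E → E →L[ℝ] E)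
    (w : W13 D f Df) (h : E ≃ₜ E) (h1 : ContDiff ℝ ∞ h) (h2 : ContDiff ℝ ∞ h.symm)
    (hdet : ∀ x, 0 < (fderiv ℝ h x).det) :
    W13 (h '' D) (fun y => f (h.symm y)) (fun y => Df (h.symm y) ∘L fderiv ℝ h.symm y) := by
  refine ⟨?_, ?_, ?_⟩
  · intro C hC hCD
    obtain ⟨hC1, hC2⟩ := P5_image h C D hC hCD
    exact memLp_comp f h h1 h2 C hC (w.memF _ hC1 hC2)
  · intro C hC hCD
    obtain ⟨hC1, hC2⟩ := P5_image h C D hC hCD
    have hg : MemLp (fun y => Df (h.symm y)) 3 (volume.restrict C) :=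
      memLp_comp Df h h1 h2 C hC (w.memD _ hC1 hC2)
    have hL : Continuous (fun y => fderiv ℝ h.symm y) := h2.continuous_fderiv (by simp)
    obtain ⟨c, hc⟩ := hC.exists_bound_of_continuousOn hL.continuousOn
    refine MemLp.of_le_mul (c := c) hg ?_ ?_
    · exact (ContinuousLinearMap.compL ℝ E E E).aestronglyMeasurable_comp₂
        hg.aestronglyMeasurable hL.aestronglyMeasurable
    · refine (ae_restrict_iff' hC.measurableSet).2 (Filter.Eventually.of_forall fun y hy => ?_)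
      refine (ContinuousLinearMap.opNorm_comp_le _ _).trans ?_
      rw [mul_comm c]
      exact mul_le_mul_of_nonneg_left (hc y hy) (norm_nonneg _)
  · intro φ hφ hc hs e
    exact weak_comp D hD f Df w h h1 h2 hdet φ hφ hc hs e

end Pool.Agent.Lib.MP_6b3014_an.Sm
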