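import Pool.Agent.Lib.MP_6b3014_an.Sm.A0b
import Pool.Agent.Lib.MP_6b3014_an.Sm.A1
import Pool.Agent.Lib.MP_6b3014_an.Sm.A4
import Pool.Agent.Lib.MP_6b3014_an.Sm.Gr

open MeasureTheory Set
open scoped RealInnerProductSpace ContDiff Topology

noncomputable section

namespace Pool.Agent.Lib.MP_6b3014_an.Sm

/-- `d = det A ^ (2/3)` -/
def dd (A : E →L[ℝ] E) : ℝ := A.det ^ ((2 : ℝ) / 3)

/-- The product of `AᵀA - K^(2/3) d` and `AᵀA - K^(-2/3) d`. -/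
def PK (K : ℝ) (A : E →L[ℝ] E) : E →L[ℝ] E :=
  ((ContinuousLinearMap.adjoint A ∘L A) - (K ^ ((2 : ℝ) / 3) * dd A) • ContinuousLinearMap.id ℝ E) ∘L
  ((ContinuousLinearMap.adjoint A ∘L A) - (K ^ (-(2 : ℝ) / 3) * dd A) • ContinuousLinearMap.id ℝ E)

/-- The first unit vector. -/
def ez : E := EuclideanSpace.single 0 1

end Pool.Agent.Lib.MP_6b3014_an.Sm
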