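import Pool.Agent.Lib.MP_6b3014_an.Sm.Defs

open MeasureTheory Set
open scoped RealInnerProductSpace ContDiff Topology

noncomputable section

namespace Pool.Agent.Lib.MP_6b3014_an.Sm

/-- A `C^1` map on an open set maps sets of zero two-dimensional Hausdorff measure to such sets:
countable cover by neighbourhoods on which the map is Lipschitz. -/
theorem null_image (Φ : (E →L[ℝ] E) → (Fin 2 → ℝ)) (Ω : Set (E →L[ℝ] E)) (hΩ : IsOpen Ω)
    (hΦ : ContDiffOn ℝ 1 Φ Ω) (N : Set (E →L[ℝ] E)) (hN : μH[2] N = 0) :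
    μH[2] (Φ '' (N ∩ Ω)) = 0 := by
  have : FiniteDimensional ℝ (E →L[ℝ] E) := inferInstance
  have : SecondCountableTopology (E →L[ℝ] E) := by
    have : ProperSpace (E →L[ℝ] E) := FiniteDimensional.proper ℝ _
    infer_instance
  have h1 : ∀ A ∈ Ω, ∃ t ∈ 𝓝[Ω] A, ∃ C : NNReal, LipschitzOnWith C Φ t := by
    intro A hA
    have h2 : ContDiffAt ℝ 1 Φ A := hΦ.contDiffAt (hΩ.mem_nhds hA)
    obtain ⟨C, t, ht, hC⟩ := h2.exists_lipschitzOnWith
    exact ⟨t, mem_nhdsWithin_of_mem_nhds ht, C, hC⟩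
  choose! t ht C hC using h1
  obtain ⟨s, hsΩ, hs, hcov⟩ := TopologicalSpace.countable_cover_nhdsWithin ht
  have h3 : Φ '' (N ∩ Ω) ⊆ ⋃ A ∈ s, Φ '' (N ∩ t A) := by
    rintro _ ⟨B, ⟨hBN, hBΩ⟩, rfl⟩
    have h4 := hcov hBΩ
    rw [mem_iUnion₂] at h4
    obtain ⟨A, hA, hB⟩ := h4
    rw [mem_iUnion₂]
    exact ⟨A, hA, B, ⟨hBN, hB⟩, rfl⟩
  refine measure_mono_null h3 ((measure_biUnion_null_iff hs).2 fun A hA => ?_)
  have h5 : LipschitzOnWith (C A) Φ (N ∩ t A) := (hC A (hsΩ hA)).mono inter_subset_right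
  have h6 := h5.hausdorffMeasure_image_le (d := 2) (by norm_num)
  have h7 : μH[2] (N ∩ t A) = 0 := measure_mono_null inter_subset_left hN
  rw [h7, mul_zero] at h6
  exact le_antisymm h6 bot_le

end Pool.Agent.Lib.MP_6b3014_an.Sm
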