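import Pool.Agent.Lib.MP_6b3014_an.Sm.T0

open MeasureTheory Set
open scoped RealInnerProductSpace ContDiff Topology

noncomputable section

namespace Pool.Agent.Lib.MP_6b3014_an.Sm

theorem T2_adj (A : E →L[ℝ] E) (y : E) (s : ℝ)
    (h : ∀ w : E, ⟪A y, A w⟫ = s * ⟪y, w⟫) : ContinuousLinearMap.adjoint A (A y) = s • y := by
  apply ext_inner_right ℝ
  intro w
  rw [ContinuousLinearMap.adjoint_inner_left, h w, real_inner_smul_left]

theorem T2_sq (x u : ℝ) (hx : 0 ≤ x) (h : x ^ 3 = u) : x ^ 2 = u ^ ((2 : ℝ) / 3) := by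
  rw [← h, ← Real.rpow_natCast x 3, ← Real.rpow_mul hx, ← Real.rpow_natCast x 2]
  congr 1
  norm_num

theorem T2_dd3 (A : E →L[ℝ] E) (hA : 0 < A.det) : dd A ^ 3 = A.det ^ 2 := by
  unfold dd
  rw [← Real.rpow_natCast, ← Real.rpow_mul hA.le, ← Real.rpow_natCast A.det 2]
  congr 1
  norm_num

/-- Top, bottom and middle vectors are eigenvectors of `AᵀA`. -/
theorem eig_three (K : ℝ) (hK : 1 < K) (A : E →L[ℝ] E) (h : Dil K A) (y z p : E)
    (hy : Top K A y) (hz : Bot K A z) (hp : p ≠ 0) (hpy : ⟪p, y⟫ = 0) (hpz : ⟪p, z⟫ = 0) :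
    ContinuousLinearMap.adjoint A (A y) = (K ^ ((2 : ℝ) / 3) * dd A) • y ∧
    ContinuousLinearMap.adjoint A (A z) = (K ^ (-(2 : ℝ) / 3) * dd A) • z ∧
    ContinuousLinearMap.adjoint A (A p) = dd A • p := by
  have hK0 : 0 < K := by linarith
  obtain ⟨hd, hw⟩ := (dil_iff K A).1 h
  have hyz := top_bot_orth K hK A h y z hy hz
  have ey : ∀ w : E, ⟪A y, A w⟫ = ‖A y‖ ^ 2 * ⟪y, w⟫ := by
    refine eig_max A y hy.1 (fun w hw1 => ?_)
    have h1 : ‖A w‖ ^ 3 ≤ ‖A y‖ ^ 3 := by
      rw [hy.2]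
      exact (hw w hw1).1
    exact le_of_pow_le_pow_left₀ (by norm_num) (norm_nonneg _) h1
  have ez' : ∀ w : E, ⟪A z, A w⟫ = ‖A z‖ ^ 2 * ⟪z, w⟫ := by
    refine eig_min A z hz.1 (fun w hw1 => ?_)
    have h1 : K * ‖A z‖ ^ 3 ≤ K * ‖A w‖ ^ 3 := by
      rw [← hz.2]
      exact (hw w hw1).2
    exact le_of_pow_le_pow_left₀ (by norm_num) (norm_nonneg _) (le_of_mul_le_mul_left h1 hK0)
  have sy : ‖A y‖ ^ 2 = K ^ ((2 : ℝ) / 3) * dd A := by
    rw [T2_sq _ _ (norm_nonneg _) hy.2, Real.mul_rpow hK0.le hd.le]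
    rfl
  have sz : ‖A z‖ ^ 2 = K ^ (-(2 : ℝ) / 3) * dd A := by
    have h1 : ‖A z‖ ^ 3 = K⁻¹ * A.det := by
      rw [hz.2]
      field_simp
    rw [T2_sq _ _ (norm_nonneg _) h1, Real.mul_rpow (inv_nonneg.2 hK0.le) hd.le,
      Real.inv_rpow hK0.le, ← Real.rpow_neg hK0.le]
    unfold dd
    congr 2
    ring
  have hpn : ‖p‖ ≠ 0 := norm_ne_zero_iff.2 hp
  obtain ⟨q, hq⟩ : ∃ q : E, q = ‖p‖⁻¹ • p := ⟨_, rfl⟩
  have hq1 : ‖q‖ = 1 := by
    rw [hq, norm_smul, norm_inv, norm_norm, inv_mul_cancel₀ hpn]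
  have hqy : ⟪y, q⟫ = 0 := by
    rw [hq, real_inner_smul_right, real_inner_comm, hpy, mul_zero]
  have hqz : ⟪z, q⟫ = 0 := by
    rw [hq, real_inner_smul_right, real_inner_comm, hpz, mul_zero]
  have hpq : p = ‖p‖ • q := by
    rw [hq, smul_smul, mul_inv_cancel₀ hpn, one_smul]
  have he : Orthonormal ℝ (![y, z, q] : Fin 3 → E) := by
    constructor
    · intro i
      fin_cases i
      · exact hy.1
      · exact hz.1
      · exact hq1
    · intro i j hij
      fin_cases i <;> fin_cases j <;>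
        first
        | exact absurd rfl hij
        | (simp only [Fin.zero_eta, Fin.mk_one, Fin.reduceFinMk, Matrix.cons_val_zero,
            Matrix.cons_val_one, Matrix.cons_val])
      · exact hyz
      · exact hqy
      · rw [real_inner_comm]; exact hyz
      · exact hqz
      · rw [real_inner_comm]; exact hqy
      · rw [real_inner_comm]; exact hqz
  have a01 : ⟪A y, A z⟫ = 0 := by rw [ey, hyz, mul_zero]
  have a02 : ⟪A y, A q⟫ = 0 := by rw [ey, hqy, mul_zero]
  have a12 : ⟪A z, A q⟫ = 0 := by rw [ez', hqz, mul_zero]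
  have hgram := gram A ![y, z, q] he (by
    intro i j hij
    fin_cases i <;> fin_cases j <;>
      first
      | exact absurd rfl hij
      | (simp only [Fin.zero_eta, Fin.mk_one, Fin.reduceFinMk, Matrix.cons_val_zero,
          Matrix.cons_val_one, Matrix.cons_val])
    · exact a01
    · exact a02
    · rw [real_inner_comm]; exact a01
    · exact a12
    · rw [real_inner_comm]; exact a02
    · rw [real_inner_comm]; exact a12)
  simp only [Matrix.cons_val_zero, Matrix.cons_val_one, Matrix.cons_val] at hgram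
  have hdd : 0 < dd A := Real.rpow_pos_of_pos hd _
  have sq : ‖A q‖ ^ 2 = dd A := by
    rw [sy, sz, ← T2_dd3 A hd] at hgram
    have h1 : K ^ ((2 : ℝ) / 3) * K ^ (-(2 : ℝ) / 3) = 1 := by
      rw [← Real.rpow_add hK0]
      have : (2 : ℝ) / 3 + -(2 : ℝ) / 3 = 0 := by ring
      rw [this, Real.rpow_zero]
    have h2 : dd A ^ 2 * dd A = dd A ^ 2 * ‖A q‖ ^ 2 := by
      calc dd A ^ 2 * dd A = dd A ^ 3 := by ring
        _ = _ := hgram
        _ = (K ^ ((2 : ℝ) / 3) * K ^ (-(2 : ℝ) / 3)) * (dd A ^ 2 * ‖A q‖ ^ 2) := by ring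
        _ = dd A ^ 2 * ‖A q‖ ^ 2 := by rw [h1, one_mul]
    exact (mul_left_cancel₀ (by positivity) h2).symm
  refine ⟨?_, ?_, ?_⟩
  · rw [← sy]
    exact T2_adj A y _ ey
  · rw [← sz]
    exact T2_adj A z _ ez'
  · have hcard : Module.finrank ℝ E = Fintype.card (Fin 3) := by
      rw [finrank_euclideanSpace]
    obtain ⟨b, hb⟩ := (he.comp (fun i : (Set.univ : Set (Fin 3)) => (i : Fin 3))
      Subtype.val_injective).exists_orthonormalBasis_extension_of_card_eq
        (v := (![y, z, q] : Fin 3 → E)) (s := Set.univ) hcard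
    have hbe : ∀ i, b i = (![y, z, q] : Fin 3 → E) i := fun i => hb i (Set.mem_univ i)
    have hqq : ContinuousLinearMap.adjoint A (A q) = dd A • q := by
      refine InnerProductSpace.ext_inner_right_basis b.toBasis ?_
      intro i
      rw [OrthonormalBasis.coe_toBasis, hbe, ContinuousLinearMap.adjoint_inner_left,
        real_inner_smul_left]
      fin_cases i
      · simp only [Fin.zero_eta, Matrix.cons_val_zero]
        rw [real_inner_comm, a02, real_inner_comm, hqy, mul_zero]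
      · simp only [Fin.mk_one, Matrix.cons_val_one, Matrix.cons_val_zero]
        rw [real_inner_comm, a12, real_inner_comm, hqz, mul_zero]
      · simp only [Fin.reduceFinMk, Matrix.cons_val]
        rw [real_inner_self_eq_norm_sq, real_inner_self_eq_norm_sq, hq1, sq]
        ring
    conv_lhs => rw [hpq]
    rw [map_smul, map_smul, hqq, smul_comm]
    rw [← hpq]

end Pool.Agent.Lib.MP_6b3014_an.Sm
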