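import Pool.Agent.Lib.MP_6b3014_an.Sm.Defs

open MeasureTheory Set
open scoped RealInnerProductSpace ContDiff Topology

noncomputable section

namespace Pool.Agent.Lib.MP_6b3014_an.Sm

theorem W1_memLp {F : Type*} [NormedAddCommGroup F] (C : Set E) (hC : IsCompact C) (g : E → F)
    (hg : ContinuousOn g C) : MemLp g 3 (volume.restrict C) := by
  obtain ⟨B, hB⟩ := hC.exists_bound_of_continuousOn hg
  have : IsFiniteMeasure (volume.restrict C) := ⟨by
    rw [Measure.restrict_apply_univ]
    exact hC.measure_lt_top⟩
  refine MemLp.of_bound (ContinuousOn.aestronglyMeasurable_of_isCompact hg hC hC.measurableSet) B ?_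
  filter_upwards [ae_restrict_mem hC.measurableSet] with x hx
  exact hB x hx

theorem W1_continuous {F : Type*} [NormedAddCommGroup F] (D : Set E) (hD : IsOpen D) (T : Set E)
    (hT : IsClosed T) (hTD : T ⊆ D) (g : E → F) (hg : ContinuousOn g D) (h0 : ∀ x, x ∉ T → g x = 0) :
    Continuous g := by
  rw [continuous_iff_continuousAt]
  intro x
  by_cases hx : x ∈ T
  · exact hg.continuousAt (hD.mem_nhds (hTD hx))
  · have h1 : g =ᶠ[𝓝 x] fun _ => 0 := by
      filter_upwards [hT.isOpen_compl.mem_nhds hx] with y hy
      exact h0 y hy
    exact continuousAt_const.congr h1.symm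

theorem w13_of_contDiffOn (D : Set E) (hD : IsOpen D) (f : E → E) (hf : ContDiffOn ℝ 1 f D) :
    W13 D f (fderiv ℝ f) := by
  have hfc : ContinuousOn f D := hf.continuousOn
  have hdc : ContinuousOn (fderiv ℝ f) D := hf.continuousOn_fderiv_of_isOpen hD le_rfl
  refine ⟨fun C hC hCD => W1_memLp C hC f (hfc.mono hCD),
    fun C hC hCD => W1_memLp C hC _ (hdc.mono hCD), fun φ hφ hφc hφD e => ?_⟩
  have hT : IsClosed (tsupport φ) := isClosed_tsupport φ
  have hφ' : Continuous (fderiv ℝ φ) := hφ.continuous_fderiv (by simp)
  have z0 : ∀ x, x ∉ tsupport φ → φ x = 0 := fun x hx => image_eq_zero_of_notMem_tsupport hx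
  have z1 : ∀ x, x ∉ tsupport φ → fderiv ℝ φ x = 0 := fun x hx => by
    have := support_fderiv_subset ℝ (f := φ)
    by_contra hne
    exact hx (this hne)
  have i1 : Integrable (fun x => fderiv ℝ φ x e • f x) volume := by
    refine Continuous.integrable_of_hasCompactSupport ?_ ?_
    · refine W1_continuous D hD _ hT hφD _ ?_ (fun x hx => by rw [z1 x hx]; simp)
      exact (hφ'.clm_apply continuous_const).continuousOn.smul hfc
    · exact HasCompactSupport.of_support_subset_isCompact hφc (fun x hx => by
        by_contra hne
        exact hx (by simp only [z1 x hne]; simp))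
  have i2 : Integrable (fun x => φ x • fderiv ℝ f x e) volume := by
    refine Continuous.integrable_of_hasCompactSupport ?_ ?_
    · refine W1_continuous D hD _ hT hφD _ ?_ (fun x hx => by rw [z0 x hx]; simp)
      exact hφ.continuous.continuousOn.smul (hdc.clm_apply continuousOn_const)
    · exact HasCompactSupport.of_support_subset_isCompact hφc (fun x hx => by
        by_contra hne
        exact hx (by simp only [z0 x hne]; simp))
  have i3 : Integrable (fun x => φ x • f x) volume := by
    refine Continuous.integrable_of_hasCompactSupport ?_ ?_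
    · refine W1_continuous D hD _ hT hφD _ ?_ (fun x hx => by rw [z0 x hx]; simp)
      exact hφ.continuous.continuousOn.smul hfc
    · exact HasCompactSupport.of_support_subset_isCompact hφc (fun x hx => by
        by_contra hne
        exact hx (by simp only [z0 x hne]; simp))
  have key := integral_smul_fderiv_eq_neg_fderiv_smul_of_integrable (μ := volume) (f := φ) (g := f) (v := e)
    i1 i2 i3 (fun x _ => (hφ.differentiable (by simp)) x)
    (fun x hx => (hf.differentiableOn one_ne_zero).differentiableAt (hD.mem_nhds (hφD hx)))
  rw [key, neg_neg]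

end Pool.Agent.Lib.MP_6b3014_an.Sm
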